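import Mathlib

/-!
# The directed landscape: definitions

Last passage percolation across lines, independent two-sided Brownian motions, the Airy sheet as
the scaling limit of Brownian last passage percolation, the directed landscape, lengths of paths
and the `h`-shift of a landscape.
-/

open Set Topology MeasureTheory ProbabilityTheory Filter

namespace Pool.Agent.Lib.MP_cd6101_pr

/-! ### Brownian last passage percolation and the Airy sheet -/

/-- `s` is the sequence of jump times of an up-path across `n` lines from time `a` to time `b`: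
`a = s 0 ≤ s 1 ≤ … ≤ s n = b`. -/
def IsUpPath (n : ℕ) (a b : ℝ) (s : ℕ → ℝ) : Prop :=
  (∀ j < n, s j ≤ s (j + 1)) ∧ s 0 = a ∧ s n = b

/-- The weight collected by the path with jump times `s` across the lines `k, …, k+n-1`:
on line `k + j` it collects the increment of `z (k + j)` between `s j` and `s (j + 1)`. -/
def pathEnergy (z : ℕ → ℝ → ℝ) (k n : ℕ) (s : ℕ → ℝ) : ℝ :=
  ∑ j ∈ Finset.range n, (z (k + j) (s (j + 1)) - z (k + j) (s j))

/-- Last passage value across the lines `k, …, k+n-1` from time `a` to time `b`. -/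
noncomputable def lpp (z : ℕ → ℝ → ℝ) (k n : ℕ) (a b : ℝ) : ℝ :=
  sSup {e | ∃ s : ℕ → ℝ, IsUpPath n a b s ∧ e = pathEnergy z k n s}

/-- `B 0, B 1, B 2, …` are independent two-sided standard Brownian motions: the family
`(B k t)` is centred, jointly Gaussian, `B k` and `B l` are uncorrelated for `k ≠ l`,
`Cov (B k s, B k t) = (|s| + |t| - |s - t|) / 2`, and every path is continuous. -/
structure IsBrownianLines {Ω : Type*} [MeasurableSpace Ω] (B : ℕ → ℝ → Ω → ℝ)
    (P : Measure Ω) : Prop where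
  measurable : ∀ k t, Measurable (B k t)
  gaussian : IsGaussianProcess (fun (p : ℕ × ℝ) ω => B p.1 p.2 ω) P
  mean : ∀ k t, P[B k t] = 0
  cov : ∀ k l s t, cov[B k s, B l t; P] = if k = l then (|s| + |t| - |s - t|) / 2 else 0
  cont : ∀ ω k, Continuous fun t => B k t ω

/-- The rescaled Brownian last passage value
`N^{1/6} ( B[(2x N^{-1/3}, bottom line) → (1 + 2y N^{-1/3}, top line)] - 2 √N - 2 (y - x) N^{1/6} )`
across `N` lines, at the point `p = (x, y)`. -/
noncomputable def airyPre (z : ℕ → ℝ → ℝ) (N : ℕ) (p : ℝ × ℝ) : ℝ :=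
  (N : ℝ) ^ ((1 : ℝ) / 6) *
    (lpp z 0 N (2 * p.1 * (N : ℝ) ^ (-(1 : ℝ) / 3)) (1 + 2 * p.2 * (N : ℝ) ^ (-(1 : ℝ) / 3)) -
      2 * √(N : ℝ) - 2 * (p.2 - p.1) * (N : ℝ) ^ ((1 : ℝ) / 6))

/-- `S` is an Airy sheet: a random continuous function of two variables which is the limit in law
of rescaled Brownian last passage percolation, `airyPre B N ⟶ S` (convergence in distribution of
all finite dimensional marginals, which together with continuity determines the law of `S`). -/
structure IsAirySheet {Ω : Type*} [MeasurableSpace Ω] (S : Ω → ℝ → ℝ → ℝ) (P : Measure Ω)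
    [IsProbabilityMeasure P] : Prop where
  continuous : ∀ ω, Continuous fun p : ℝ × ℝ => S ω p.1 p.2
  limit : ∃ (Ω' : Type) (_ : MeasurableSpace Ω') (P' : Measure Ω') (_ : IsProbabilityMeasure P')
    (B : ℕ → ℝ → Ω' → ℝ), IsBrownianLines B P' ∧
      ∀ I : Finset (ℝ × ℝ),
        TendstoInDistribution (fun (N : ℕ) ω' (p : I) => airyPre (fun j t => B j t ω') N p) atTop
          (fun ω (p : I) => S ω p.1.1 p.1.2) (fun _ => P') P

/-! ### The directed landscape

A landscape is a function `ℓ x s y t` of two space-time points `(x, s)` and `(y, t)`, of which only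
the values with `s < t` matter. -/

/-- The information contained in the restriction of `L` to the time interval `I`: the σ-algebra
generated by the random variables `L(x, s; y, t)` with `s < t` in `I`. -/
@[reducible] def timeRestr {Ω : Type*} (L : Ω → ℝ → ℝ → ℝ → ℝ → ℝ) (I : Set ℝ) :
    MeasurableSpace Ω :=
  ⨆ (x : ℝ) (s : ℝ) (y : ℝ) (t : ℝ) (_ : s ∈ I ∧ t ∈ I ∧ s < t),
    MeasurableSpace.comap (fun ω => L ω x s y t) inferInstance

/-- `π` is a continuous path from `(x, s)` to `(y, t)`. -/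
def IsPath (x s y t : ℝ) (π : ℝ → ℝ) : Prop :=
  ContinuousOn π (Icc s t) ∧ π s = x ∧ π t = y

/-- `s = τ 0 < τ 1 < … < τ k = t`. -/
def IsPartition (k : ℕ) (s t : ℝ) (τ : ℕ → ℝ) : Prop :=
  (∀ i < k, τ i < τ (i + 1)) ∧ τ 0 = s ∧ τ k = t

/-- The `ℓ`-length of the path `π` over the time interval `[s, t]`: the infimum over all partitions
`s = τ 0 < … < τ k = t` of `∑ ℓ (π (τ i), τ i; π (τ (i+1)), τ (i+1))`. -/
noncomputable def pathLength (ℓ : ℝ → ℝ → ℝ → ℝ → ℝ) (s t : ℝ) (π : ℝ → ℝ) : EReal :=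
  ⨅ (k : ℕ) (τ : ℕ → ℝ) (_ : IsPartition k s t τ),
    ((∑ i ∈ Finset.range k, ℓ (π (τ i)) (τ i) (π (τ (i + 1))) (τ (i + 1)) : ℝ) : EReal)

/-- The value at `(x, s; y, t)` of the `h`-shift of the landscape `ℓ`: the supremum over all
continuous paths from `(x, s)` to `(y, t)` of the length plus the integral of `h` along the path. -/
noncomputable def hShift (h : ℝ × ℝ → ℝ) (ℓ : ℝ → ℝ → ℝ → ℝ → ℝ) (x s y t : ℝ) : EReal :=
  ⨆ (π : ℝ → ℝ) (_ : IsPath x s y t π),
    (pathLength ℓ s t π + ((∫ r in s..t, h (π r, r) : ℝ) : EReal))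

/-- `L` is a directed landscape. -/
structure IsDirectedLandscape {Ω : Type*} [MeasurableSpace Ω] (L : Ω → ℝ → ℝ → ℝ → ℝ → ℝ)
    (P : Measure Ω) [IsProbabilityMeasure P] : Prop where
  /-- `L` is a random function. -/
  measurable : ∀ x s y t, s < t → Measurable fun ω => L ω x s y t
  /-- `L` is continuous on `{s < t}`. -/
  continuous : ∀ ω, ContinuousOn (fun q : (ℝ × ℝ) × (ℝ × ℝ) => L ω q.1.1 q.1.2 q.2.1 q.2.2)
    {q | q.1.2 < q.2.2}
  /-- Airy sheet marginals: `L(x, s; y, s + t³) = t S(x / t², y / t²)` with `S` an Airy sheet. -/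
  airy : ∀ s t, 0 < t →
    IsAirySheet (fun ω x y => t⁻¹ * L ω (t ^ 2 * x) s (t ^ 2 * y) (s + t ^ 3)) P
  /-- Independent increments: restrictions to pairwise disjoint time intervals are independent. -/
  indep : ∀ (n : ℕ) (I : Fin n → Set ℝ), (∀ i, (I i).OrdConnected) →
    Pairwise (fun i j => Disjoint (I i) (I j)) → iIndep (fun i => timeRestr L (I i)) P
  /-- Metric composition law. -/
  composition : ∀ᵐ ω ∂P, ∀ x r y t s, r < s → s < t →
    IsGreatest (range fun z => L ω x r z s + L ω z s y t) (L ω x r y t)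

/-- The parameter space `ℝ⁴_↑ = {(x, s; y, t) : s < t}`. -/
abbrev Up : Type := {q : (ℝ × ℝ) × (ℝ × ℝ) // q.1.2 < q.2.2}

end Pool.Agent.Lib.MP_cd6101_pr
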