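import Mathlib
import Pool.Agent.Lib.MP_cd6101_pr.Defs

/-!
# Last passage percolation across a sequence of lines: deterministic facts

`z j t` is the environment on line `j` at time `t`.  An up-path across the `n` lines
`k, …, k+n-1` from time `a` to time `b` is given by its jump times `s 0 = a ≤ s 1 ≤ … ≤ s n = b`;
it collects the increment `z (k+j) (s (j+1)) - z (k+j) (s j)` on line `k+j`.
-/

open Set Topology

namespace Pool.Agent.Lib.MP_cd6101_pr

lemma IsUpPath.mono_le {n : ℕ} {a b : ℝ} {s : ℕ → ℝ} (h : IsUpPath n a b s) {i j : ℕ}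
    (hij : i ≤ j) (hj : j ≤ n) : s i ≤ s j := by
  induction j, hij using Nat.le_induction with
  | base => exact le_rfl
  | succ j hij ih => exact (ih (by omega)).trans (h.1 j (by omega))

lemma IsUpPath.mem_Icc {n : ℕ} {a b : ℝ} {s : ℕ → ℝ} (h : IsUpPath n a b s) {j : ℕ}
    (hj : j ≤ n) : s j ∈ Icc a b := by
  constructor
  · have := h.mono_le (Nat.zero_le j) hj
    rwa [h.2.1] at this
  · have := h.mono_le hj le_rfl
    rwa [h.2.2] at this

lemma pathEnergy_congr {z : ℕ → ℝ → ℝ} {k n : ℕ} {s s' : ℕ → ℝ} (h : ∀ j ≤ n, s j = s' j) :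
    pathEnergy z k n s = pathEnergy z k n s' := by
  unfold pathEnergy
  refine Finset.sum_congr rfl fun j hj => ?_
  rw [Finset.mem_range] at hj
  rw [h j (by omega), h (j + 1) (by omega)]

lemma bddAbove_energies {z : ℕ → ℝ → ℝ} (hz : ∀ j, Continuous (z j)) (k n : ℕ) (a b : ℝ) :
    BddAbove {e | ∃ s : ℕ → ℝ, IsUpPath n a b s ∧ e = pathEnergy z k n s} := by
  have hb : ∀ j, ∃ C : ℝ, ∀ t ∈ Icc a b, |z j t| ≤ C := by
    intro j
    obtain ⟨C, hC⟩ := (isCompact_Icc (a := a) (b := b)).exists_bound_of_continuousOn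
      (hz j).continuousOn
    exact ⟨C, fun t ht => by simpa using hC t ht⟩
  choose C hC using hb
  refine ⟨∑ j ∈ Finset.range n, (C (k + j) + C (k + j)), ?_⟩
  rintro e ⟨s, hs, rfl⟩
  unfold pathEnergy
  refine Finset.sum_le_sum fun j hj => ?_
  rw [Finset.mem_range] at hj
  have h1 := hC (k + j) _ (hs.mem_Icc (j := j + 1) (by omega))
  have h2 := hC (k + j) _ (hs.mem_Icc (j := j) (by omega))
  have h3 := (abs_le.1 h1).2
  have h4 := (abs_le.1 h2).1
  linarith

lemma pathEnergy_le_lpp {z : ℕ → ℝ → ℝ} (hz : ∀ j, Continuous (z j)) {k n : ℕ} {a b : ℝ}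
    {s : ℕ → ℝ} (hs : IsUpPath n a b s) : pathEnergy z k n s ≤ lpp z k n a b :=
  le_csSup (bddAbove_energies hz k n a b) ⟨s, hs, rfl⟩

/-- The up-path from `a` to `b` obtained by clamping arbitrary reals `q 1, …, q (n-1)`. -/
noncomputable def clampPath (n : ℕ) (a b : ℝ) (q : Fin n → ℝ) : ℕ → ℝ
  | 0 => a
  | j + 1 => if h : j + 1 < n then max (clampPath n a b q j) (min b (q ⟨j + 1, h⟩)) else b

lemma clampPath_mem {n : ℕ} {a b : ℝ} (hab : a ≤ b) (q : Fin n → ℝ) (j : ℕ) :
    clampPath n a b q j ∈ Icc a b := by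
  induction j with
  | zero => exact ⟨le_rfl, hab⟩
  | succ j ih =>
    rw [clampPath]
    split_ifs with h
    · exact ⟨ih.1.trans (le_max_left _ _), max_le ih.2 (min_le_left _ _)⟩
    · exact ⟨hab, le_rfl⟩

lemma isUpPath_clampPath {n : ℕ} (hn : 1 ≤ n) {a b : ℝ} (hab : a ≤ b) (q : Fin n → ℝ) :
    IsUpPath n a b (clampPath n a b q) := by
  refine ⟨fun j _ => ?_, rfl, ?_⟩
  · conv_rhs => rw [clampPath]
    split_ifs with h
    · exact le_max_left _ _
    · exact (clampPath_mem hab q j).2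
  · obtain ⟨m, rfl⟩ : ∃ m, n = m + 1 := ⟨n - 1, by omega⟩
    rw [clampPath]
    simp

lemma clampPath_eq_of_isUpPath {n : ℕ} {a b : ℝ} {s : ℕ → ℝ}
    (hs : IsUpPath n a b s) {j : ℕ} (hj : j ≤ n) :
    clampPath n a b (fun i => s i) j = s j := by
  induction j with
  | zero => rw [clampPath, hs.2.1]
  | succ j ih =>
    rw [clampPath]
    split_ifs with h
    · rw [ih (by omega), min_eq_right (hs.mem_Icc hj).2, max_eq_right (hs.1 j (by omega))]
    · have : j + 1 = n := by omega
      rw [this, hs.2.2]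

lemma continuous_clampPath (n : ℕ) (a b : ℝ) (j : ℕ) :
    Continuous fun q : Fin n → ℝ => clampPath n a b q j := by
  induction j with
  | zero => exact continuous_const
  | succ j ih =>
    simp only [clampPath]
    split_ifs with h
    · fun_prop
    · exact continuous_const

lemma continuous_pathEnergy_clampPath {z : ℕ → ℝ → ℝ} (hz : ∀ j, Continuous (z j)) (k n : ℕ)
    (a b : ℝ) : Continuous fun q : Fin n → ℝ => pathEnergy z k n (clampPath n a b q) := by
  unfold pathEnergy
  refine continuous_finsetSum _ fun j _ => ?_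
  exact ((hz _).comp (continuous_clampPath n a b _)).sub
    ((hz _).comp (continuous_clampPath n a b _))

/-- The supremum over rational clamped paths. -/
noncomputable def lppQ (z : ℕ → ℝ → ℝ) (k n : ℕ) (a b : ℝ) : ℝ :=
  ⨆ q : Fin n → ℚ, pathEnergy z k n (clampPath n a b (fun i => (q i : ℝ)))

lemma denseRange_ratCast (n : ℕ) :
    DenseRange (fun (q : Fin n → ℚ) (i : Fin n) => ((q i : ℚ) : ℝ)) := by
  have := DenseRange.piMap (fun _ : Fin n => Rat.denseRange_cast (𝕜 := ℝ))
  exact this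

lemma lpp_eq_iSup {z : ℕ → ℝ → ℝ} {k n : ℕ} (hn : 1 ≤ n) {a b : ℝ} (hab : a ≤ b) :
    lpp z k n a b = ⨆ q : Fin n → ℝ, pathEnergy z k n (clampPath n a b q) := by
  unfold lpp
  rw [← sSup_range]
  congr 1
  ext e
  constructor
  · rintro ⟨s, hs, rfl⟩
    exact ⟨fun i => s i, pathEnergy_congr fun j hj => clampPath_eq_of_isUpPath hs hj⟩
  · rintro ⟨q, rfl⟩
    exact ⟨_, isUpPath_clampPath hn hab q, rfl⟩

lemma lpp_eq_lppQ {z : ℕ → ℝ → ℝ} (hz : ∀ j, Continuous (z j)) {k n : ℕ} (hn : 1 ≤ n) {a b : ℝ}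
    (hab : a ≤ b) : lpp z k n a b = lppQ z k n a b := by
  rw [lpp_eq_iSup hn hab, lppQ]
  have hd : Dense (range (fun (q : Fin n → ℚ) (i : Fin n) => ((q i : ℚ) : ℝ))) :=
    denseRange_ratCast n
  rw [← hd.ciSup' (continuous_pathEnergy_clampPath hz k n a b)]
  exact ((Set.rangeFactorization_surjective
    (f := fun (q : Fin n → ℚ) (i : Fin n) => ((q i : ℚ) : ℝ))).iSup_comp
      (g := fun s : range (fun (q : Fin n → ℚ) (i : Fin n) => ((q i : ℚ) : ℝ)) =>
        pathEnergy z k n (clampPath n a b s.1))).symm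

/-! ### Transformations of the environment -/

lemma pathEnergy_affine (z : ℕ → ℝ → ℝ) (k n : ℕ) (α β γ : ℝ) (d : ℕ → ℝ) (s : ℕ → ℝ) :
    pathEnergy (fun j t => γ * (z j (α * t + β) - d j)) k n s =
      γ * pathEnergy z k n (fun j => α * s j + β) := by
  unfold pathEnergy
  rw [Finset.mul_sum]
  refine Finset.sum_congr rfl fun j _ => ?_
  ring

lemma lpp_affine (z : ℕ → ℝ → ℝ) (k n : ℕ) (a b : ℝ) {α γ : ℝ} (β : ℝ) (hα : 0 < α)
    (hγ : 0 ≤ γ) (d : ℕ → ℝ) :
    lpp (fun j t => γ * (z j (α * t + β) - d j)) k n a b =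
      γ * lpp z k n (α * a + β) (α * b + β) := by
  unfold lpp
  rw [← smul_eq_mul, ← Real.sSup_smul_of_nonneg hγ]
  congr 1
  ext e
  rw [Set.mem_smul_set]
  constructor
  · rintro ⟨s, ⟨hs1, hs2, hs3⟩, rfl⟩
    refine ⟨_, ⟨fun j => α * s j + β, ⟨fun j hj => ?_, ?_, ?_⟩, rfl⟩, ?_⟩
    · have := hs1 j hj
      nlinarith
    · simp [hs2]
    · simp [hs3]
    · rw [pathEnergy_affine]; rfl
  · rintro ⟨_, ⟨s, ⟨hs1, hs2, hs3⟩, rfl⟩, rfl⟩
    refine ⟨fun j => (s j - β) / α, ⟨fun j hj => ?_, ?_, ?_⟩, ?_⟩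
    · have := hs1 j hj
      simp only
      gcongr
    · simp only
      rw [hs2]; field_simp; ring
    · simp only
      rw [hs3]; field_simp; ring
    · rw [pathEnergy_affine, smul_eq_mul]
      congr 1
      refine pathEnergy_congr fun j _ => ?_
      field_simp
      ring

lemma lpp_line_shift (z : ℕ → ℝ → ℝ) (i k n : ℕ) (a b : ℝ) :
    lpp (fun j => z (i + j)) k n a b = lpp z (i + k) n a b := by
  unfold lpp pathEnergy
  simp only [add_assoc]

/-- The involution `j ↦ N - 1 - j` of `{0, …, N-1}`, extended by the identity. -/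
def revLine (N j : ℕ) : ℕ := if j < N then N - 1 - j else j

lemma revLine_injective (N : ℕ) : Function.Injective (revLine N) := by
  intro i j h
  unfold revLine at h
  split_ifs at h <;> omega

lemma lpp_rev (z : ℕ → ℝ → ℝ) {N n : ℕ} (hn : n ≤ N) (a b : ℝ) :
    lpp (fun j t => z (revLine N j) 1 - z (revLine N j) (1 - t)) 0 n a b =
      lpp z (N - n) n (1 - b) (1 - a) := by
  have key : ∀ s s' : ℕ → ℝ, (∀ j ≤ n, s j = 1 - s' (n - j)) →
      pathEnergy (fun j t => z (revLine N j) 1 - z (revLine N j) (1 - t)) 0 n s' =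
        pathEnergy z (N - n) n s := by
    intro s s' h
    unfold pathEnergy
    rw [← Finset.sum_range_reflect]
    refine Finset.sum_congr rfl fun j hj => ?_
    rw [Finset.mem_range] at hj
    have e1 : revLine N (0 + (n - 1 - j)) = N - n + j := by
      unfold revLine
      rw [if_pos (by omega)]
      omega
    have e2 : n - 1 - j + 1 = n - j := by omega
    have e3 : n - 1 - j = n - (j + 1) := by omega
    simp only [e1, e2]
    rw [e3, h j (by omega), h (j + 1) (by omega)]
    ring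
  unfold lpp
  congr 1
  ext e
  constructor
  · rintro ⟨s', ⟨hs1, hs2, hs3⟩, rfl⟩
    refine ⟨fun j => 1 - s' (n - j), ⟨fun j hj => ?_, ?_, ?_⟩, key _ _ fun j _ => rfl⟩
    · have := hs1 (n - (j + 1)) (by omega)
      have e : n - (j + 1) + 1 = n - j := by omega
      rw [e] at this
      simp only
      linarith
    · simp [hs3]
    · simp [hs2]
  · rintro ⟨s, ⟨hs1, hs2, hs3⟩, rfl⟩
    refine ⟨fun j => 1 - s (n - j), ⟨fun j hj => ?_, ?_, ?_⟩, (key _ _ fun j hj => ?_).symm⟩
    · have := hs1 (n - (j + 1)) (by omega)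
      have e : n - (j + 1) + 1 = n - j := by omega
      rw [e] at this
      simp only
      linarith
    · simp [hs3]
    · simp [hs2]
    · have e : n - (n - j) = j := by omega
      simp [e]

/-! ### Composition -/

lemma pathEnergy_split (z : ℕ → ℝ → ℝ) (i k m : ℕ) (W : ℝ) (s s1 s2 : ℕ → ℝ)
    (h1 : ∀ j ≤ k, s1 j = s j) (h1' : s1 (k + 1) = W) (h2 : s2 0 = W)
    (h2' : ∀ j, 1 ≤ j → j ≤ m + 1 → s2 j = s (k + j)) :
    pathEnergy z i (k + 1 + m) s =
      pathEnergy z i (k + 1) s1 + pathEnergy z (i + k) (m + 1) s2 := by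
  unfold pathEnergy
  rw [Finset.sum_range_add, Finset.sum_range_succ, Finset.sum_range_succ, Finset.sum_range_succ']
  have e1 : ∑ j ∈ Finset.range k, (z (i + j) (s (j + 1)) - z (i + j) (s j)) =
      ∑ j ∈ Finset.range k, (z (i + j) (s1 (j + 1)) - z (i + j) (s1 j)) := by
    refine Finset.sum_congr rfl fun j hj => ?_
    rw [Finset.mem_range] at hj
    rw [h1 j (by omega), h1 (j + 1) (by omega)]
  have e2 : ∑ j ∈ Finset.range m, (z (i + (k + 1 + j)) (s (k + 1 + j + 1)) -
        z (i + (k + 1 + j)) (s (k + 1 + j))) =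
      ∑ j ∈ Finset.range m, (z (i + k + (j + 1)) (s2 (j + 1 + 1)) -
        z (i + k + (j + 1)) (s2 (j + 1))) := by
    refine Finset.sum_congr rfl fun j hj => ?_
    rw [Finset.mem_range] at hj
    rw [h2' (j + 1) (by omega) (by omega), h2' (j + 1 + 1) (by omega) (by omega)]
    have e3 : i + (k + 1 + j) = i + k + (j + 1) := by omega
    have e4 : k + 1 + j + 1 = k + (j + 1 + 1) := by omega
    have e5 : k + 1 + j = k + (j + 1) := by omega
    rw [e3, e4, e5]
  rw [e1, e2, h1', h2, h1 k le_rfl, h2' (0 + 1) (by omega) (by omega)]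
  simp only [add_zero, zero_add]
  ring

lemma lpp_superadd {z : ℕ → ℝ → ℝ} (hz : ∀ j, Continuous (z j)) (i : ℕ) {k n : ℕ} (hk : k < n)
    {a W b : ℝ} (haW : a ≤ W) (hWb : W ≤ b) :
    lpp z i (k + 1) a W + lpp z (i + k) (n - k) W b ≤ lpp z i n a b := by
  obtain ⟨m, rfl⟩ : ∃ m, n = k + 1 + m := ⟨n - (k + 1), by omega⟩
  have hm : k + 1 + m - k = m + 1 := by omega
  rw [hm]
  have ne1 : {e | ∃ s : ℕ → ℝ, IsUpPath (k + 1) a W s ∧ e = pathEnergy z i (k + 1) s}.Nonempty :=
    ⟨_, _, isUpPath_clampPath (by omega) haW (fun _ => 0), rfl⟩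
  have ne2 : {e | ∃ s : ℕ → ℝ, IsUpPath (m + 1) W b s ∧
      e = pathEnergy z (i + k) (m + 1) s}.Nonempty :=
    ⟨_, _, isUpPath_clampPath (by omega) hWb (fun _ => 0), rfl⟩
  rw [← le_sub_iff_add_le]
  refine csSup_le ne1 ?_
  rintro _ ⟨s1, hs1, rfl⟩
  rw [le_sub_iff_add_le, add_comm, ← le_sub_iff_add_le]
  refine csSup_le ne2 ?_
  rintro _ ⟨s2, hs2, rfl⟩
  rw [le_sub_iff_add_le, add_comm]
  have hpath : IsUpPath (k + 1 + m) a b (fun j => if j ≤ k then s1 j else s2 (j - k)) := by
    refine ⟨fun j hj => ?_, ?_, ?_⟩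
    · simp only
      split_ifs with h3 h4 h4
      · exact hs1.1 j (by omega)
      · have hjk : j = k := by omega
        subst hjk
        have e1 := hs1.1 j (by omega)
        rw [hs1.2.2] at e1
        have e2 := hs2.1 0 (by omega)
        rw [hs2.2.1] at e2
        have e3 : j + 1 - j = 0 + 1 := by omega
        rw [e3]
        linarith
      · omega
      · have e := hs2.1 (j - k) (by omega)
        have e3 : j + 1 - k = j - k + 1 := by omega
        rw [e3]
        exact e
    · simp [hs1.2.1]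
    · simp only
      rw [if_neg (by omega)]
      have e3 : k + 1 + m - k = m + 1 := by omega
      rw [e3, hs2.2.2]
  have := pathEnergy_le_lpp hz (k := i) hpath
  rw [pathEnergy_split z i k m W _ s1 s2 (fun j hj => by simp [hj]) hs1.2.2 hs2.2.1
    (fun j hj _ => by
      rw [if_neg (by omega)]
      congr 1
      omega)] at this
  exact this

lemma pathEnergy_le_of_cross {z : ℕ → ℝ → ℝ} (hz : ∀ j, Continuous (z j)) (i : ℕ) {k n : ℕ}
    (hk : k < n) {a W b : ℝ} {s : ℕ → ℝ} (hs : IsUpPath n a b s) (h1 : s k ≤ W)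
    (h2 : W ≤ s (k + 1)) :
    pathEnergy z i n s ≤ lpp z i (k + 1) a W + lpp z (i + k) (n - k) W b := by
  obtain ⟨m, rfl⟩ : ∃ m, n = k + 1 + m := ⟨n - (k + 1), by omega⟩
  have hm : k + 1 + m - k = m + 1 := by omega
  rw [hm]
  rw [pathEnergy_split z i k m W s (fun j => if j ≤ k then s j else W)
    (fun j => if j = 0 then W else s (k + j)) (fun j hj => by simp [hj])
    (by simp) (by simp) (fun j hj _ => by
      have : j ≠ 0 := by omega
      simp [this])]
  have p1 : IsUpPath (k + 1) a W (fun j => if j ≤ k then s j else W) := by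
    refine ⟨fun j hj => ?_, ?_, ?_⟩
    · simp only
      split_ifs with h3 h4 h4
      · exact hs.1 j (by omega)
      · have hjk : j = k := by omega
        subst hjk
        exact h1
      · omega
      · exact le_rfl
    · simp [hs.2.1]
    · simp
  have p2 : IsUpPath (m + 1) W b (fun j => if j = 0 then W else s (k + j)) := by
    refine ⟨fun j hj => ?_, ?_, ?_⟩
    · simp only [Nat.add_eq_zero_iff, one_ne_zero, and_false, if_false]
      split_ifs with h3
      · subst h3
        simpa using h2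
      · have := hs.1 (k + j) (by omega)
        rwa [add_assoc] at this
    · simp
    · simp only [Nat.add_eq_zero_iff, one_ne_zero, and_false, if_false]
      have := hs.2.2
      have e : k + (m + 1) = k + 1 + m := by omega
      rw [e, this]
  exact add_le_add (pathEnergy_le_lpp hz p1) (pathEnergy_le_lpp hz p2)

/-- A path which does not stay to the left of the boundary `W` crosses it. -/
lemma exists_cross_left {n : ℕ} {a b : ℝ} {s W : ℕ → ℝ} (hs : IsUpPath n a b s)
    (hW : ∀ j, W j ≤ W (j + 1)) (haW : a ≤ W 0) (hnot : ¬ ∀ j < n, s (j + 1) ≤ W j) :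
    ∃ k < n, s k ≤ W k ∧ W k ≤ s (k + 1) := by
  classical
  push Not at hnot
  have hex : ∃ j, j < n ∧ W j < s (j + 1) := hnot
  refine ⟨Nat.find hex, (Nat.find_spec hex).1, ?_, (Nat.find_spec hex).2.le⟩
  rcases Nat.eq_zero_or_pos (Nat.find hex) with h0 | hpos
  · rw [h0, hs.2.1]
    exact haW
  · obtain ⟨m, hm⟩ : ∃ m, Nat.find hex = m + 1 := ⟨Nat.find hex - 1, by omega⟩
    have hlt : m < Nat.find hex := by omega
    have := Nat.find_min hex hlt
    push Not at this
    have h3 := this (by have := (Nat.find_spec hex).1; omega)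
    rw [hm]
    exact h3.trans (hW m)

/-- A path which does not stay to the right of the boundary `W` crosses it. -/
lemma exists_cross_right {n : ℕ} {a b : ℝ} {s W : ℕ → ℝ} (hs : IsUpPath n a b s)
    (hW : ∀ j, W j ≤ W (j + 1)) (hWb : ∀ j < n, W j ≤ b) (hnot : ¬ ∀ j < n, W j ≤ s j) :
    ∃ k < n, s k ≤ W k ∧ W k ≤ s (k + 1) := by
  classical
  push Not at hnot
  obtain ⟨j0, hj0, hj0'⟩ := hnot
  -- take the largest such index
  have hex : ∃ m, n - 1 - m < n ∧ s (n - 1 - m) < W (n - 1 - m) :=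
    ⟨n - 1 - j0, by omega, by
      have : n - 1 - (n - 1 - j0) = j0 := by omega
      rw [this]; exact hj0'⟩
  have hsp := Nat.find_spec hex
  set m := Nat.find hex with hm
  refine ⟨n - 1 - m, hsp.1, hsp.2.le, ?_⟩
  rcases Nat.eq_zero_or_pos m with h0 | hpos
  · rw [h0]
    have e : n - 1 - 0 + 1 = n := by omega
    rw [e, hs.2.2]
    exact hWb _ (by omega)
  · by_cases hmn : m ≤ n - 1
    · have hlt : m - 1 < Nat.find hex := by omega
      have := Nat.find_min hex hlt
      push Not at this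
      have h3 := this (by omega)
      have e : n - 1 - (m - 1) = n - 1 - m + 1 := by omega
      rw [e] at h3
      exact (hW _).trans h3
    · exfalso
      have e : n - 1 - m = n - 1 - (n - 1) := by omega
      have hlt : n - 1 < Nat.find hex := by omega
      have := Nat.find_min hex hlt
      apply this
      rw [← e]
      exact hsp

end Pool.Agent.Lib.MP_cd6101_pr
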