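import Mathlib
import Pool.Agent.Lib.MP_cd6101_pr.LPP

/-!
# Independent two-sided Brownian motions
-/

open Set Topology MeasureTheory ProbabilityTheory

namespace Pool.Agent.Lib.MP_cd6101_pr

section Law

variable {T Ω Ω' : Type*} {mΩ : MeasurableSpace Ω} {mΩ' : MeasurableSpace Ω'}
  {P : Measure Ω} {P' : Measure Ω'}

/-- Gaussian processes with the same mean and covariance have the same finite dimensional
distributions. -/
lemma gaussian_fdd_eq {X : T → Ω → ℝ} {Y : T → Ω' → ℝ} (hX : IsGaussianProcess X P)
    (hY : IsGaussianProcess Y P') (hmean : ∀ t, P[X t] = P'[Y t])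
    (hcov : ∀ s t, cov[X s, X t; P] = cov[Y s, Y t; P']) (I : Finset T) :
    P.map (fun ω => I.restrict (X · ω)) = P'.map (fun ω => I.restrict (Y · ω)) := by
  have mX : AEMeasurable (fun ω => I.restrict (X · ω)) P :=
    aemeasurable_pi_lambda _ fun _ => hX.aemeasurable _
  have mY : AEMeasurable (fun ω => I.restrict (Y · ω)) P' :=
    aemeasurable_pi_lambda _ fun _ => hY.aemeasurable _
  apply (MeasurableEquiv.toLp 2 (_ → ℝ)).map_measurableEquiv_injective
  rw [MeasurableEquiv.coe_toLp, ← PiLp.coe_symm_continuousLinearEquiv 2 ℝ]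
  have h1 := (hX.hasGaussianLaw I).isGaussian_map
  have h2 := (hY.hasGaussianLaw I).isGaussian_map
  apply IsGaussian.ext
  · rw [integral_map, integral_map, integral_map, integral_map]
    · simp only [id_eq]
      rw [ContinuousLinearEquiv.integral_comp_comm, ContinuousLinearEquiv.integral_comp_comm]
      congr 1
      ext i
      rw [eval_integral, eval_integral]
      · simpa using hmean i
      · exact fun _ => (hY.hasGaussianLaw_eval _).integrable
      · exact fun _ => (hX.hasGaussianLaw_eval _).integrable
    all_goals first | exact mX | exact mY | fun_prop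
  · rw [← ContinuousLinearMap.toBilinForm_inj]
    refine LinearMap.BilinForm.ext_of_isSymm isPosSemidef_covarianceBilin.isSymm
      isPosSemidef_covarianceBilin.isSymm fun x => ?_
    simp only [ContinuousLinearMap.toBilinForm_apply]
    rw [PiLp.coe_symm_continuousLinearEquiv, covarianceBilin_apply_pi, covarianceBilin_apply_pi]
    · congrm ∑ i, ∑ j, _ * ?_
      rw [covariance_map (measurable_pi_apply _).aestronglyMeasurable
          (measurable_pi_apply _).aestronglyMeasurable mX,
        covariance_map (measurable_pi_apply _).aestronglyMeasurable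
          (measurable_pi_apply _).aestronglyMeasurable mY]
      exact hcov i j
    · exact fun i => (h2.hasGaussianLaw_id.eval i).memLp_two
    · exact fun i => (h1.hasGaussianLaw_id.eval i).memLp_two

/-- Gaussian processes with the same mean and covariance have the same law. -/
lemma gaussian_law_eq {X : T → Ω → ℝ} {Y : T → Ω' → ℝ} (hX : IsGaussianProcess X P)
    (hY : IsGaussianProcess Y P') (mX : ∀ t, Measurable (X t)) (mY : ∀ t, Measurable (Y t))
    (hmean : ∀ t, P[X t] = P'[Y t])
    (hcov : ∀ s t, cov[X s, X t; P] = cov[Y s, Y t; P']) :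
    P.map (fun ω => (X · ω)) = P'.map (fun ω => (Y · ω)) := by
  have := hX.isProbabilityMeasure
  have := hY.isProbabilityMeasure
  have hX' := isProjectiveLimit_map (P := P) (X := X) (measurable_pi_lambda _ mX).aemeasurable
  have hY' := isProjectiveLimit_map (P := P') (X := Y) (measurable_pi_lambda _ mY).aemeasurable
  have e : (fun I : Finset T => P.map (fun ω ↦ I.restrict (X · ω))) =
      fun I : Finset T => P'.map (fun ω ↦ I.restrict (Y · ω)) :=
    funext fun I => gaussian_fdd_eq hX hY hmean hcov I
  rw [e] at hX'
  exact hX'.unique hY'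

end Law

namespace IsBrownianLines

variable {Ω Ω' : Type*} {mΩ : MeasurableSpace Ω} {mΩ' : MeasurableSpace Ω'}
  {P : Measure Ω} {P' : Measure Ω'} {B : ℕ → ℝ → Ω → ℝ} {B' : ℕ → ℝ → Ω' → ℝ}

lemma isProbabilityMeasure (hB : IsBrownianLines B P) : IsProbabilityMeasure P :=
  hB.gaussian.isProbabilityMeasure

lemma memLp (hB : IsBrownianLines B P) (k : ℕ) (t : ℝ) : MemLp (B k t) 2 P :=
  (hB.gaussian.hasGaussianLaw_eval (k, t)).memLp_two

lemma integrable (hB : IsBrownianLines B P) (k : ℕ) (t : ℝ) : Integrable (B k t) P :=
  (hB.gaussian.hasGaussianLaw_eval (k, t)).integrable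

/-- All sequences of independent two-sided Brownian motions have the same law. -/
lemma law_eq (hB : IsBrownianLines B P) (hB' : IsBrownianLines B' P') :
    P.map (fun ω (p : ℕ × ℝ) => B p.1 p.2 ω) = P'.map (fun ω (p : ℕ × ℝ) => B' p.1 p.2 ω) := by
  refine gaussian_law_eq (X := fun (p : ℕ × ℝ) ω => B p.1 p.2 ω)
    (Y := fun (p : ℕ × ℝ) ω => B' p.1 p.2 ω) hB.gaussian hB'.gaussian
    (fun p => hB.measurable _ _) (fun p => hB'.measurable _ _) (fun p => ?_) (fun p q => ?_)
  · rw [hB.mean, hB'.mean]
  · rw [hB.cov, hB'.cov]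

/-- The covariance of two increments. -/
lemma cov_incr (hB : IsBrownianLines B P) (k l : ℕ) (s s' t t' : ℝ) :
    cov[fun ω => B k s' ω - B k s ω, fun ω => B l t' ω - B l t ω; P] =
      if k = l then (|s' - t| + |s - t'| - |s' - t'| - |s - t|) / 2 else 0 := by
  have := hB.isProbabilityMeasure
  have e := covariance_fun_sub_fun_sub (μ := P) (hB.memLp k s') (hB.memLp k s)
    (hB.memLp l t') (hB.memLp l t)
  have e1 := hB.cov k l s' t'
  have e2 := hB.cov k l s' t
  have e3 := hB.cov k l s t'
  have e4 := hB.cov k l s t
  rw [e]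
  change cov[B k s', B l t'; P] - cov[B k s', B l t; P] - cov[B k s, B l t'; P] +
    cov[B k s, B l t; P] = _
  rw [e1, e2, e3, e4]
  split_ifs with h <;> ring

/-- Affine changes of time, together with the appropriate scaling (and possibly a sign and an
injective relabelling of the lines), preserve independent two-sided Brownian motions. -/
lemma transform (hB : IsBrownianLines B P) {σ : ℕ → ℕ} (hσ : Function.Injective σ)
    {α ε : ℝ} (β : ℝ) (hε : ε ^ 2 * |α| = 1) :
    IsBrownianLines (fun k t ω => ε * (B (σ k) (α * t + β) ω - B (σ k) β ω)) P := by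
  have := hB.isProbabilityMeasure
  refine ⟨fun k t => ?_, ?_, fun k t => ?_, fun k l s t => ?_, fun ω k => ?_⟩
  · exact ((hB.measurable _ _).sub (hB.measurable _ _)).const_mul _
  · refine hB.gaussian.of_isGaussianProcess fun p => ?_
    classical
    refine ⟨{(σ p.1, α * p.2 + β), (σ p.1, β)},
      { toFun x := ε * (x ⟨(σ p.1, α * p.2 + β), by simp⟩ - x ⟨(σ p.1, β), by simp⟩)
        map_add' x y := by simp; ring
        map_smul' c x := by simp; ring }, fun ω => by simp⟩
  · rw [integral_const_mul, integral_sub (hB.integrable _ _) (hB.integrable _ _), hB.mean,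
      hB.mean]
    simp
  · rw [covariance_const_mul_left, covariance_const_mul_right, hB.cov_incr]
    by_cases h : k = l
    · subst h
      simp only [if_true]
      have e1 : α * s + β - β = α * s := by ring
      have e2 : β - (α * t + β) = - (α * t) := by ring
      have e3 : α * s + β - (α * t + β) = α * (s - t) := by ring
      rw [e1, e2, e3, abs_neg, sub_self, abs_zero, abs_mul, abs_mul, abs_mul]
      have : ε * (ε * ((|α| * |s| + |α| * |t| - |α| * |s - t| - 0) / 2)) =
          (ε ^ 2 * |α|) * ((|s| + |t| - |s - t|) / 2) := by ring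
      rw [this, hε, one_mul]
    · rw [if_neg h, if_neg (fun h' => h (hσ h'))]
      ring
  · have := hB.cont ω (σ k)
    fun_prop

/-- Independence of the noise on the left and on the right of a boundary.  `L` and `R` are sets
of (line, time) pairs, `W` assigns to every line a reference time, and on every common line
the times in `L` are before `W` and the times in `R` are after `W`. -/
lemma indepFun_left_right (hB : IsBrownianLines B P) (W : ℕ → ℝ) (L R : Set (ℕ × ℝ))
    (hLR : ∀ p ∈ L, ∀ q ∈ R, p.1 = q.1 → p.2 ≤ W p.1 ∧ W p.1 ≤ q.2) :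
    IndepFun (fun ω (p : ℕ × ℝ) => L.indicator (fun p => B p.1 p.2 ω - B p.1 (W p.1) ω) p)
      (fun ω (p : ℕ × ℝ) => R.indicator (fun p => B p.1 p.2 ω - B p.1 (W p.1) ω) p) P := by
  have := hB.isProbabilityMeasure
  classical
  have hm : ∀ (A : Set (ℕ × ℝ)) (p : ℕ × ℝ),
      Measurable fun ω => A.indicator (fun p => B p.1 p.2 ω - B p.1 (W p.1) ω) p := by
    intro A p
    by_cases hp : p ∈ A
    · simp only [Set.indicator_of_mem hp]
      exact (hB.measurable _ _).sub (hB.measurable _ _)
    · simp only [Set.indicator_of_notMem hp]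
      exact measurable_const
  refine IsGaussianProcess.indepFun_of_covariance_eq_zero
    (X := fun p ω => L.indicator (fun p => B p.1 p.2 ω - B p.1 (W p.1) ω) p)
    (Y := fun p ω => R.indicator (fun p => B p.1 p.2 ω - B p.1 (W p.1) ω) p)
    ?_ (fun p => (hm L p).aemeasurable) (fun p => (hm R p).aemeasurable) (fun p q => ?_)
  · refine hB.gaussian.of_isGaussianProcess fun p => ?_
    have key : ∀ (A : Set (ℕ × ℝ)) (p : ℕ × ℝ), ∃ I : Finset (ℕ × ℝ),
        ∃ M : (I → ℝ) →L[ℝ] ℝ, ∀ ω, A.indicator (fun p => B p.1 p.2 ω - B p.1 (W p.1) ω) p =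
          M (I.restrict (fun p => B p.1 p.2 ω)) := by
      intro A p
      by_cases hp : p ∈ A
      · refine ⟨{p, (p.1, W p.1)},
          { toFun x := x ⟨p, by simp⟩ - x ⟨(p.1, W p.1), by simp⟩
            map_add' x y := by simp; ring
            map_smul' c x := by simp; ring }, fun ω => by simp [Set.indicator_of_mem hp]⟩
      · exact ⟨∅, 0, fun ω => by simp [Set.indicator_of_notMem hp]⟩
    rcases p with p | p
    · exact key L p
    · exact key R p
  · by_cases hp : p ∈ L
    · by_cases hq : q ∈ R
      · simp only [Set.indicator_of_mem hp, Set.indicator_of_mem hq]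
        rw [hB.cov_incr]
        split_ifs with h
        · obtain ⟨h1, h2⟩ := hLR p hp q hq h
          rw [← h]
          have a1 : |p.2 - W p.1| = W p.1 - p.2 := by rw [abs_sub_comm, abs_of_nonneg]; linarith
          have a2 : |W p.1 - q.2| = q.2 - W p.1 := by rw [abs_sub_comm, abs_of_nonneg]; linarith
          have a3 : |p.2 - q.2| = q.2 - p.2 := by rw [abs_sub_comm, abs_of_nonneg]; linarith
          rw [a1, a2, a3]
          simp
        · rfl
      · simp only [Set.indicator_of_notMem hq]
        exact covariance_const_right _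
    · simp only [Set.indicator_of_notMem hp]
      exact covariance_const_left _

end IsBrownianLines

end Pool.Agent.Lib.MP_cd6101_pr
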