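import Mathlib
import Pool.Agent.Lib.MP_cd6101_pr.Brownian

/-!
# Brownian last passage percolation: laws, independence and a maximal inequality
-/

open Set Topology MeasureTheory ProbabilityTheory

namespace Pool.Agent.Lib.MP_cd6101_pr

/-! ### Measurability -/

lemma measurable_pathEnergy (k n : ℕ) (s : ℕ → ℝ) :
    Measurable fun z : ℕ × ℝ → ℝ => pathEnergy (fun j t => z (j, t)) k n s := by
  unfold pathEnergy
  refine Finset.measurable_fun_sum _ fun j _ => ?_
  exact (measurable_pi_apply _).sub (measurable_pi_apply _)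

lemma measurable_lppQ (k n : ℕ) (a b : ℝ) :
    Measurable fun z : ℕ × ℝ → ℝ => lppQ (fun j t => z (j, t)) k n a b := by
  unfold lppQ
  exact Measurable.iSup fun q => measurable_pathEnergy k n _

/-- The environment restricted to a set `A` of (line, time) pairs and recentred at the reference
times `W`. -/
noncomputable def maskEnv (A : Set (ℕ × ℝ)) (W : ℕ → ℝ) (z : ℕ → ℝ → ℝ) : ℕ × ℝ → ℝ :=
  fun p => A.indicator (fun p => z p.1 p.2 - z p.1 (W p.1)) p

lemma pathEnergy_mask {A : Set (ℕ × ℝ)} {W : ℕ → ℝ} {z : ℕ → ℝ → ℝ} {k n : ℕ} {s : ℕ → ℝ}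
    (h : ∀ j < n, (k + j, s j) ∈ A ∧ (k + j, s (j + 1)) ∈ A) :
    pathEnergy (fun j t => maskEnv A W z (j, t)) k n s = pathEnergy z k n s := by
  unfold pathEnergy
  refine Finset.sum_congr rfl fun j hj => ?_
  rw [Finset.mem_range] at hj
  obtain ⟨h1, h2⟩ := h j hj
  simp only [maskEnv, Set.indicator_of_mem h1, Set.indicator_of_mem h2]
  ring

lemma lppQ_mask {A : Set (ℕ × ℝ)} {W : ℕ → ℝ} {z : ℕ → ℝ → ℝ} {k n : ℕ} {a b : ℝ} (hab : a ≤ b)
    (h : ∀ j < n, ∀ t ∈ Icc a b, (k + j, t) ∈ A) :
    lppQ (fun j t => maskEnv A W z (j, t)) k n a b = lppQ z k n a b := by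
  unfold lppQ
  congr 1
  ext q
  exact pathEnergy_mask fun j hj => ⟨h j hj _ (clampPath_mem hab _ _),
    h j hj _ (clampPath_mem hab _ _)⟩

/-- Left and right masked environments are independent. -/
lemma IsBrownianLines.indep_mask {Ω : Type*} {mΩ : MeasurableSpace Ω} {P : Measure Ω}
    {B : ℕ → ℝ → Ω → ℝ} (hB : IsBrownianLines B P) (W : ℕ → ℝ) (L R : Set (ℕ × ℝ))
    (hLR : ∀ p ∈ L, ∀ q ∈ R, p.1 = q.1 → p.2 ≤ W p.1 ∧ W p.1 ≤ q.2) :
    IndepFun (fun ω => maskEnv L W (fun j t => B j t ω))
      (fun ω => maskEnv R W (fun j t => B j t ω)) P :=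
  hB.indepFun_left_right W L R hLR

section

variable {Ω Ω' : Type*} {mΩ : MeasurableSpace Ω} {mΩ' : MeasurableSpace Ω'}
  {P : Measure Ω} {P' : Measure Ω'} {B : ℕ → ℝ → Ω → ℝ} {B' : ℕ → ℝ → Ω' → ℝ}

lemma IsBrownianLines.measurable_process (hB : IsBrownianLines B P) :
    Measurable fun ω (p : ℕ × ℝ) => B p.1 p.2 ω :=
  measurable_pi_lambda _ fun _ => hB.measurable _ _

lemma IsBrownianLines.lpp_eq (hB : IsBrownianLines B P) {k n : ℕ} (hn : 1 ≤ n) {a b : ℝ}
    (hab : a ≤ b) (ω : Ω) :
    lpp (fun j t => B j t ω) k n a b =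
      (fun z : ℕ × ℝ → ℝ => lppQ (fun j t => z (j, t)) k n a b) (fun p => B p.1 p.2 ω) :=
  lpp_eq_lppQ (hB.cont ω) hn hab

lemma IsBrownianLines.measurable_lpp (hB : IsBrownianLines B P) {k n : ℕ} (hn : 1 ≤ n)
    {a b : ℝ} (hab : a ≤ b) : Measurable fun ω => lpp (fun j t => B j t ω) k n a b := by
  have : (fun ω => lpp (fun j t => B j t ω) k n a b) =
      (fun z : ℕ × ℝ → ℝ => lppQ (fun j t => z (j, t)) k n a b) ∘
        (fun ω (p : ℕ × ℝ) => B p.1 p.2 ω) := by
    ext ω
    exact hB.lpp_eq hn hab ω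
  rw [this]
  exact (measurable_lppQ k n a b).comp hB.measurable_process

/-- Any measurable functional of Brownian lines has the same law for all Brownian lines. -/
lemma IsBrownianLines.identDistrib {E : Type*} [MeasurableSpace E] (hB : IsBrownianLines B P)
    (hB' : IsBrownianLines B' P') {Φ : (ℕ × ℝ → ℝ) → E} (hΦ : Measurable Φ) :
    IdentDistrib (fun ω => Φ (fun p => B p.1 p.2 ω)) (fun ω => Φ (fun p => B' p.1 p.2 ω)) P P' := by
  have h : IdentDistrib (fun ω (p : ℕ × ℝ) => B p.1 p.2 ω) (fun ω (p : ℕ × ℝ) => B' p.1 p.2 ω)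
      P P' := ⟨hB.measurable_process.aemeasurable, hB'.measurable_process.aemeasurable,
        hB.law_eq hB'⟩
  exact h.comp hΦ

lemma IsBrownianLines.identDistrib_lpp (hB : IsBrownianLines B P)
    (hB' : IsBrownianLines B' P') {k n : ℕ} (hn : 1 ≤ n) {a b : ℝ} (hab : a ≤ b) :
    IdentDistrib (fun ω => lpp (fun j t => B j t ω) k n a b)
      (fun ω => lpp (fun j t => B' j t ω) k n a b) P P' := by
  have := hB.identDistrib hB' (measurable_lppQ k n a b)
  simp only [← hB.lpp_eq hn hab, ← hB'.lpp_eq hn hab] at this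
  exact this

/-- Affine covariance of Brownian last passage values, pathwise. -/
lemma lpp_affine_path (z : ℕ → ℝ → ℝ) (k n : ℕ) (a b : ℝ) {α : ℝ} (β : ℝ) (hα : 0 < α) :
    lpp (fun j t => (√α)⁻¹ * (z (k + j) (α * t + β) - z (k + j) β)) 0 n a b =
      (√α)⁻¹ * lpp z k n (α * a + β) (α * b + β) := by
  have h := lpp_affine (fun j => z (k + j)) 0 n a b β hα (γ := (√α)⁻¹) (by positivity)
    (fun j => z (k + j) β)
  rw [h, lpp_line_shift, add_zero]

lemma sq_inv_sqrt_mul_abs {α : ℝ} (hα : 0 < α) : ((√α)⁻¹) ^ 2 * |α| = 1 := by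
  rw [abs_of_pos hα, inv_pow, Real.sq_sqrt hα.le, inv_mul_cancel₀ hα.ne']

lemma IsBrownianLines.affine (hB : IsBrownianLines B P) (k : ℕ) {α : ℝ} (β : ℝ) (hα : 0 < α) :
    IsBrownianLines (fun j t ω => (√α)⁻¹ * (B (k + j) (α * t + β) ω - B (k + j) β ω)) P :=
  hB.transform (σ := fun j => k + j) (fun i j h => by simpa using h) β (sq_inv_sqrt_mul_abs hα)

/-- Scaling of the one-point law. -/
lemma IsBrownianLines.identDistrib_scale (hB : IsBrownianLines B P) (k : ℕ) {n : ℕ}
    (hn : 1 ≤ n) {a b : ℝ} (hab : a < b) :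
    IdentDistrib (fun ω => lpp (fun j t => B j t ω) k n a b)
      (fun ω => √(b - a) * lpp (fun j t => B j t ω) 0 n 0 1) P P := by
  have hα : 0 < b - a := sub_pos.2 hab
  have h1 := (hB.affine k a hα).identDistrib_lpp hB (k := 0) hn (zero_le_one' ℝ)
  have h2 : ∀ ω, lpp (fun j t => (√(b - a))⁻¹ * (B (k + j) ((b - a) * t + a) ω - B (k + j) a ω))
      0 n 0 1 = (√(b - a))⁻¹ * lpp (fun j t => B j t ω) k n a b := by
    intro ω
    rw [lpp_affine_path (fun j t => B j t ω) k n 0 1 a hα]
    congr 2 <;> ring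
  simp only [h2] at h1
  have h3 := h1.comp (u := fun x => √(b - a) * x) (measurable_const_mul _)
  have h4 : (fun x => √(b - a) * x) ∘ (fun ω => (√(b - a))⁻¹ * lpp (fun j t => B j t ω) k n a b) =
      fun ω => lpp (fun j t => B j t ω) k n a b := by
    ext ω
    have : √(b - a) ≠ 0 := (Real.sqrt_pos.2 hα).ne'
    simp only [Function.comp]
    field_simp
  rw [h4] at h3
  exact h3

/-- **Maximal inequality.**  If from each point `(W k, k)`, `k < N`, the passage value to the far
endpoint `(e, N' - 1)` exceeds `ρ k` with probability at least `1/2`, then the probability that one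
of the passage values from `(a, 0)` to `(W k, k)` exceeds its threshold `θ k` is at most twice the
probability that the passage value from `(a, 0)` to the far endpoint exceeds `c ≤ θ k + ρ k`. -/
lemma IsBrownianLines.max_ineq (hB : IsBrownianLines B P) {N N' : ℕ} (hN : N ≤ N') (a e c : ℝ)
    (W θ ρ : ℕ → ℝ) (hWe : ∀ k < N, a ≤ W k → W k ≤ e)
    (hR : ∀ k < N, a ≤ W k →
      1 / 2 ≤ P {ω | ρ k < lpp (fun j t => B j t ω) k (N' - k) (W k) e})
    (hsum : ∀ k < N, a ≤ W k → c ≤ θ k + ρ k) :
    P {ω | ∃ k < N, a ≤ W k ∧ θ k < lpp (fun j t => B j t ω) 0 (k + 1) a (W k)} ≤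
      2 * P {ω | c < lpp (fun j t => B j t ω) 0 N' a e} := by
  classical
  have := hB.isProbabilityMeasure
  set G : ℕ → ℕ → ℝ → ℝ → Ω → ℝ := fun k n a b ω => lpp (fun j t => B j t ω) k n a b with hG
  set K : ℕ → Set Ω := fun k => {ω | (a ≤ W k ∧ θ k < G 0 (k + 1) a (W k) ω) ∧
    ∀ j < k, ¬ (a ≤ W j ∧ θ j < G 0 (j + 1) a (W j) ω)} with hK
  set R : ℕ → Set Ω := fun k => {ω | ρ k < G k (N' - k) (W k) e ω} with hRdef
  -- the first exceedance decomposition
  have hcover : {ω | ∃ k < N, a ≤ W k ∧ θ k < G 0 (k + 1) a (W k) ω} ⊆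
      ⋃ k ∈ Finset.range N, K k := by
    intro ω hω
    have hex : ∃ k, k < N ∧ a ≤ W k ∧ θ k < G 0 (k + 1) a (W k) ω := hω
    simp only [Set.mem_iUnion, Finset.mem_range, exists_prop]
    refine ⟨Nat.find hex, (Nat.find_spec hex).1, (Nat.find_spec hex).2, fun j hj hcon => ?_⟩
    exact Nat.find_min hex hj ⟨hj.trans (Nat.find_spec hex).1, hcon⟩
  -- measurability and independence
  have hmeasG : ∀ k, a ≤ W k → Measurable (G 0 (k + 1) a (W k)) := fun k hk =>
    hB.measurable_lpp (by omega) hk
  have hindep : ∀ k < N, P (K k ∩ R k) = P (K k) * P (R k) := by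
    intro k hk
    by_cases hak : a ≤ W k
    · set L : Set (ℕ × ℝ) := {p | p.1 < k ∨ (p.1 = k ∧ p.2 ≤ W k)} with hL
      set Rt : Set (ℕ × ℝ) := {p | k < p.1 ∨ (p.1 = k ∧ W k ≤ p.2)} with hRt
      have hind := hB.indep_mask (fun _ => W k) L Rt (by
        rintro ⟨i, t⟩ hp ⟨j, s⟩ hq (rfl : i = j)
        simp only [hL, hRt, Set.mem_ofPred_eq] at hp hq
        rcases hp with hp | hp <;> rcases hq with hq | hq
        · omega
        · omega
        · omega
        · exact ⟨hp.2, hq.2⟩)
      set S : Set (ℕ × ℝ → ℝ) := {z | θ k < lppQ (fun j t => z (j, t)) 0 (k + 1) a (W k)} ∩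
        ⋂ j ∈ Finset.range k, {z | ¬ (a ≤ W j ∧
          θ j < lppQ (fun j t => z (j, t)) 0 (j + 1) a (W j))} with hS
      set T : Set (ℕ × ℝ → ℝ) := {z | ρ k < lppQ (fun j t => z (j, t)) k (N' - k) (W k) e}
        with hT
      have hSm : MeasurableSet S := by
        refine (measurableSet_lt measurable_const (measurable_lppQ _ _ _ _)).inter ?_
        refine Finset.measurableSet_biInter _ fun j _ => ?_
        by_cases hj : a ≤ W j
        · simp only [hj, true_and, not_lt]
          exact measurableSet_le (measurable_lppQ _ _ _ _) measurable_const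
        · simp [hj]
      have hTm : MeasurableSet T := measurableSet_lt measurable_const (measurable_lppQ _ _ _ _)
      have hKS : K k = (fun ω => maskEnv L (fun _ => W k) (fun j t => B j t ω)) ⁻¹' S := by
        ext ω
        have key : ∀ j ≤ k, a ≤ W j →
            lppQ (fun i t => maskEnv L (fun _ => W k) (fun j t => B j t ω) (i, t)) 0 (j + 1) a
              (W j) = G 0 (j + 1) a (W j) ω := by
          intro j hj haj
          rw [lppQ_mask haj, hG]
          · exact (lpp_eq_lppQ (hB.cont ω) (by omega) haj).symm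
          · intro i hi t ht
            simp only [hL, Set.mem_ofPred_eq, zero_add]
            by_cases hik : i < k
            · exact Or.inl hik
            · have hik' : i = k := by omega
              have hjk : j = k := by omega
              subst hjk
              exact Or.inr ⟨hik', ht.2⟩
        simp only [hK, hS, Set.mem_ofPred_eq, Set.mem_preimage, Set.mem_inter_iff,
          Set.mem_iInter, Finset.mem_range]
        rw [key k le_rfl hak]
        constructor
        · rintro ⟨⟨_, h1⟩, h2⟩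
          refine ⟨h1, fun j hj => ?_⟩
          rintro ⟨h3, h4⟩
          rw [key j hj.le h3] at h4
          exact h2 j hj ⟨h3, h4⟩
        · rintro ⟨h1, h2⟩
          refine ⟨⟨hak, h1⟩, fun j hj => ?_⟩
          rintro ⟨h3, h4⟩
          rw [← key j hj.le h3] at h4
          exact h2 j hj ⟨h3, h4⟩
      have hRT : R k = (fun ω => maskEnv Rt (fun _ => W k) (fun j t => B j t ω)) ⁻¹' T := by
        ext ω
        have key : lppQ (fun i t => maskEnv Rt (fun _ => W k) (fun j t => B j t ω) (i, t)) k
            (N' - k) (W k) e = G k (N' - k) (W k) e ω := by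
          rw [lppQ_mask (hWe k hk hak), hG]
          · exact (lpp_eq_lppQ (hB.cont ω) (by omega) (hWe k hk hak)).symm
          · intro i hi t ht
            simp only [hRt, Set.mem_ofPred_eq]
            rcases Nat.eq_zero_or_pos i with h0 | h0
            · exact Or.inr ⟨by omega, ht.1⟩
            · exact Or.inl (by omega)
        simp only [hRdef, hT, Set.mem_ofPred_eq, Set.mem_preimage]
        rw [key]
      rw [hKS, hRT]
      exact hind.measure_inter_preimage_eq_mul _ _ hSm hTm
    · have : K k = ∅ := by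
        ext ω
        simp [hK, hak]
      rw [this]
      simp
  have hmeasK : ∀ k, MeasurableSet (K k) := by
    intro k
    have h1 : ∀ j, MeasurableSet {ω | a ≤ W j ∧ θ j < G 0 (j + 1) a (W j) ω} := by
      intro j
      by_cases hj : a ≤ W j
      · simp only [hj, true_and]
        exact measurableSet_lt measurable_const (hmeasG j hj)
      · simp only [hj, false_and, Set.ofPred_false, MeasurableSet.empty]
    have : K k = {ω | a ≤ W k ∧ θ k < G 0 (k + 1) a (W k) ω} ∩
        ⋂ j ∈ Finset.range k, {ω | a ≤ W j ∧ θ j < G 0 (j + 1) a (W j) ω}ᶜ := by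
      ext ω
      simp [hK]
    rw [this]
    exact (h1 k).inter (Finset.measurableSet_biInter _ fun j _ => (h1 j).compl)
  have hmeasR : ∀ k < N, a ≤ W k → MeasurableSet (R k) := fun k hk hak =>
    measurableSet_lt measurable_const (hB.measurable_lpp (by omega) (hWe k hk hak))
  have hdisj : ∀ i j, i ≠ j → Disjoint (K i) (K j) := by
    have h0 : ∀ i j, i < j → Disjoint (K i) (K j) := by
      intro i j hij
      rw [Set.disjoint_left]
      intro ω hi hj
      exact hj.2 i hij hi.1
    intro i j hij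
    rcases lt_or_gt_of_ne hij with h | h
    · exact h0 i j h
    · exact (h0 j i h).symm
  have hKe : ∀ k, ¬ a ≤ W k → K k = ∅ := by
    intro k hk
    ext ω
    simp [hK, hk]
  calc P {ω | ∃ k < N, a ≤ W k ∧ θ k < G 0 (k + 1) a (W k) ω}
      ≤ P (⋃ k ∈ Finset.range N, K k) := measure_mono hcover
    _ ≤ ∑ k ∈ Finset.range N, P (K k) := measure_biUnion_finset_le _ _
    _ ≤ ∑ k ∈ Finset.range N, 2 * P (K k ∩ R k) := by
        refine Finset.sum_le_sum fun k hk => ?_
        rw [Finset.mem_range] at hk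
        by_cases hak : a ≤ W k
        · rw [hindep k hk]
          have h1 := hR k hk hak
          calc P (K k) = 2 * (P (K k) * (1 / 2)) := by
                rw [mul_comm (P (K k)), ← mul_assoc]
                have : (2 : ENNReal) * (1 / 2) = 1 := by
                  rw [one_div]
                  exact ENNReal.mul_inv_cancel (by norm_num) (by norm_num)
                rw [this, one_mul]
            _ ≤ 2 * (P (K k) * P (R k)) := by
                gcongr
        · rw [hKe k hak]
          simp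
    _ = 2 * ∑ k ∈ Finset.range N, P (K k ∩ R k) := by rw [Finset.mul_sum]
    _ = 2 * P (⋃ k ∈ Finset.range N, (K k ∩ R k)) := by
        rw [measure_biUnion_finset]
        · intro i _ j _ hij
          exact (hdisj i j hij).mono Set.inter_subset_left Set.inter_subset_left
        · intro k hk
          rw [Finset.mem_range] at hk
          by_cases hak : a ≤ W k
          · exact (hmeasK k).inter (hmeasR k hk hak)
          · rw [hKe k hak]
            simp
    _ ≤ 2 * P {ω | c < G 0 N' a e ω} := by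
        gcongr
        intro ω hω
        simp only [Set.mem_iUnion, Finset.mem_range, exists_prop] at hω
        obtain ⟨k, hk, hKk, hRk⟩ := hω
        have h1 : θ k < G 0 (k + 1) a (W k) ω := hKk.1.2
        have h2 : ρ k < G k (N' - k) (W k) e ω := hRk
        have h3 := lpp_superadd (z := fun j t => B j t ω) (hB.cont ω) 0 (k := k) (n := N')
          (by omega) hKk.1.1 (hWe k hk hKk.1.1)
        have h4 := hsum k hk hKk.1.1
        simp only [zero_add] at h3
        simp only [Set.mem_ofPred_eq, hG]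
        simp only [hG] at h1 h2
        linarith

end

end Pool.Agent.Lib.MP_cd6101_pr
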