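import Mathlib
import Pool.Agent.Lib.MP_cd6101_pr.BLPP

/-!
# Exit estimates for Brownian last passage percolation

Throughout `ν > 0` with `ν ^ 6 = N`, so that `√N = ν ^ 3`, `N ^ (1/3) = ν ^ 2`.
-/

open Set Topology MeasureTheory ProbabilityTheory

namespace Pool.Agent.Lib.MP_cd6101_pr

/-- The rescaled one-point passage value across `n` lines in unit time. -/
noncomputable def onePt (z : ℕ → ℝ → ℝ) (n : ℕ) : ℝ :=
  (n : ℝ) ^ ((1 : ℝ) / 6) * (lpp z 0 n 0 1 - 2 * √n)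

/-- The boundary line at spatial position `w`. -/
noncomputable def bdry (N : ℕ) (ν w : ℝ) (k : ℕ) : ℝ := (k + 1 / 2) / N + 2 * w / ν ^ 2

section

variable {Ω : Type*} {mΩ : MeasurableSpace Ω} {P : Measure Ω} {B : ℕ → ℝ → Ω → ℝ}

lemma rpow_sixth_pow (n : ℕ) : ((n : ℝ) ^ ((1 : ℝ) / 6)) ^ 6 = n := by
  rw [← Real.rpow_natCast, ← Real.rpow_mul (Nat.cast_nonneg n)]
  norm_num

lemma sqrt_eq_cube {n : ℕ} {ν : ℝ} (hν : 0 < ν) (h : ν ^ 6 = n) : √(n : ℝ) = ν ^ 3 := by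
  rw [← h, show ν ^ 6 = (ν ^ 3) ^ 2 by ring]
  exact Real.sqrt_sq (by positivity)

lemma sqrt_one_add_le {u : ℝ} (hu : -1 / 4 ≤ u) (hu' : u ≤ 1 / 4) :
    √(1 + u) ≤ 1 + u / 2 - u ^ 2 / 8 + u ^ 3 / 16 := by
  apply Real.sqrt_le_iff.2
  constructor
  · nlinarith [sq_nonneg u, sq_nonneg (u - 1 / 4), sq_nonneg (u + 1 / 4),
      mul_nonneg (sq_nonneg u) (by linarith : (0 : ℝ) ≤ u + 1 / 4)]
  · have : (1 + u / 2 - u ^ 2 / 8 + u ^ 3 / 16) ^ 2 - (1 + u) =
        u ^ 4 / 256 * ((u - 2) ^ 2 + 16) := by ring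
    have h2 : 0 ≤ u ^ 4 / 256 * ((u - 2) ^ 2 + 16) := by positivity
    linarith

/-- Lower bound for a scaled passage value given a lower bound of the one-point value. -/
lemma scaled_lower {N n : ℕ} {ν ν' M0 G : ℝ} (hν : 0 < ν) (hν' : 0 < ν')
    (hN : ν ^ 6 = N) (hn : ν' ^ 6 = n) (hN1 : 1 ≤ N) (hNn : N ≤ n) (hn2 : n ≤ 2 * N)
    (hM0 : 0 < M0) (hG : -M0 ≤ ν' * (G - 2 * ν' ^ 3)) :
    2 * ν ^ 3 * ((n - 1 / 2) / N) - 2 * M0 / ν < √((n - 1 / 2) / N) * G := by
  have hNpos : (0 : ℝ) < N := by exact_mod_cast hN1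
  have hn1 : (1 : ℝ) ≤ n := by exact_mod_cast hN1.trans hNn
  have hr0 : 0 < √(((n : ℝ) - 1 / 2) / N) := by
    apply Real.sqrt_pos.2
    apply div_pos _ hNpos
    linarith
  set r := √(((n : ℝ) - 1 / 2) / N) with hr
  have hr2 : r ^ 2 = ((n : ℝ) - 1 / 2) / N := Real.sq_sqrt (by
    apply div_nonneg _ hNpos.le; linarith)
  have hG' : 2 * ν' ^ 3 - M0 / ν' ≤ G := by
    have : -M0 / ν' ≤ G - 2 * ν' ^ 3 := by
      rw [div_le_iff₀ hν']
      linarith
    rw [neg_div] at this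
    linarith
  -- `r ≤ ν'^3 / ν^3`
  have hrle : r ≤ ν' ^ 3 / ν ^ 3 := by
    apply Real.sqrt_le_iff.2
    refine ⟨by positivity, ?_⟩
    rw [div_pow, ← pow_mul, ← pow_mul, show 3 * 2 = 6 by norm_num, hn, hN]
    gcongr
    linarith
  -- `r * ν'^3 ≥ (n - 1/2) / ν^3`
  have hrge : ((n : ℝ) - 1 / 2) / ν ^ 3 ≤ r * ν' ^ 3 := by
    have h1 : ((n : ℝ) - 1 / 2) / ν ^ 3 = r ^ 2 * ν ^ 3 := by
      rw [hr2, ← hN]
      field_simp
    rw [h1]
    have h2 : r * ν ^ 3 ≤ ν' ^ 3 := by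
      have := mul_le_mul_of_nonneg_right hrle (by positivity : (0 : ℝ) ≤ ν ^ 3)
      rwa [div_mul_cancel₀ _ (by positivity)] at this
    nlinarith
  -- `ν'^2 < 2 ν^2`
  have hνν : ν' ^ 2 < 2 * ν ^ 2 := by
    by_contra hcon
    push Not at hcon
    have h1 : (2 * ν ^ 2) ^ 3 ≤ (ν' ^ 2) ^ 3 := pow_le_pow_left₀ (by positivity) hcon 3
    have h2 : (2 * ν ^ 2) ^ 3 = 8 * N := by rw [← hN]; ring
    have h3 : (ν' ^ 2) ^ 3 = n := by rw [← hn]; ring
    rw [h2, h3] at h1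
    have h4 : (n : ℝ) ≤ 2 * N := by exact_mod_cast hn2
    linarith
  have h5 : r * (M0 / ν') < 2 * M0 / ν := by
    calc r * (M0 / ν') ≤ ν' ^ 3 / ν ^ 3 * (M0 / ν') := by gcongr
      _ = ν' ^ 2 * (M0 / ν ^ 3) := by field_simp
      _ < 2 * ν ^ 2 * (M0 / ν ^ 3) := by gcongr
      _ = 2 * M0 / ν := by field_simp
  have h6 : 2 * ν ^ 3 * (((n : ℝ) - 1 / 2) / N) = 2 * (((n : ℝ) - 1 / 2) / ν ^ 3) := by
    rw [← hN]
    field_simp
  rw [h6]
  have h7 : r * (2 * ν' ^ 3 - M0 / ν') ≤ r * G := by gcongr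
  nlinarith

/-- Half of the exit estimate: paths from `(0, 0)` reaching the boundary line. -/
lemma IsBrownianLines.exit_half (hB : IsBrownianLines B P) {N : ℕ} (hN1 : 1 ≤ N) {ν w m M0 : ℝ}
    (hν : 0 < ν) (hN : ν ^ 6 = N) (hM0 : 0 < M0)
    (hlow : ∀ n, N ≤ n → n ≤ 2 * N → 1 / 2 ≤ P {ω | -M0 ≤ onePt (fun j t => B j t ω) n})
    (hw : |w| ≤ ν ^ 2 / 4) (hw3 : |w| ^ 3 ≤ 4 * ν ^ 2) (hc : 0 ≤ w ^ 2 / 2 - 1 - m - 2 * M0) :
    P {ω | ∃ k < N, 0 ≤ bdry N ν w k ∧
      2 * ν ^ 3 * ((k + 1 / 2) / N) + 2 * w * ν - m / ν <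
        lpp (fun j t => B j t ω) 0 (k + 1) 0 (bdry N ν w k)} ≤
      2 * P {ω | (w ^ 2 / 2 - 1 - m - 2 * M0) / 2 < onePt (fun j t => B j t ω) (2 * N)} := by
  have hNpos : (0 : ℝ) < N := by exact_mod_cast hN1
  have hν2 : 0 < ν ^ 2 := by positivity
  set u : ℝ := w / ν ^ 2 with hu
  have hu1 : -1 / 4 ≤ u := by
    rw [hu, le_div_iff₀ hν2]
    have := (abs_le.1 hw).1
    linarith
  have hu2 : u ≤ 1 / 4 := by
    rw [hu, div_le_iff₀ hν2]
    have := (abs_le.1 hw).2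
    linarith
  set e : ℝ := 2 + 2 * w / ν ^ 2 with he
  have he' : e = 2 * (1 + u) := by rw [he, hu]; ring
  have key := hB.max_ineq (N := N) (N' := 2 * N) (by omega) 0 e
    (4 * ν ^ 3 + 2 * w * ν - (m + 2 * M0) / ν) (bdry N ν w)
    (fun k => 2 * ν ^ 3 * ((k + 1 / 2) / N) + 2 * w * ν - m / ν)
    (fun k => 2 * ν ^ 3 * (2 - (k + 1 / 2) / N) - 2 * M0 / ν)
    (fun k hk _ => ?_) (fun k hk h0 => ?_) (fun k hk h0 => ?_)
  · refine key.trans ?_
    gcongr 2 * ?_
    have hid := hB.identDistrib_scale 0 (n := 2 * N) (by omega) (a := 0) (b := e)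
      (by rw [he']; linarith)
    have hms : MeasurableSet {x : ℝ | 4 * ν ^ 3 + 2 * w * ν - (m + 2 * M0) / ν < x} :=
      measurableSet_lt measurable_const measurable_id
    have h1 := hid.measure_mem_eq hms
    have h2 : P {ω | 4 * ν ^ 3 + 2 * w * ν - (m + 2 * M0) / ν <
        lpp (fun j t => B j t ω) 0 (2 * N) 0 e} =
        P {ω | 4 * ν ^ 3 + 2 * w * ν - (m + 2 * M0) / ν <
          √(e - 0) * lpp (fun j t => B j t ω) 0 (2 * N) 0 1} := h1
    rw [h2]
    apply measure_mono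
    intro ω hω
    simp only [Set.mem_ofPred_eq] at hω ⊢
    set G := lpp (fun j t => B j t ω) 0 (2 * N) 0 1 with hG
    set ν2 : ℝ := ((2 * N : ℕ) : ℝ) ^ ((1 : ℝ) / 6) with hν2def
    have hν2pos : 0 < ν2 := by
      apply Real.rpow_pos_of_pos
      push_cast
      linarith
    have hν26 : ν2 ^ 6 = ((2 * N : ℕ) : ℝ) := rpow_sixth_pow (2 * N)
    have hsq : √((2 * N : ℕ) : ℝ) = ν2 ^ 3 := sqrt_eq_cube hν2pos hν26
    have hone : onePt (fun j t => B j t ω) (2 * N) = ν2 * (G - 2 * ν2 ^ 3) := by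
      unfold onePt
      rw [hsq]
    rw [hone]
    set X := ν2 * (G - 2 * ν2 ^ 3) with hX
    have hGX : G = 2 * ν2 ^ 3 + X / ν2 := by
      rw [hX]
      field_simp
      ring
    -- `√e * ν2^3 = 2 ν^3 √(1+u)`
    have hs : √(e - 0) * ν2 ^ 3 = 2 * ν ^ 3 * √(1 + u) := by
      have h3 : ν2 ^ 3 = √2 * ν ^ 3 := by
        rw [← hsq]
        push_cast
        rw [Real.sqrt_mul (by norm_num), sqrt_eq_cube hν hN]
      have h4 : √(e - 0) = √2 * √(1 + u) := by
        rw [sub_zero, he', Real.sqrt_mul (by norm_num)]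
      rw [h3, h4]
      have h5 : √2 * √2 = (2 : ℝ) := Real.mul_self_sqrt (by norm_num)
      calc √2 * √(1 + u) * (√2 * ν ^ 3) = (√2 * √2) * (ν ^ 3 * √(1 + u)) := by ring
        _ = 2 * ν ^ 3 * √(1 + u) := by rw [h5]; ring
    have hsqrt := sqrt_one_add_le hu1 hu2
    have hν3 : 0 < ν ^ 3 := by positivity
    have h6 : √(e - 0) * G = 4 * ν ^ 3 * √(1 + u) + √(e - 0) * X / ν2 := by
      rw [hGX]
      have : √(e - 0) * (2 * ν2 ^ 3 + X / ν2) = 2 * (√(e - 0) * ν2 ^ 3) + √(e - 0) * X / ν2 := by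
        ring
      rw [this, hs]
      ring
    rw [h6] at hω
    have h7 : 4 * ν ^ 3 * √(1 + u) ≤
        4 * ν ^ 3 + 2 * w * ν - w ^ 2 / (2 * ν) + w ^ 3 / (4 * ν ^ 3) := by
      calc 4 * ν ^ 3 * √(1 + u) ≤ 4 * ν ^ 3 * (1 + u / 2 - u ^ 2 / 8 + u ^ 3 / 16) := by gcongr
        _ = _ := by
          rw [hu]
          field_simp
          ring
    have h8 : w ^ 2 / (2 * ν) - w ^ 3 / (4 * ν ^ 3) - (m + 2 * M0) / ν < √(e - 0) * X / ν2 := by
      linarith
    have h9 : w ^ 2 / 2 - w ^ 3 / (4 * ν ^ 2) - (m + 2 * M0) < (√(e - 0) * ν / ν2) * X := by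
      have := mul_lt_mul_of_pos_left h8 hν
      calc w ^ 2 / 2 - w ^ 3 / (4 * ν ^ 2) - (m + 2 * M0)
          = ν * (w ^ 2 / (2 * ν) - w ^ 3 / (4 * ν ^ 3) - (m + 2 * M0) / ν) := by field_simp
        _ < ν * (√(e - 0) * X / ν2) := this
        _ = _ := by ring
    have h10 : w ^ 3 / (4 * ν ^ 2) ≤ 1 := by
      rw [div_le_one (by positivity)]
      calc w ^ 3 ≤ |w ^ 3| := le_abs_self _
        _ = |w| ^ 3 := abs_pow w 3
        _ ≤ _ := hw3
    have h11 : w ^ 2 / 2 - 1 - m - 2 * M0 < (√(e - 0) * ν / ν2) * X := by linarith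
    have hcoef : √(e - 0) * ν / ν2 ≤ 2 := by
      rw [div_le_iff₀ hν2pos]
      have h12 : √(e - 0) ≤ 2 := by
        rw [sub_zero]
        apply Real.sqrt_le_iff.2
        constructor
        · norm_num
        · rw [he']; linarith
      have h13 : ν ≤ ν2 := by
        by_contra hcon
        push Not at hcon
        have h14 : ν2 ^ 6 < ν ^ 6 := pow_lt_pow_left₀ hcon hν2pos.le (by norm_num)
        rw [hν26, hN] at h14
        push_cast at h14
        linarith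
      have h15 : 0 ≤ √(e - 0) := Real.sqrt_nonneg _
      nlinarith
    have hXpos : 0 < X := by
      by_contra hcon
      push Not at hcon
      have h16 : (√(e - 0) * ν / ν2) * X ≤ 0 :=
        mul_nonpos_of_nonneg_of_nonpos (by positivity) hcon
      linarith
    nlinarith
  · unfold bdry
    rw [he]
    have : ((k : ℝ) + 1 / 2) / N ≤ 2 := by
      rw [div_le_iff₀ hNpos]
      have : (k : ℝ) + 1 ≤ N := by exact_mod_cast hk
      linarith
    linarith
  · -- lower bound for the remaining part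
    have hk' : (k : ℝ) + 1 ≤ N := by exact_mod_cast hk
    have hnn : N ≤ 2 * N - k := by omega
    have hWe : bdry N ν w k < e := by
      unfold bdry
      rw [he]
      have : ((k : ℝ) + 1 / 2) / N < 2 := by
        rw [div_lt_iff₀ hNpos]
        linarith
      linarith
    have hid := hB.identDistrib_scale k (n := 2 * N - k) (by omega) hWe
    have hms : MeasurableSet {x : ℝ | 2 * ν ^ 3 * (2 - (k + 1 / 2) / N) - 2 * M0 / ν < x} :=
      measurableSet_lt measurable_const measurable_id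
    have h1 : P {ω | 2 * ν ^ 3 * (2 - (k + 1 / 2) / N) - 2 * M0 / ν <
        lpp (fun j t => B j t ω) k (2 * N - k) (bdry N ν w k) e} =
        P {ω | 2 * ν ^ 3 * (2 - (k + 1 / 2) / N) - 2 * M0 / ν <
          √(e - bdry N ν w k) * lpp (fun j t => B j t ω) 0 (2 * N - k) 0 1} :=
      hid.measure_mem_eq hms
    rw [h1]
    refine (hlow (2 * N - k) hnn (by omega)).trans (measure_mono ?_)
    intro ω hω
    simp only [Set.mem_ofPred_eq] at hω ⊢
    set n := 2 * N - k with hn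
    have hncast : (n : ℝ) = 2 * N - k := by
      rw [hn, Nat.cast_sub (by omega)]
      push_cast
      ring
    set ν' : ℝ := (n : ℝ) ^ ((1 : ℝ) / 6) with hν'def
    have hν'pos : 0 < ν' := by
      apply Real.rpow_pos_of_pos
      rw [hncast]
      linarith
    have hν'6 : ν' ^ 6 = (n : ℝ) := rpow_sixth_pow n
    have hsq : √(n : ℝ) = ν' ^ 3 := sqrt_eq_cube hν'pos hν'6
    unfold onePt at hω
    rw [hsq] at hω
    have := scaled_lower hν hν'pos hN hν'6 hN1 hnn (by omega) hM0 hω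
    have e1 : e - bdry N ν w k = ((n : ℝ) - 1 / 2) / N := by
      unfold bdry
      rw [he, hncast]
      field_simp
      ring
    have e2 : 2 - ((k : ℝ) + 1 / 2) / N = ((n : ℝ) - 1 / 2) / N := by
      rw [hncast]
      field_simp
      ring
    rw [e1, e2]
    exact this
  · apply le_of_eq
    ring

/-- The time-reversed lines. -/
lemma IsBrownianLines.rev (hB : IsBrownianLines B P) (N : ℕ) :
    IsBrownianLines (fun k t ω => B (revLine N k) 1 ω - B (revLine N k) (1 - t) ω) P := by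
  have := hB.transform (σ := revLine N) (revLine_injective N) (α := -1) (ε := -1) 1 (by norm_num)
  convert! this using 4 with k t ω
  ring_nf

lemma IsBrownianLines.onePt_identDistrib {Ω' : Type*} {mΩ' : MeasurableSpace Ω'}
    {P' : Measure Ω'} {B' : ℕ → ℝ → Ω' → ℝ} (hB : IsBrownianLines B P)
    (hB' : IsBrownianLines B' P') {n : ℕ} (hn : 1 ≤ n) :
    IdentDistrib (fun ω => onePt (fun j t => B j t ω) n) (fun ω => onePt (fun j t => B' j t ω) n)
      P P' := by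
  have := (hB.identDistrib_lpp hB' (k := 0) hn (zero_le_one' ℝ)).comp
    (u := fun x => (n : ℝ) ^ ((1 : ℝ) / 6) * (x - 2 * √n)) (by fun_prop)
  exact this

lemma IsBrownianLines.measurable_onePt (hB : IsBrownianLines B P) {n : ℕ} (hn : 1 ≤ n) :
    Measurable fun ω => onePt (fun j t => B j t ω) n := by
  unfold onePt
  exact ((hB.measurable_lpp hn (zero_le_one' ℝ)).sub_const _).const_mul _

/-- The exit estimate: the probability that some path from `(0,0)` to `(1, N-1)` through a point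
of the boundary line at position `w` has a large weight. -/
lemma IsBrownianLines.exit_bound (hB : IsBrownianLines B P) {N : ℕ} (hN1 : 1 ≤ N)
    {ν w m M0 : ℝ} (hν : 0 < ν) (hN : ν ^ 6 = N) (hM0 : 0 < M0)
    (hlow : ∀ n, N ≤ n → n ≤ 2 * N → 1 / 2 ≤ P {ω | -M0 ≤ onePt (fun j t => B j t ω) n})
    (hw : |w| ≤ ν ^ 2 / 4) (hw3 : |w| ^ 3 ≤ 4 * ν ^ 2) (hc : 0 ≤ w ^ 2 / 2 - 1 - m - 2 * M0) :
    P {ω | ∃ k < N, 0 ≤ bdry N ν w k ∧ bdry N ν w k ≤ 1 ∧
      2 * ν ^ 3 - 2 * m / ν <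
        lpp (fun j t => B j t ω) 0 (k + 1) 0 (bdry N ν w k) +
          lpp (fun j t => B j t ω) k (N - k) (bdry N ν w k) 1} ≤
      4 * P {ω | (w ^ 2 / 2 - 1 - m - 2 * M0) / 2 < onePt (fun j t => B j t ω) (2 * N)} := by
  have hNpos : (0 : ℝ) < N := by exact_mod_cast hN1
  have hrev := hB.rev N
  have hlow' : ∀ n, N ≤ n → n ≤ 2 * N → 1 / 2 ≤ P {ω | -M0 ≤
      onePt (fun j t => B (revLine N j) 1 ω - B (revLine N j) (1 - t) ω) n} := by
    intro n h1 h2
    have hid := hrev.onePt_identDistrib hB (n := n) (by omega)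
    have := hid.measure_mem_eq (measurableSet_le measurable_const measurable_id :
      MeasurableSet {x : ℝ | -M0 ≤ x})
    calc (1 / 2 : ENNReal) ≤ P {ω | -M0 ≤ onePt (fun j t => B j t ω) n} := hlow n h1 h2
      _ = _ := this.symm
  have h1 := hB.exit_half hN1 hν hN hM0 hlow hw hw3 hc
  have h2 := hrev.exit_half hN1 (w := -w) hν hN hM0 hlow' (by rwa [abs_neg]) (by rwa [abs_neg])
    (by rwa [neg_sq])
  have h3 : P {ω | ((-w) ^ 2 / 2 - 1 - m - 2 * M0) / 2 <
      onePt (fun j t => B (revLine N j) 1 ω - B (revLine N j) (1 - t) ω) (2 * N)} =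
      P {ω | (w ^ 2 / 2 - 1 - m - 2 * M0) / 2 < onePt (fun j t => B j t ω) (2 * N)} := by
    rw [neg_sq]
    have hid := hrev.onePt_identDistrib hB (n := 2 * N) (by omega)
    exact hid.measure_mem_eq (measurableSet_lt measurable_const measurable_id :
      MeasurableSet {x : ℝ | (w ^ 2 / 2 - 1 - m - 2 * M0) / 2 < x})
  rw [h3] at h2
  have hsub : {ω | ∃ k < N, 0 ≤ bdry N ν w k ∧ bdry N ν w k ≤ 1 ∧
      2 * ν ^ 3 - 2 * m / ν <
        lpp (fun j t => B j t ω) 0 (k + 1) 0 (bdry N ν w k) +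
          lpp (fun j t => B j t ω) k (N - k) (bdry N ν w k) 1} ⊆
      {ω | ∃ k < N, 0 ≤ bdry N ν w k ∧
        2 * ν ^ 3 * ((k + 1 / 2) / N) + 2 * w * ν - m / ν <
          lpp (fun j t => B j t ω) 0 (k + 1) 0 (bdry N ν w k)} ∪
      {ω | ∃ k < N, 0 ≤ bdry N ν (-w) k ∧
        2 * ν ^ 3 * ((k + 1 / 2) / N) + 2 * (-w) * ν - m / ν <
          lpp (fun j t => B (revLine N j) 1 ω - B (revLine N j) (1 - t) ω) 0 (k + 1) 0
            (bdry N ν (-w) k)} := by
    rintro ω ⟨k, hk, h4, h5, h6⟩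
    by_cases h7 : 2 * ν ^ 3 * ((k + 1 / 2) / N) + 2 * w * ν - m / ν <
        lpp (fun j t => B j t ω) 0 (k + 1) 0 (bdry N ν w k)
    · exact Or.inl ⟨k, hk, h4, h7⟩
    · right
      push Not at h7
      have hkc : ((N - 1 - k : ℕ) : ℝ) = N - 1 - k := by
        rw [Nat.cast_sub (by omega), Nat.cast_sub (by omega)]
        push_cast
        ring
      have hb : bdry N ν (-w) (N - 1 - k) = 1 - bdry N ν w k := by
        unfold bdry
        rw [hkc]
        field_simp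
        ring
      refine ⟨N - 1 - k, by omega, ?_, ?_⟩
      · rw [hb]; linarith
      · have e1 := lpp_rev (fun j t => B j t ω) (N := N) (n := N - 1 - k + 1) (by omega) 0
          (bdry N ν (-w) (N - 1 - k))
        have e2 : N - (N - 1 - k + 1) = k := by omega
        have e3 : N - 1 - k + 1 = N - k := by omega
        rw [e2, hb] at e1
        have e4 : (1 : ℝ) - (1 - bdry N ν w k) = bdry N ν w k := by ring
        rw [e4, sub_zero] at e1
        rw [hb, e1, hkc, e3]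
        have e5 : ((N : ℝ) - 1 - k + 1 / 2) / N = 1 - (k + 1 / 2) / N := by
          field_simp
          ring
        rw [e5]
        have e6 : 2 * m / ν = m / ν + m / ν := by ring
        rw [e6] at h6
        have e7 : 2 * ν ^ 3 * (1 - ((k : ℝ) + 1 / 2) / N) =
            2 * ν ^ 3 - 2 * ν ^ 3 * ((k + 1 / 2) / N) := by ring
        rw [e7]
        linarith
  calc _ ≤ _ := measure_mono hsub
    _ ≤ _ := measure_union_le _ _
    _ ≤ _ := add_le_add h1 h2
    _ = _ := by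
      rw [← add_mul]
      norm_num

end

end Pool.Agent.Lib.MP_cd6101_pr
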