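import Mathlib
import Pool.Agent.Lib.MP_cd6101_pr.Exit

/-!
# Decorrelation of truncated diagonal values in the prelimit
-/

open Set Topology MeasureTheory ProbabilityTheory

namespace Pool.Agent.Lib.MP_cd6101_pr

/-- Truncation to `[-M, M]`. -/
noncomputable def trunc (M v : ℝ) : ℝ := max (-M) (min M v)

lemma abs_trunc_le {M : ℝ} (hM : 0 ≤ M) (v : ℝ) : |trunc M v| ≤ M := by
  unfold trunc
  rw [abs_le]
  exact ⟨le_max_left _ _, max_le (by linarith) (min_le_left _ _)⟩

lemma continuous_trunc (M : ℝ) : Continuous (trunc M) := by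
  unfold trunc
  fun_prop

lemma measurable_trunc (M : ℝ) : Measurable (trunc M) := (continuous_trunc M).measurable

lemma trunc_eq_of_max_eq {M v v' : ℝ} (hM : 0 ≤ M) (h : max v (-M) = max v' (-M)) :
    trunc M v = trunc M v' := by
  have key : ∀ x, trunc M x = min M (max x (-M)) := by
    intro x
    unfold trunc
    rw [max_min_distrib_left, max_comm (-M) M, max_eq_left (by linarith : -M ≤ M), max_comm]
  rw [key, key, h]

section Cov

variable {Ω : Type*} {mΩ : MeasurableSpace Ω} {P : Measure Ω}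

/-- If `f, g` agree with independent bounded variables `f', g'` outside small events, then they
are almost uncorrelated. -/
lemma cov_bound_of_indep [IsProbabilityMeasure P] {f g f' g' : Ω → ℝ} {M p q : ℝ} (hM : 0 ≤ M)
    (hf : Measurable f) (hg : Measurable g) (hf' : Measurable f') (hg' : Measurable g')
    (bf : ∀ ω, |f ω| ≤ M) (bg : ∀ ω, |g ω| ≤ M) (bf' : ∀ ω, |f' ω| ≤ M) (bg' : ∀ ω, |g' ω| ≤ M)
    (hind : IndepFun f' g' P) (hp : P.real {ω | f ω ≠ f' ω} ≤ p)
    (hq : P.real {ω | g ω ≠ g' ω} ≤ q) :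
    |P[fun ω => f ω * g ω] - P[f] * P[g]| ≤ 4 * M ^ 2 * (p + q) := by
  have intb : ∀ {h : Ω → ℝ}, Measurable h → (∀ ω, |h ω| ≤ M) → Integrable h P :=
    fun hm hb => Integrable.of_bound hm.aestronglyMeasurable M (ae_of_all _ hb)
  have diffb : ∀ {h h' : Ω → ℝ} {r : ℝ}, Measurable h → Measurable h' → (∀ ω, |h ω| ≤ M) →
      (∀ ω, |h' ω| ≤ M) → P.real {ω | h ω ≠ h' ω} ≤ r →
      P[fun ω => |h ω - h' ω|] ≤ 2 * M * r := by
    intro h h' r hm hm' hb hb' hr
    have hms : MeasurableSet {ω | h ω ≠ h' ω} := (measurableSet_eq_fun hm hm').compl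
    calc P[fun ω => |h ω - h' ω|] ≤ P[fun ω => ({ω | h ω ≠ h' ω}).indicator (fun _ => 2 * M) ω] := by
          refine integral_mono_of_nonneg (ae_of_all _ fun ω => abs_nonneg _)
            ((integrable_const _).indicator hms) (ae_of_all _ fun ω => ?_)
          by_cases hω : ω ∈ {ω | h ω ≠ h' ω}
          · simp only [Set.indicator_of_mem hω]
            have h1 := abs_le.1 (hb ω)
            have h2 := abs_le.1 (hb' ω)
            rw [abs_le]
            constructor <;> linarith [h1.1, h1.2, h2.1, h2.2]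
          · simp only [Set.indicator_of_notMem hω]
            have : h ω = h' ω := by simpa using hω
            rw [this]
            simp
      _ = 2 * M * P.real {ω | h ω ≠ h' ω} := by
          rw [integral_indicator hms, setIntegral_const, smul_eq_mul, mul_comm]
      _ ≤ 2 * M * r := by gcongr
  have hfd := diffb hf hf' bf bf' hp
  have hgd := diffb hg hg' bg bg' hq
  have hprod : P[fun ω => f' ω * g' ω] = P[f'] * P[g'] := hind.integral_fun_mul_eq_mul_integral
    hf'.aestronglyMeasurable hg'.aestronglyMeasurable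
  have i1 : Integrable (fun ω => f ω * g ω) P := by
    refine Integrable.of_bound (hf.mul hg).aestronglyMeasurable (M * M) (ae_of_all _ fun ω => ?_)
    rw [norm_mul]
    exact mul_le_mul (bf ω) (bg ω) (norm_nonneg _) hM
  have i2 : Integrable (fun ω => f' ω * g' ω) P := by
    refine Integrable.of_bound (hf'.mul hg').aestronglyMeasurable (M * M)
      (ae_of_all _ fun ω => ?_)
    rw [norm_mul]
    exact mul_le_mul (bf' ω) (bg' ω) (norm_nonneg _) hM
  have if1 := intb hf bf
  have if2 := intb hf' bf'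
  have ig1 := intb hg bg
  have ig2 := intb hg' bg'
  have ia1 : Integrable (fun ω => M * |f ω - f' ω|) P := (if1.sub if2).abs.const_mul M
  have ia2 : Integrable (fun ω => M * |g ω - g' ω|) P := (ig1.sub ig2).abs.const_mul M
  -- difference of the product expectations
  have h1 : |P[fun ω => f ω * g ω] - P[fun ω => f' ω * g' ω]| ≤ 2 * M ^ 2 * (p + q) := by
    rw [← integral_sub i1 i2]
    calc |∫ ω, (f ω * g ω - f' ω * g' ω) ∂P| ≤ ∫ ω, |f ω * g ω - f' ω * g' ω| ∂P :=
          abs_integral_le_integral_abs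
      _ ≤ ∫ ω, (M * |f ω - f' ω| + M * |g ω - g' ω|) ∂P := by
          refine integral_mono (i1.sub i2).abs (ia1.add ia2) fun ω => ?_
          have e : f ω * g ω - f' ω * g' ω = (f ω - f' ω) * g ω + f' ω * (g ω - g' ω) := by ring
          simp only
          rw [e]
          calc |(f ω - f' ω) * g ω + f' ω * (g ω - g' ω)|
              ≤ |(f ω - f' ω) * g ω| + |f' ω * (g ω - g' ω)| := abs_add_le _ _
            _ = |f ω - f' ω| * |g ω| + |f' ω| * |g ω - g' ω| := by rw [abs_mul, abs_mul]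
            _ ≤ |f ω - f' ω| * M + M * |g ω - g' ω| := by
                gcongr
                · exact bg ω
                · exact bf' ω
            _ = _ := by ring
      _ = M * P[fun ω => |f ω - f' ω|] + M * P[fun ω => |g ω - g' ω|] := by
          rw [integral_add ia1 ia2, integral_const_mul, integral_const_mul]
      _ ≤ M * (2 * M * p) + M * (2 * M * q) := by gcongr
      _ = _ := by ring
  have absint : ∀ {h : Ω → ℝ}, Measurable h → (∀ ω, |h ω| ≤ M) → |P[h]| ≤ M := by
    intro h hm hb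
    calc |P[h]| ≤ ∫ ω, |h ω| ∂P := abs_integral_le_integral_abs
      _ ≤ ∫ _, M ∂P := integral_mono (intb hm hb).abs (integrable_const _) hb
      _ = M := by simp
  have hfi : |P[f] - P[f']| ≤ 2 * M * p := by
    rw [← integral_sub if1 if2]
    exact (abs_integral_le_integral_abs).trans hfd
  have hgi : |P[g] - P[g']| ≤ 2 * M * q := by
    rw [← integral_sub ig1 ig2]
    exact (abs_integral_le_integral_abs).trans hgd
  have h2 : |P[f'] * P[g'] - P[f] * P[g]| ≤ 2 * M ^ 2 * (p + q) := by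
    have e : P[f'] * P[g'] - P[f] * P[g] = (P[f'] - P[f]) * P[g] + P[f'] * (P[g'] - P[g]) := by
      ring
    rw [e]
    calc |(P[f'] - P[f]) * P[g] + P[f'] * (P[g'] - P[g])|
        ≤ |(P[f'] - P[f]) * P[g]| + |P[f'] * (P[g'] - P[g])| := abs_add_le _ _
      _ = |P[f] - P[f']| * |P[g]| + |P[f']| * |P[g] - P[g']| := by
          rw [abs_mul, abs_mul, abs_sub_comm (∫ ω, f' ω ∂P) (∫ ω, f ω ∂P),
            abs_sub_comm (∫ ω, g' ω ∂P) (∫ ω, g ω ∂P)]
      _ ≤ (2 * M * p) * M + M * (2 * M * q) := by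
          have hp0 : 0 ≤ p := le_trans measureReal_nonneg hp
          gcongr
          · exact absint hg bg
          · exact absint hf' bf'
      _ = _ := by ring
  rw [hprod] at h1
  calc |P[fun ω => f ω * g ω] - P[f] * P[g]|
      = |(P[fun ω => f ω * g ω] - P[f'] * P[g']) + (P[f'] * P[g'] - P[f] * P[g])| := by
        ring_nf
    _ ≤ _ := abs_add_le _ _
    _ ≤ 2 * M ^ 2 * (p + q) + 2 * M ^ 2 * (p + q) := add_le_add h1 h2
    _ = _ := by ring

end Cov

/-! ### Restricted passage values -/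

/-- Last passage value over the clamped rational paths in `Q`. -/
noncomputable def lppOn (z : ℕ → ℝ → ℝ) (N : ℕ) (a b : ℝ) (Q : Set (Fin N → ℚ)) : ℝ :=
  ⨆ q : Q, pathEnergy z 0 N (clampPath N a b (fun i => (q.1 i : ℝ)))

lemma measurable_lppOn (N : ℕ) (a b : ℝ) (Q : Set (Fin N → ℚ)) :
    Measurable fun z : ℕ × ℝ → ℝ => lppOn (fun j t => z (j, t)) N a b Q := by
  unfold lppOn
  exact Measurable.iSup fun q => measurable_pathEnergy 0 N _

lemma lppOn_mask {A : Set (ℕ × ℝ)} {W : ℕ → ℝ} {z : ℕ → ℝ → ℝ} {N : ℕ} {a b : ℝ}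
    {Q : Set (Fin N → ℚ)}
    (h : ∀ q ∈ Q, ∀ j < N, (j, clampPath N a b (fun i => (q i : ℝ)) j) ∈ A ∧
      (j, clampPath N a b (fun i => (q i : ℝ)) (j + 1)) ∈ A) :
    lppOn (fun j t => maskEnv A W z (j, t)) N a b Q = lppOn z N a b Q := by
  unfold lppOn
  congr 1
  ext q
  refine pathEnergy_mask fun j hj => ?_
  rw [zero_add]
  exact h q.1 q.2 j hj

lemma max_lpp_eq {z : ℕ → ℝ → ℝ} (hz : ∀ j, Continuous (z j)) {N : ℕ} (hN : 1 ≤ N) {a b : ℝ}
    (hab : a ≤ b) {Q : Set (Fin N → ℚ)} (hQ : Q.Nonempty) {θ : ℝ}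
    (h : ∀ q ∉ Q, pathEnergy z 0 N (clampPath N a b (fun i => (q i : ℝ))) ≤ θ) :
    max (lpp z 0 N a b) θ = max (lppOn z N a b Q) θ := by
  have hbdd : BddAbove (range fun q : Fin N → ℚ =>
      pathEnergy z 0 N (clampPath N a b (fun i => (q i : ℝ)))) := by
    refine (bddAbove_energies hz 0 N a b).mono ?_
    rintro _ ⟨q, rfl⟩
    exact ⟨_, isUpPath_clampPath hN hab _, rfl⟩
  have hbdd' : BddAbove (range fun q : Q =>
      pathEnergy z 0 N (clampPath N a b (fun i => (q.1 i : ℝ)))) := by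
    refine hbdd.mono ?_
    rintro _ ⟨q, rfl⟩
    exact ⟨q.1, rfl⟩
  have : Nonempty Q := hQ.to_subtype
  rw [lpp_eq_lppQ hz hN hab]
  apply le_antisymm
  · refine max_le ?_ (le_max_right _ _)
    unfold lppQ
    refine ciSup_le fun q => ?_
    by_cases hq : q ∈ Q
    · exact le_trans (le_ciSup hbdd' ⟨q, hq⟩) (le_max_left _ _)
    · exact (h q hq).trans (le_max_right _ _)
  · refine max_le_max ?_ le_rfl
    unfold lppOn lppQ
    exact ciSup_le fun q => le_ciSup hbdd q.1

lemma clampPath_const_low {N : ℕ} {a b : ℝ} (hab : a ≤ b) {r : ℝ} (hr : r ≤ a) {j : ℕ}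
    (hj : j < N) : clampPath N a b (fun _ => r) j = a := by
  induction j with
  | zero => rfl
  | succ j ih =>
    rw [clampPath, dif_pos hj, ih (by omega), min_eq_right (hr.trans hab), max_eq_left hr]

lemma clampPath_const_high {N : ℕ} {a b : ℝ} (hab : a ≤ b) {r : ℝ} (hr : b ≤ r) {j : ℕ} :
    clampPath N a b (fun _ => r) (j + 1) = b := by
  rw [clampPath]
  split_ifs with h
  · rw [min_eq_left hr, max_eq_right (clampPath_mem hab _ _).2]
  · rfl

/-- The rescaled diagonal passage value at spatial position `x`. -/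
noncomputable def diagPre (z : ℕ → ℝ → ℝ) (N : ℕ) (ν x : ℝ) : ℝ :=
  ν * (lpp z 0 N (2 * x / ν ^ 2) (1 + 2 * x / ν ^ 2) - 2 * ν ^ 3)

section

variable {Ω : Type*} {mΩ : MeasurableSpace Ω} {P : Measure Ω} {B : ℕ → ℝ → Ω → ℝ}

lemma IsBrownianLines.translate (hB : IsBrownianLines B P) (a : ℝ) :
    IsBrownianLines (fun k t ω => 1 * (B k (1 * t + a) ω - B k a ω)) P :=
  hB.transform (σ := fun k => k) (fun i j h => h) (α := 1) (ε := 1) a (by norm_num)

lemma lpp_translate (z : ℕ → ℝ → ℝ) (k n : ℕ) (a b c : ℝ) :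
    lpp (fun j t => 1 * (z j (1 * t + a) - z j a)) k n b c = lpp z k n (b + a) (c + a) := by
  rw [lpp_affine z k n b c a one_pos zero_le_one (fun j => z j a)]
  simp

/-- Exit estimate for paths starting at an arbitrary spatial position. -/
lemma IsBrownianLines.exit_bound_shift (hB : IsBrownianLines B P) {N : ℕ} (hN1 : 1 ≤ N)
    {ν w x m M0 : ℝ} (hν : 0 < ν) (hN : ν ^ 6 = N) (hM0 : 0 < M0)
    (hlow : ∀ n, N ≤ n → n ≤ 2 * N → 1 / 2 ≤ P {ω | -M0 ≤ onePt (fun j t => B j t ω) n})
    (hw : |w - x| ≤ ν ^ 2 / 4) (hw3 : |w - x| ^ 3 ≤ 4 * ν ^ 2)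
    (hc : 0 ≤ (w - x) ^ 2 / 2 - 1 - m - 2 * M0) :
    P {ω | ∃ k < N, 2 * x / ν ^ 2 ≤ bdry N ν w k ∧ bdry N ν w k ≤ 1 + 2 * x / ν ^ 2 ∧
      2 * ν ^ 3 - 2 * m / ν <
        lpp (fun j t => B j t ω) 0 (k + 1) (2 * x / ν ^ 2) (bdry N ν w k) +
          lpp (fun j t => B j t ω) k (N - k) (bdry N ν w k) (1 + 2 * x / ν ^ 2)} ≤
      4 * P {ω | ((w - x) ^ 2 / 2 - 1 - m - 2 * M0) / 2 <
        onePt (fun j t => B j t ω) (2 * N)} := by
  set a : ℝ := 2 * x / ν ^ 2 with ha
  have hBa := hB.translate a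
  have hlow' : ∀ n, N ≤ n → n ≤ 2 * N → 1 / 2 ≤ P {ω | -M0 ≤
      onePt (fun j t => 1 * (B j (1 * t + a) ω - B j a ω)) n} := by
    intro n h1 h2
    have hid := hBa.onePt_identDistrib hB (n := n) (by omega)
    have := hid.measure_mem_eq (measurableSet_le measurable_const measurable_id :
      MeasurableSet {x : ℝ | -M0 ≤ x})
    calc (1 / 2 : ENNReal) ≤ P {ω | -M0 ≤ onePt (fun j t => B j t ω) n} := hlow n h1 h2
      _ = _ := this.symm
  have h1 := hBa.exit_bound hN1 hν hN hM0 hlow' hw hw3 hc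
  have h3 : P {ω | ((w - x) ^ 2 / 2 - 1 - m - 2 * M0) / 2 <
      onePt (fun j t => 1 * (B j (1 * t + a) ω - B j a ω)) (2 * N)} =
      P {ω | ((w - x) ^ 2 / 2 - 1 - m - 2 * M0) / 2 <
        onePt (fun j t => B j t ω) (2 * N)} := by
    have hid := hBa.onePt_identDistrib hB (n := 2 * N) (by omega)
    exact hid.measure_mem_eq (measurableSet_lt measurable_const measurable_id :
      MeasurableSet {y : ℝ | ((w - x) ^ 2 / 2 - 1 - m - 2 * M0) / 2 < y})
  rw [h3] at h1
  refine le_trans (measure_mono ?_) h1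
  rintro ω ⟨k, hk, h4, h5, h6⟩
  have hb : bdry N ν (w - x) k = bdry N ν w k - a := by
    unfold bdry
    rw [ha]
    ring
  refine ⟨k, hk, by rw [hb]; linarith, by rw [hb]; linarith, ?_⟩
  rw [lpp_translate (fun j t => B j t ω), lpp_translate (fun j t => B j t ω), hb]
  have e1 : (0 : ℝ) + a = a := zero_add a
  have e2 : bdry N ν w k - a + a = bdry N ν w k := by ring
  rw [e1, e2]
  exact h6

/-- **Decorrelation in the prelimit.** -/
lemma IsBrownianLines.cov_pre (hB : IsBrownianLines B P) {N : ℕ} (hN1 : 1 ≤ N)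
    {ν x x' M M0 : ℝ} (hν : 0 < ν) (hN : ν ^ 6 = N) (hM0 : 0 < M0) (hM : 0 < M)
    (hlow : ∀ n, N ≤ n → n ≤ 2 * N → 1 / 2 ≤ P {ω | -M0 ≤ onePt (fun j t => B j t ω) n})
    (hx : x < x') (hw : (x' - x) / 2 ≤ ν ^ 2 / 4) (hw3 : ((x' - x) / 2) ^ 3 ≤ 4 * ν ^ 2)
    (hw4 : 1 ≤ 4 * ((x' - x) / 2) * ν ^ 4)
    (hc : 0 ≤ ((x' - x) / 2) ^ 2 / 2 - 1 - M / 2 - 2 * M0) :
    |P[fun ω => trunc M (diagPre (fun j t => B j t ω) N ν x) *
        trunc M (diagPre (fun j t => B j t ω) N ν x')] -
      P[fun ω => trunc M (diagPre (fun j t => B j t ω) N ν x)] *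
        P[fun ω => trunc M (diagPre (fun j t => B j t ω) N ν x')]| ≤
      32 * M ^ 2 * P.real {ω | (((x' - x) / 2) ^ 2 / 2 - 1 - M / 2 - 2 * M0) / 2 <
        onePt (fun j t => B j t ω) (2 * N)} := by
  have hNpos : (0 : ℝ) < N := by exact_mod_cast hN1
  have hν2 : 0 < ν ^ 2 := by positivity
  have hPprob := hB.isProbabilityMeasure
  set w : ℝ := (x + x') / 2 with hwdef
  set W : ℕ → ℝ := bdry N ν w with hW
  set a : ℝ := 2 * x / ν ^ 2 with ha
  set a' : ℝ := 2 * x' / ν ^ 2 with ha'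
  set QL : Set (Fin N → ℚ) :=
    {q | ∀ j < N, clampPath N a (1 + a) (fun i => (q i : ℝ)) (j + 1) ≤ W j} with hQL
  set QR : Set (Fin N → ℚ) :=
    {q | ∀ j < N, W j ≤ clampPath N a' (1 + a') (fun i => (q i : ℝ)) j} with hQR
  have hWmono : ∀ j, W j ≤ W (j + 1) := by
    intro j
    simp only [hW, bdry]
    push_cast
    gcongr
    linarith
  have hWle : ∀ i j, i ≤ j → W i ≤ W j := fun i j hij => monotone_nat_of_le_succ hWmono hij
  have hWa : ∀ j, W j - a = (j + 1 / 2) / N + 2 * ((x' - x) / 2) / ν ^ 2 := by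
    intro j
    simp only [hW, bdry, ha, hwdef]
    ring
  have hWa' : ∀ j, W j - a' = (j + 1 / 2) / N - 2 * ((x' - x) / 2) / ν ^ 2 := by
    intro j
    simp only [hW, bdry, ha', hwdef]
    ring
  have hw' : 0 < (x' - x) / 2 := by linarith
  -- `1/(2N) ≤ 2 w' / ν^2`
  have hsmall : (1 / 2 : ℝ) / N ≤ 2 * ((x' - x) / 2) / ν ^ 2 := by
    rw [← hN, div_le_div_iff₀ (by positivity) hν2]
    nlinarith [mul_le_mul_of_nonneg_right hw4 hν2.le]
  have haW0 : a ≤ W 0 := by
    have := hWa 0
    have h0 : (0 : ℝ) ≤ (((0 : ℕ) : ℝ) + 1 / 2) / N := by positivity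
    have h1 : 0 ≤ 2 * ((x' - x) / 2) / ν ^ 2 := by positivity
    linarith
  have hWN : ∀ j < N, W j ≤ 1 + a' := by
    intro j hj
    have := hWa' j
    have h0 : ((j : ℝ) + 1 / 2) / N ≤ 1 := by
      rw [div_le_one hNpos]
      have : (j : ℝ) + 1 ≤ N := by exact_mod_cast hj
      linarith
    have h1 : 0 ≤ 2 * ((x' - x) / 2) / ν ^ 2 := by positivity
    linarith
  -- nonemptiness of the two families
  have hQLne : QL.Nonempty := by
    obtain ⟨r, hr⟩ := exists_rat_lt a
    refine ⟨fun _ => r, fun j hj => ?_⟩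
    by_cases hj' : j + 1 < N
    · rw [clampPath_const_low (by linarith) hr.le hj']
      exact haW0.trans (hWle 0 j (Nat.zero_le _))
    · have hjN : j + 1 = N := by omega
      rw [hjN, (isUpPath_clampPath hN1 (by linarith : a ≤ 1 + a) _).2.2]
      have := hWa j
      have hjc : (j : ℝ) = N - 1 := by
        have : ((j + 1 : ℕ) : ℝ) = N := by rw [hjN]
        push_cast at this
        linarith
      have h1 : ((j : ℝ) + 1 / 2) / N = 1 - 1 / 2 / N := by
        rw [hjc]
        field_simp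
        ring
      rw [h1] at this
      linarith
  have hQRne : QR.Nonempty := by
    obtain ⟨r, hr⟩ := exists_rat_gt (1 + a')
    refine ⟨fun _ => r, fun j hj => ?_⟩
    rcases j with _ | j
    · have h1 : clampPath N a' (1 + a') (fun _ => (r : ℝ)) 0 = a' := rfl
      rw [h1]
      have := hWa' 0
      have h2 : (((0 : ℕ) : ℝ) + 1 / 2) / N = 1 / 2 / N := by norm_num
      rw [h2] at this
      linarith
    · rw [clampPath_const_high (by linarith) hr.le]
      exact hWN _ hj
  -- masks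
  set L : Set (ℕ × ℝ) := {p | p.2 ≤ W p.1} with hL
  set R : Set (ℕ × ℝ) := {p | W p.1 ≤ p.2} with hR
  have hmaskL : ∀ ω, lppOn (fun j t => maskEnv L W (fun j t => B j t ω) (j, t)) N a (1 + a) QL =
      lppOn (fun j t => B j t ω) N a (1 + a) QL := by
    intro ω
    refine lppOn_mask fun q hq j hj => ⟨?_, hq j hj⟩
    exact ((isUpPath_clampPath hN1 (by linarith : a ≤ 1 + a) _).1 j hj).trans (hq j hj)
  have hmaskR : ∀ ω, lppOn (fun j t => maskEnv R W (fun j t => B j t ω) (j, t)) N a' (1 + a') QR =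
      lppOn (fun j t => B j t ω) N a' (1 + a') QR := by
    intro ω
    refine lppOn_mask fun q hq j hj => ⟨hq j hj, ?_⟩
    exact (hq j hj).trans ((isUpPath_clampPath hN1 (by linarith : a' ≤ 1 + a') _).1 j hj)
  have hind := hB.indep_mask W L R (by
    rintro ⟨i, t⟩ hp ⟨j, s⟩ hq (rfl : i = j)
    exact ⟨hp, hq⟩)
  -- the independent approximations
  set F : (ℕ × ℝ → ℝ) → ℝ := fun z =>
    trunc M (ν * (lppOn (fun j t => z (j, t)) N a (1 + a) QL - 2 * ν ^ 3)) with hF
  set G : (ℕ × ℝ → ℝ) → ℝ := fun z =>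
    trunc M (ν * (lppOn (fun j t => z (j, t)) N a' (1 + a') QR - 2 * ν ^ 3)) with hG
  have hFm : Measurable F := (measurable_trunc M).comp
    (((measurable_lppOn N a (1 + a) QL).sub_const _).const_mul _)
  have hGm : Measurable G := (measurable_trunc M).comp
    (((measurable_lppOn N a' (1 + a') QR).sub_const _).const_mul _)
  have hmm : ∀ A : Set (ℕ × ℝ), Measurable fun ω => maskEnv A W (fun j t => B j t ω) := by
    intro A
    refine measurable_pi_lambda _ fun p => ?_
    by_cases hp : p ∈ A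
    · simp only [maskEnv, Set.indicator_of_mem hp]
      exact (hB.measurable _ _).sub (hB.measurable _ _)
    · simp only [maskEnv, Set.indicator_of_notMem hp]
      exact measurable_const
  have hindFG := hind.comp hFm hGm
  set f' : Ω → ℝ := F ∘ fun ω => maskEnv L W (fun j t => B j t ω) with hf'
  set g' : Ω → ℝ := G ∘ fun ω => maskEnv R W (fun j t => B j t ω) with hg'
  have hf'm : Measurable f' := hFm.comp (hmm L)
  have hg'm : Measurable g' := hGm.comp (hmm R)
  have hfm : Measurable fun ω => trunc M (diagPre (fun j t => B j t ω) N ν x) :=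
    (measurable_trunc M).comp
      (((hB.measurable_lpp hN1 (by linarith : a ≤ 1 + a)).sub_const _).const_mul _)
  have hgm : Measurable fun ω => trunc M (diagPre (fun j t => B j t ω) N ν x') :=
    (measurable_trunc M).comp
      (((hB.measurable_lpp hN1 (by linarith : a' ≤ 1 + a')).sub_const _).const_mul _)
  -- exit events
  set p : ENNReal := P {ω | (((x' - x) / 2) ^ 2 / 2 - 1 - M / 2 - 2 * M0) / 2 <
        onePt (fun j t => B j t ω) (2 * N)} with hp
  have exitL := hB.exit_bound_shift hN1 (w := w) (x := x) (m := M / 2) hν hN hM0 hlow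
    (by rw [show w - x = (x' - x) / 2 by rw [hwdef]; ring, abs_of_pos hw']; exact hw)
    (by rw [show w - x = (x' - x) / 2 by rw [hwdef]; ring, abs_of_pos hw']; exact hw3)
    (by rw [show w - x = (x' - x) / 2 by rw [hwdef]; ring]; exact hc)
  have exitR := hB.exit_bound_shift hN1 (w := w) (x := x') (m := M / 2) hν hN hM0 hlow
    (by rw [show w - x' = -((x' - x) / 2) by rw [hwdef]; ring, abs_neg, abs_of_pos hw']; exact hw)
    (by rw [show w - x' = -((x' - x) / 2) by rw [hwdef]; ring, abs_neg, abs_of_pos hw']; exact hw3)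
    (by rw [show w - x' = -((x' - x) / 2) by rw [hwdef]; ring, neg_sq]; exact hc)
  rw [show w - x = (x' - x) / 2 by rw [hwdef]; ring] at exitL
  rw [show w - x' = -((x' - x) / 2) by rw [hwdef]; ring, neg_sq] at exitR
  have ediv : 2 * (M / 2) / ν = M / ν := by ring
  rw [ediv] at exitL exitR
  have hθ : ν * ((2 * ν ^ 3 - M / ν) - 2 * ν ^ 3) = -M := by
    field_simp
    ring
  have hscale : ∀ y y' : ℝ, max y (2 * ν ^ 3 - M / ν) = max y' (2 * ν ^ 3 - M / ν) →
      trunc M (ν * (y - 2 * ν ^ 3)) = trunc M (ν * (y' - 2 * ν ^ 3)) := by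
    intro y y' h
    apply trunc_eq_of_max_eq hM.le
    rw [← hθ]
    have hmono : ∀ u, max (ν * (u - 2 * ν ^ 3)) (ν * ((2 * ν ^ 3 - M / ν) - 2 * ν ^ 3)) =
        ν * (max u (2 * ν ^ 3 - M / ν) - 2 * ν ^ 3) := by
      intro u
      rw [← mul_max_of_nonneg _ _ hν.le, max_sub_sub_right]
    rw [hmono, hmono, h]
  have hpL : P.real {ω | trunc M (diagPre (fun j t => B j t ω) N ν x) ≠ f' ω} ≤
      4 * p.toReal := by
    have hle : P {ω | trunc M (diagPre (fun j t => B j t ω) N ν x) ≠ f' ω} ≤ 4 * p := by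
      refine le_trans (measure_mono ?_) exitL
      intro ω hω
      by_contra hcon
      apply hω
      simp only [Set.mem_ofPred_eq, not_exists, not_and, not_lt] at hcon
      simp only [hf', Function.comp, hF]
      rw [hmaskL]
      unfold diagPre
      apply hscale
      apply max_lpp_eq (hB.cont ω) hN1 (by linarith) hQLne
      intro q hq
      have hs := isUpPath_clampPath hN1 (by linarith : a ≤ 1 + a) (fun i => (q i : ℝ))
      obtain ⟨k, hk, h1, h2⟩ := exists_cross_left hs hWmono haW0 hq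
      refine (pathEnergy_le_of_cross (hB.cont ω) 0 hk hs h1 h2).trans ?_
      rw [zero_add]
      exact hcon k hk ((hs.mem_Icc hk.le).1.trans h1) (h2.trans (hs.mem_Icc hk).2)
    have h4 : (4 * p).toReal = 4 * p.toReal := by
      rw [ENNReal.toReal_mul]
      norm_num
    rw [← h4]
    exact ENNReal.toReal_mono (ENNReal.mul_ne_top (by norm_num) (measure_ne_top _ _)) hle
  have hpR : P.real {ω | trunc M (diagPre (fun j t => B j t ω) N ν x') ≠ g' ω} ≤
      4 * p.toReal := by
    have hle : P {ω | trunc M (diagPre (fun j t => B j t ω) N ν x') ≠ g' ω} ≤ 4 * p := by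
      refine le_trans (measure_mono ?_) exitR
      intro ω hω
      by_contra hcon
      apply hω
      simp only [Set.mem_ofPred_eq, not_exists, not_and, not_lt] at hcon
      simp only [hg', Function.comp, hG]
      rw [hmaskR]
      unfold diagPre
      apply hscale
      apply max_lpp_eq (hB.cont ω) hN1 (by linarith) hQRne
      intro q hq
      have hs := isUpPath_clampPath hN1 (by linarith : a' ≤ 1 + a') (fun i => (q i : ℝ))
      obtain ⟨k, hk, h1, h2⟩ := exists_cross_right hs hWmono hWN hq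
      refine (pathEnergy_le_of_cross (hB.cont ω) 0 hk hs h1 h2).trans ?_
      rw [zero_add]
      exact hcon k hk ((hs.mem_Icc hk.le).1.trans h1) (h2.trans (hs.mem_Icc hk).2)
    have h4 : (4 * p).toReal = 4 * p.toReal := by
      rw [ENNReal.toReal_mul]
      norm_num
    rw [← h4]
    exact ENNReal.toReal_mono (ENNReal.mul_ne_top (by norm_num) (measure_ne_top _ _)) hle
  have hfin := cov_bound_of_indep (P := P) (M := M) hM.le hfm hgm hf'm hg'm
    (fun ω => abs_trunc_le hM.le _) (fun ω => abs_trunc_le hM.le _)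
    (fun ω => abs_trunc_le hM.le _) (fun ω => abs_trunc_le hM.le _) hindFG hpL hpR
  refine hfin.trans (le_of_eq ?_)
  rw [hp, Measure.real]
  ring

end

end Pool.Agent.Lib.MP_cd6101_pr
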