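import Mathlib
import Pool.Agent.Lib.MP_cd6101_pr.CovPre

/-!
# The Airy sheet as the scaling limit of Brownian last passage percolation
-/

open Set Topology MeasureTheory ProbabilityTheory Filter

namespace Pool.Agent.Lib.MP_cd6101_pr

section Param

lemma rpow_neg_third {N : ℕ} {ν : ℝ} (hν : 0 < ν) (h : ν ^ 6 = N) :
    (N : ℝ) ^ (-(1 : ℝ) / 3) = (ν ^ 2)⁻¹ := by
  rw [← h, ← Real.rpow_natCast ν 6, ← Real.rpow_mul hν.le]
  have : ((6 : ℕ) : ℝ) * (-(1 : ℝ) / 3) = -((2 : ℕ) : ℝ) := by norm_num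
  rw [this, Real.rpow_neg hν.le, Real.rpow_natCast]

lemma rpow_sixth_eq {N : ℕ} {ν : ℝ} (hν : 0 < ν) (h : ν ^ 6 = N) :
    (N : ℝ) ^ ((1 : ℝ) / 6) = ν := by
  rw [← h, ← Real.rpow_natCast ν 6, ← Real.rpow_mul hν.le]
  norm_num

lemma rpow_sixth_pos {N : ℕ} (hN : 1 ≤ N) : 0 < (N : ℝ) ^ ((1 : ℝ) / 6) :=
  Real.rpow_pos_of_pos (by exact_mod_cast hN) _

lemma tendsto_rpow_sixth : Tendsto (fun N : ℕ => (N : ℝ) ^ ((1 : ℝ) / 6)) atTop atTop :=
  (tendsto_rpow_atTop (by norm_num : (0 : ℝ) < 1 / 6)).comp tendsto_natCast_atTop_atTop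

lemma airyPre_diag (z : ℕ → ℝ → ℝ) {N : ℕ} {ν : ℝ} (hν : 0 < ν) (h : ν ^ 6 = N) (x : ℝ) :
    airyPre z N (x, x) = diagPre z N ν x := by
  unfold airyPre diagPre
  simp only
  rw [rpow_neg_third hν h, rpow_sixth_eq hν h, sqrt_eq_cube hν h]
  simp only [sub_self, mul_zero, zero_mul, sub_zero, div_eq_mul_inv]

lemma airyPre_zero (z : ℕ → ℝ → ℝ) (N : ℕ) : airyPre z N (0, 0) = onePt z N := by
  unfold airyPre onePt
  simp

end Param

section Limit

variable {Ω Ω' : Type*} {mΩ : MeasurableSpace Ω} {mΩ' : MeasurableSpace Ω'}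
  {P : Measure Ω} {P' : Measure Ω'} [IsProbabilityMeasure P] [IsProbabilityMeasure P']
  {B : ℕ → ℝ → Ω' → ℝ} {S : Ω → ℝ → ℝ → ℝ}

/-- `S` is the limit in law of the rescaled passage values of the Brownian lines `B`. -/
def IsAiryLimit (B : ℕ → ℝ → Ω' → ℝ) (P' : Measure Ω') [IsProbabilityMeasure P']
    (S : Ω → ℝ → ℝ → ℝ) (P : Measure Ω) [IsProbabilityMeasure P] : Prop :=
  ∀ I : Finset (ℝ × ℝ),
    TendstoInDistribution (fun (N : ℕ) ω' (p : I) => airyPre (fun j t => B j t ω') N p) atTop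
      (fun ω (p : I) => S ω p.1.1 p.1.2) (fun _ => P') P

omit [IsProbabilityMeasure P] [IsProbabilityMeasure P'] in
lemma tendsto_onePoint [IsProbabilityMeasure P] [IsProbabilityMeasure P']
    (h : IsAiryLimit B P' S P) (p : ℝ × ℝ) :
    TendstoInDistribution (fun (N : ℕ) ω' => airyPre (fun j t => B j t ω') N p) atTop
      (fun ω => S ω p.1 p.2) (fun _ => P') P := by
  have h1 := (h {p}).continuous_comp (g := fun v : ({p} : Finset (ℝ × ℝ)) → ℝ => v ⟨p, by simp⟩)
    (by fun_prop)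
  exact h1

lemma tendsto_onePt (h : IsAiryLimit B P' S P) :
    TendstoInDistribution (fun (N : ℕ) ω' => onePt (fun j t => B j t ω') N) atTop
      (fun ω => S ω 0 0) (fun _ => P') P := by
  have := tendsto_onePoint h (0, 0)
  simp only [airyPre_zero] at this
  exact this

lemma two_point_integral (h : IsAiryLimit B P' S P) (p q : ℝ × ℝ) {f : ℝ × ℝ → ℝ}
    (hf : Continuous f) {C : ℝ} (hC : ∀ v, |f v| ≤ C) :
    Tendsto (fun N : ℕ => ∫ ω', f (airyPre (fun j t => B j t ω') N p,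
      airyPre (fun j t => B j t ω') N q) ∂P') atTop
      (𝓝 (∫ ω, f (S ω p.1 p.2, S ω q.1 q.2) ∂P)) := by
  classical
  have h1 := (h {p, q}).continuous_comp
    (g := fun v : ({p, q} : Finset (ℝ × ℝ)) → ℝ => (v ⟨p, by simp⟩, v ⟨q, by simp⟩)) (by fun_prop)
  have h2 := ProbabilityMeasure.tendsto_iff_forall_integral_tendsto.1 h1.tendsto
    (BoundedContinuousFunction.ofNormedAddCommGroup f hf C hC)
  simp only [ProbabilityMeasure.coe_mk, BoundedContinuousFunction.coe_ofNormedAddCommGroup] at h2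
  have e1 : ∀ N : ℕ, ∫ v, f v ∂(P'.map ((fun v : ({p, q} : Finset (ℝ × ℝ)) → ℝ =>
      (v ⟨p, by simp⟩, v ⟨q, by simp⟩)) ∘
        (fun ω' (r : ({p, q} : Finset (ℝ × ℝ))) => airyPre (fun j t => B j t ω') N r))) =
      ∫ ω', f (airyPre (fun j t => B j t ω') N p, airyPre (fun j t => B j t ω') N q) ∂P' := by
    intro N
    rw [integral_map (h1.forall_aemeasurable N) hf.aestronglyMeasurable]
    rfl
  have e2 : ∫ v, f v ∂(P.map ((fun v : ({p, q} : Finset (ℝ × ℝ)) → ℝ =>
      (v ⟨p, by simp⟩, v ⟨q, by simp⟩)) ∘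
        (fun ω (r : ({p, q} : Finset (ℝ × ℝ))) => S ω r.1.1 r.1.2))) =
      ∫ ω, f (S ω p.1 p.2, S ω q.1 q.2) ∂P := by
    rw [integral_map h1.aemeasurable_limit hf.aestronglyMeasurable]
    rfl
  simp only [e1, e2] at h2
  exact h2

/-- Upper tails pass to the limit. -/
lemma eventually_tail_le (h : IsAiryLimit B P' S P) (c : ℝ) {ε : ℝ} (hε : 0 < ε) :
    ∀ᶠ N : ℕ in atTop, P'.real {ω' | c ≤ onePt (fun j t => B j t ω') N} ≤
      P.real {ω | c ≤ S ω 0 0} + ε := by
  have h1 := tendsto_onePt h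
  have h2 := ProbabilityMeasure.limsup_measure_closed_le_of_tendsto h1.tendsto
    (isClosed_Ici (a := c))
  simp only [ProbabilityMeasure.coe_mk] at h2
  rw [Measure.map_apply_of_aemeasurable h1.aemeasurable_limit measurableSet_Ici] at h2
  have h3 : ∀ N : ℕ, (P'.map (fun ω' => onePt (fun j t => B j t ω') N)) (Ici c) =
      P' {ω' | c ≤ onePt (fun j t => B j t ω') N} := fun N =>
    Measure.map_apply_of_aemeasurable (h1.forall_aemeasurable N) measurableSet_Ici
  simp only [h3] at h2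
  have h4 : limsup (fun N : ℕ => P' {ω' | c ≤ onePt (fun j t => B j t ω') N}) atTop <
      P {ω | c ≤ S ω 0 0} + ENNReal.ofReal ε := by
    refine lt_of_le_of_lt h2 ?_
    exact ENNReal.lt_add_right (measure_ne_top _ _) (by simpa using hε)
  have h5 := eventually_lt_of_limsup_lt h4
  filter_upwards [h5] with N hN
  have h6 := ENNReal.toReal_mono
    (ENNReal.add_ne_top.2 ⟨measure_ne_top _ _, ENNReal.ofReal_ne_top⟩) hN.le
  rw [ENNReal.toReal_add (measure_ne_top _ _) ENNReal.ofReal_ne_top,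
    ENNReal.toReal_ofReal hε.le] at h6
  exact h6

/-- Lower bounds pass to the prelimit. -/
lemma eventually_lower (h : IsAiryLimit B P' S P) {M0 : ℝ}
    (hM0 : 1 / 2 < P {ω | -M0 < S ω 0 0}) :
    ∀ᶠ N : ℕ in atTop, 1 / 2 ≤ P' {ω' | -M0 ≤ onePt (fun j t => B j t ω') N} := by
  have h1 := tendsto_onePt h
  have h2 := ProbabilityMeasure.le_liminf_measure_open_of_tendsto h1.tendsto
    (isOpen_Ioi (a := -M0))
  simp only [ProbabilityMeasure.coe_mk] at h2
  rw [Measure.map_apply_of_aemeasurable h1.aemeasurable_limit measurableSet_Ioi] at h2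
  have h3 : ∀ N : ℕ, (P'.map (fun ω' => onePt (fun j t => B j t ω') N)) (Ioi (-M0)) =
      P' {ω' | -M0 < onePt (fun j t => B j t ω') N} := fun N =>
    Measure.map_apply_of_aemeasurable (h1.forall_aemeasurable N) measurableSet_Ioi
  simp only [h3] at h2
  have h4 := eventually_lt_of_lt_liminf (lt_of_lt_of_le hM0 h2)
  filter_upwards [h4] with N hN
  refine hN.le.trans (measure_mono ?_)
  intro ω' hω'
  simp only [Set.mem_ofPred_eq] at hω' ⊢
  exact hω'.le

/-- The one-point law of the Airy sheet. -/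
lemma identDistrib_airy (hB : IsBrownianLines B P') (h : IsAiryLimit B P' S P) (x y : ℝ) :
    IdentDistrib (fun ω => S ω x y) (fun ω => S ω 0 0 - (x - y) ^ 2) P P := by
  set c : ℝ := y - x with hc
  -- deterministic sequences
  set α : ℕ → ℝ := fun N => √(1 + 2 * c / ((N : ℝ) ^ ((1 : ℝ) / 6)) ^ 2) with hα
  set β : ℕ → ℝ := fun N => -(4 * c ^ 2) / (α N + 1) ^ 2 with hβ
  have hlim0 : Tendsto (fun N : ℕ => 1 + 2 * c / ((N : ℝ) ^ ((1 : ℝ) / 6)) ^ 2) atTop
      (𝓝 (1 + 0)) := by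
    refine tendsto_const_nhds.add ?_
    refine Tendsto.div_atTop tendsto_const_nhds ?_
    exact (tendsto_pow_atTop (by norm_num)).comp tendsto_rpow_sixth
  rw [add_zero] at hlim0
  have hαlim : Tendsto α atTop (𝓝 1) := by
    have := (Real.continuous_sqrt.tendsto 1).comp hlim0
    rwa [Real.sqrt_one] at this
  have hβlim : Tendsto β atTop (𝓝 (-(x - y) ^ 2)) := by
    have : Tendsto β atTop (𝓝 (-(4 * c ^ 2) / (1 + 1) ^ 2)) :=
      tendsto_const_nhds.div ((hαlim.add_const 1).pow 2) (by norm_num)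
    convert this using 2
    rw [hc]
    ring
  -- Slutsky
  have h1 := tendsto_onePt h
  have h2 : TendstoInDistribution
      (fun (N : ℕ) ω' => α N * onePt (fun j t => B j t ω') N + β N) atTop
      (fun ω => 1 * S ω 0 0 + (-(x - y) ^ 2)) (fun _ => P') P := by
    have hY : TendstoInMeasure P' (fun (N : ℕ) (_ : Ω') => (α N, β N)) atTop
        (fun _ => ((1 : ℝ), -(x - y) ^ 2)) := by
      refine tendstoInMeasure_of_tendsto_ae (fun N => aestronglyMeasurable_const)
        (ae_of_all _ fun _ => ?_)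
      exact hαlim.prodMk_nhds hβlim
    exact h1.continuous_comp_prodMk_of_tendstoInMeasure_const
      (g := fun v : ℝ × (ℝ × ℝ) => v.2.1 * v.1 + v.2.2) (by fun_prop) hY
      (fun N => aemeasurable_const)
  have h3 := tendsto_onePoint h (x, y)
  -- eventually equal laws
  have hev : ∀ᶠ N : ℕ in atTop,
      P'.map (fun ω' => airyPre (fun j t => B j t ω') N (x, y)) =
      P'.map (fun ω' => α N * onePt (fun j t => B j t ω') N + β N) := by
    filter_upwards [hlim0.eventually (lt_mem_nhds (zero_lt_one' ℝ)), eventually_ge_atTop 1]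
      with N hpos hN
    have hνpos := rpow_sixth_pos hN
    set ν : ℝ := (N : ℝ) ^ ((1 : ℝ) / 6) with hν
    have hν6 : ν ^ 6 = N := rpow_sixth_pow N
    have hab : 2 * x * (ν ^ 2)⁻¹ < 1 + 2 * y * (ν ^ 2)⁻¹ := by
      have e : 2 * c / ν ^ 2 = 2 * y * (ν ^ 2)⁻¹ - 2 * x * (ν ^ 2)⁻¹ := by
        rw [hc]
        field_simp
      rw [e] at hpos
      linarith
    have hid := (hB.identDistrib_scale 0 (n := N) hN hab).comp
      (u := fun v => ν * (v - 2 * ν ^ 3 - 2 * (y - x) * ν)) (by fun_prop)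
    have e1 : (fun v => ν * (v - 2 * ν ^ 3 - 2 * (y - x) * ν)) ∘
        (fun ω' => lpp (fun j t => B j t ω') 0 N (2 * x * (ν ^ 2)⁻¹) (1 + 2 * y * (ν ^ 2)⁻¹)) =
        fun ω' => airyPre (fun j t => B j t ω') N (x, y) := by
      ext ω'
      unfold airyPre
      simp only [Function.comp]
      rw [rpow_neg_third hνpos hν6, ← hν, sqrt_eq_cube hνpos hν6]
    have e2 : (fun v => ν * (v - 2 * ν ^ 3 - 2 * (y - x) * ν)) ∘
        (fun ω' => √(1 + 2 * y * (ν ^ 2)⁻¹ - 2 * x * (ν ^ 2)⁻¹) *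
          lpp (fun j t => B j t ω') 0 N 0 1) =
        fun ω' => α N * onePt (fun j t => B j t ω') N + β N := by
      ext ω'
      unfold onePt
      simp only [Function.comp]
      rw [← hν, sqrt_eq_cube hνpos hν6]
      have e3 : 1 + 2 * y * (ν ^ 2)⁻¹ - 2 * x * (ν ^ 2)⁻¹ = 1 + 2 * c / ν ^ 2 := by
        rw [hc]
        field_simp
        ring
      rw [e3]
      have e4 : α N = √(1 + 2 * c / ν ^ 2) := rfl
      rw [← e4]
      have hα0 : 0 ≤ α N := Real.sqrt_nonneg _
      have hαsq : α N ^ 2 = 1 + 2 * c / ν ^ 2 := Real.sq_sqrt hpos.le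
      have hcν : 2 * c = (α N ^ 2 - 1) * ν ^ 2 := by
        rw [hαsq]
        field_simp
        ring
      have hβN : β N = -((α N ^ 2 - 1) * ν ^ 2) ^ 2 / (α N + 1) ^ 2 := by
        simp only [hβ]
        rw [← hcν]
        ring
      have hβN' : β N = -((α N - 1) ^ 2 * ν ^ 4) := by
        rw [hβN]
        have : (α N + 1) ≠ 0 := by positivity
        field_simp
        ring
      rw [hβN', ← hc]
      have e5 : 2 * (y - x) * ν = (α N ^ 2 - 1) * ν ^ 2 * ν := by
        rw [← hcν]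
      have : ν * (α N * lpp (fun j t => B j t ω') 0 N 0 1 - 2 * ν ^ 3 - 2 * c * ν) =
          ν * (α N * lpp (fun j t => B j t ω') 0 N 0 1 - 2 * ν ^ 3 -
            (α N ^ 2 - 1) * ν ^ 2 * ν) := by
        rw [hcν]
      rw [this]
      ring
    rw [e1, e2] at hid
    exact hid.map_eq
  have h4 : TendstoInDistribution (fun (N : ℕ) ω' => airyPre (fun j t => B j t ω') N (x, y)) atTop
      (fun ω => 1 * S ω 0 0 + (-(x - y) ^ 2)) (fun _ => P') P := by
    refine ⟨h3.forall_aemeasurable, h2.aemeasurable_limit, ?_⟩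
    refine h2.tendsto.congr' ?_
    filter_upwards [hev] with N hN
    exact Subtype.ext hN.symm
  have h5 := tendstoInDistribution_unique _ h3 h4
  refine ⟨h3.aemeasurable_limit, ?_, ?_⟩
  · have := h2.aemeasurable_limit
    simpa [sub_eq_add_neg] using this
  · rw [h5]
    congr 1
    ext ω
    ring

/-- All Airy sheets have the same one-point law at the origin. -/
lemma identDistrib_airy_airy {Ω2 Ω2' : Type*} {mΩ2 : MeasurableSpace Ω2}
    {mΩ2' : MeasurableSpace Ω2'} {P2 : Measure Ω2} {P2' : Measure Ω2'} [IsProbabilityMeasure P2]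
    [IsProbabilityMeasure P2'] {B2 : ℕ → ℝ → Ω2' → ℝ} {S2 : Ω2 → ℝ → ℝ → ℝ}
    (hB : IsBrownianLines B P') (h : IsAiryLimit B P' S P)
    (hB2 : IsBrownianLines B2 P2') (h2 : IsAiryLimit B2 P2' S2 P2) :
    IdentDistrib (fun ω => S ω 0 0) (fun ω => S2 ω 0 0) P P2 := by
  have h1 := tendsto_onePt h
  have h3 := tendsto_onePt h2
  have h4 : TendstoInDistribution (fun (N : ℕ) ω' => onePt (fun j t => B j t ω') N) atTop
      (fun ω => S2 ω 0 0) (fun _ => P') P2 := by
    refine ⟨h1.forall_aemeasurable, h3.aemeasurable_limit, ?_⟩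
    refine h3.tendsto.congr' ?_
    filter_upwards [eventually_ge_atTop 1] with N hN
    exact Subtype.ext (hB.onePt_identDistrib hB2 hN).map_eq.symm
  exact ⟨h1.aemeasurable_limit, h3.aemeasurable_limit, tendstoInDistribution_unique _ h1 h4⟩

/-- **Decorrelation for the Airy sheet.** -/
lemma airy_cov (hB : IsBrownianLines B P') (h : IsAiryLimit B P' S P) {x x' M M0 : ℝ}
    (hM0 : 0 < M0) (hM : 0 < M) (hlow : 1 / 2 < P {ω | -M0 < S ω 0 0}) (hx : x < x')
    (hc : 0 ≤ ((x' - x) / 2) ^ 2 / 2 - 1 - M / 2 - 2 * M0) :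
    |P[fun ω => trunc M (S ω x x) * trunc M (S ω x' x')] -
      P[fun ω => trunc M (S ω x x)] * P[fun ω => trunc M (S ω x' x')]| ≤
      32 * M ^ 2 * P.real {ω | (((x' - x) / 2) ^ 2 / 2 - 1 - M / 2 - 2 * M0) / 2 ≤ S ω 0 0} := by
  set c0 : ℝ := (((x' - x) / 2) ^ 2 / 2 - 1 - M / 2 - 2 * M0) / 2 with hc0
  set D : ℝ := (x' - x) / 2 with hD
  have hDpos : 0 < D := by rw [hD]; linarith
  have t1 := two_point_integral h (x, x) (x', x')
    (f := fun v => trunc M v.1 * trunc M v.2)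
    (((continuous_trunc M).comp continuous_fst).mul ((continuous_trunc M).comp continuous_snd))
    (C := M * M) (fun v => by
      rw [abs_mul]
      exact mul_le_mul (abs_trunc_le hM.le _) (abs_trunc_le hM.le _) (abs_nonneg _) hM.le)
  have t2 := two_point_integral h (x, x) (x', x') (f := fun v => trunc M v.1)
    ((continuous_trunc M).comp continuous_fst) (C := M) (fun v => abs_trunc_le hM.le _)
  have t3 := two_point_integral h (x, x) (x', x') (f := fun v => trunc M v.2)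
    ((continuous_trunc M).comp continuous_snd) (C := M) (fun v => abs_trunc_le hM.le _)
  have t4 := (t1.sub (t2.mul t3)).abs
  refine le_of_forall_pos_le_add fun ε hε => ?_
  -- choose the tail error
  have hε' : 0 < ε / (32 * M ^ 2) := by positivity
  have tN : Tendsto (fun N : ℕ => 2 * N) atTop atTop :=
    tendsto_atTop_mono (fun N => by simp only [id]; omega) tendsto_id
  have ev1 := tN.eventually (eventually_tail_le h c0 hε')
  have ev2 := eventually_lower h hlow
  obtain ⟨N0, hN0⟩ := eventually_atTop.1 ev2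
  refine le_of_tendsto t4 ?_
  have evν : ∀ K : ℝ, ∀ᶠ N : ℕ in atTop, K ≤ (N : ℝ) ^ ((1 : ℝ) / 6) := fun K =>
    tendsto_rpow_sixth.eventually_ge_atTop K
  filter_upwards [ev1, eventually_ge_atTop N0, eventually_ge_atTop 1, evν 1, evν (4 * D),
    evν (D ^ 3), evν (1 / (4 * D))] with N h1 h2 h3 h4 h5 h6 h7
  have hνpos := rpow_sixth_pos h3
  set ν : ℝ := (N : ℝ) ^ ((1 : ℝ) / 6) with hν
  have hν6 : ν ^ 6 = N := rpow_sixth_pow N
  have hνν : ν ≤ ν ^ 2 := by nlinarith
  have hνν4 : ν ≤ ν ^ 4 := by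
    calc ν = ν ^ 1 := (pow_one ν).symm
      _ ≤ ν ^ 4 := pow_le_pow_right₀ h4 (by norm_num)
  have hcov := hB.cov_pre h3 (x := x) (x' := x') hνpos hν6 hM0 hM
    (fun n hn _ => hN0 n (h2.trans hn)) hx (by rw [← hD]; linarith) (by rw [← hD]; linarith)
    (by
      rw [← hD]
      rw [div_le_iff₀ (by positivity)] at h7
      nlinarith) hc
  simp only [airyPre_diag _ hνpos hν6]
  refine hcov.trans ?_
  have h8 : P'.real {ω | c0 < onePt (fun j t => B j t ω) (2 * N)} ≤
      P.real {ω | c0 ≤ S ω 0 0} + ε / (32 * M ^ 2) := by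
    have h9 : P'.real {ω | c0 < onePt (fun j t => B j t ω) (2 * N)} ≤
        P'.real {ω | c0 ≤ onePt (fun j t => B j t ω) (2 * N)} := by
      refine measureReal_mono ?_
      intro ω hω
      simp only [Set.mem_ofPred_eq] at hω ⊢
      exact hω.le
    exact h9.trans h1
  calc 32 * M ^ 2 * P'.real {ω | c0 < onePt (fun j t => B j t ω) (2 * N)}
      ≤ 32 * M ^ 2 * (P.real {ω | c0 ≤ S ω 0 0} + ε / (32 * M ^ 2)) := by gcongr
    _ = 32 * M ^ 2 * P.real {ω | c0 ≤ S ω 0 0} + ε := by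
      field_simp

end Limit

end Pool.Agent.Lib.MP_cd6101_pr
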