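import Pool.Agent.Lib.MP_cd6101_pr.Landscape

/-!
# Suprema over boxes of starting and end points
-/

open Set Topology MeasureTheory ProbabilityTheory Filter

namespace Pool.Agent.Lib.MP_cd6101_pr

variable {Ω : Type*} {mΩ : MeasurableSpace Ω} {P : Measure Ω} [IsProbabilityMeasure P]
  {L : Ω → ℝ → ℝ → ℝ → ℝ → ℝ}

/-- Quadratic upper tail. -/
lemma tail_bound2 (hL : IsDirectedLandscape L P) : ∃ K : ℝ, 0 < K ∧ ∀ c, 0 < c →
    c ^ 2 * tailF L P c ≤ K := by
  obtain ⟨C, hC, hq⟩ := exists_lower hL (η := 1 / 40) (by norm_num)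
  have h1 := (tendsto_tailF hL).eventually (ge_mem_nhds (by norm_num : (0 : ℝ) < 1 / 20))
  obtain ⟨n0, hn0⟩ := h1.exists
  set K : ℝ := max (max n0 (20 * C)) 1 with hK
  have hK1 : 1 ≤ K := le_max_right _ _
  have hKn : (n0 : ℝ) ≤ K := (le_max_left _ _).trans (le_max_left _ _)
  have hKC : 20 * C ≤ K := (le_max_right _ _).trans (le_max_left _ _)
  have hcube : (2 : ℝ) ^ ((1 : ℝ) / 3) ≤ 1.26 := by
    have h2cube : ((2 : ℝ) ^ ((1 : ℝ) / 3)) ^ 3 = 2 := by
      rw [← Real.rpow_natCast, ← Real.rpow_mul two_pos.le]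
      norm_num
    by_contra hcon
    push Not at hcon
    have := pow_lt_pow_left₀ hcon (by norm_num) (n := 3) (by norm_num)
    rw [h2cube] at this
    norm_num at this
  have h2pos : (0 : ℝ) < 2 ^ ((1 : ℝ) / 3) := Real.rpow_pos_of_pos two_pos _
  have step : ∀ c, K < c → c ^ 2 * tailF L P c ≤ (3 / 4 * c) ^ 2 * tailF L P (3 / 4 * c) := by
    intro c hc
    have hrec := tail_recursion hL C c
    have hTc : tailF L P c ≤ 1 / 20 := (tailF_anti (hKn.trans hc.le)).trans hn0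
    have hT0 : 0 ≤ tailF L P c := tailF_nonneg c
    have hle : 3 / 4 * c ≤ (c - C) / 2 ^ ((1 : ℝ) / 3) := by
      rw [le_div_iff₀ h2pos]
      nlinarith
    have h3 : tailF L P ((c - C) / 2 ^ ((1 : ℝ) / 3)) ≤ tailF L P (3 / 4 * c) := tailF_anti hle
    have h4 : tailF L P c * (19 / 10) ≤ tailF L P (3 / 4 * c) := by nlinarith
    have h5 : 0 ≤ tailF L P (3 / 4 * c) := tailF_nonneg _
    have hc0 : 0 < c := by linarith
    have h6 : tailF L P c ≤ 9 / 16 * tailF L P (3 / 4 * c) := by linarith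
    have h7 : 0 ≤ c ^ 2 := by positivity
    nlinarith
  have main : ∀ n : ℕ, ∀ c, 0 < c → c ≤ K * (4 / 3) ^ n → c ^ 2 * tailF L P c ≤ K ^ 2 := by
    intro n
    induction n with
    | zero =>
      intro c hc hcK
      rw [pow_zero, mul_one] at hcK
      have := tailF_le_one (L := L) (P := P) c
      have h0 := tailF_nonneg (L := L) (P := P) c
      have h1 : c ^ 2 ≤ K ^ 2 := pow_le_pow_left₀ hc.le hcK 2
      have h2 : 0 ≤ c ^ 2 := by positivity
      nlinarith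
    | succ n ih =>
      intro c hc hcK
      by_cases h : c ≤ K
      · have := tailF_le_one (L := L) (P := P) c
        have h0 := tailF_nonneg (L := L) (P := P) c
        have h1 : c ^ 2 ≤ K ^ 2 := pow_le_pow_left₀ hc.le h 2
        have h2 : 0 ≤ c ^ 2 := by positivity
        nlinarith
      · push Not at h
        refine (step c h).trans (ih (3 / 4 * c) (by linarith) ?_)
        rw [pow_succ] at hcK
        linarith
  refine ⟨K ^ 2, by positivity, fun c hc => ?_⟩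
  obtain ⟨n, hn⟩ := pow_unbounded_of_one_lt (c / K) (by norm_num : (1 : ℝ) < 4 / 3)
  refine main n c hc ?_
  rw [div_lt_iff₀ (by linarith)] at hn
  linarith

/-- A lower bound holding with probability one half. -/
lemma half_box (hL : IsDirectedLandscape L P) {M0 : ℝ} (hM0 : 0 < M0)
    (hlow : 1 / 2 < P {ω | -M0 < refVar L ω}) {x y s t a B w : ℝ} (ha : 0 < a) (hB : 0 < B)
    (h1 : a ≤ t - s) (h2 : t - s ≤ B ^ 3) (hw : |x - y| ≤ w) :
    1 / 2 ≤ P {ω | -(B * M0 + w ^ 2 / a) ≤ L ω x s y t} := by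
  set e : ℝ := (t - s) ^ ((1 : ℝ) / 3) with he
  have he0 : 0 < e := Real.rpow_pos_of_pos (by linarith) _
  have he3 : e ^ 3 = t - s := by
    rw [he, ← Real.rpow_natCast, ← Real.rpow_mul (by linarith)]
    norm_num
  have hle2 : e ≤ B := by
    by_contra hcon
    push Not at hcon
    have := pow_lt_pow_left₀ hcon hB.le (n := 3) (by norm_num)
    rw [he3] at this
    linarith
  have hid := hL.onePoint x y s t he0 (by rw [he3]; ring)
  have h3 := hid.measure_mem_eq (measurableSet_Ici (a := -(B * M0 + w ^ 2 / a)))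
  have h4 : P {ω | -(B * M0 + w ^ 2 / a) ≤ L ω x s y t} =
      P {ω | -(B * M0 + w ^ 2 / a) ≤ e * refVar L ω - (x - y) ^ 2 / e ^ 3} := h3
  rw [h4]
  refine hlow.le.trans (measure_mono ?_)
  intro ω hω
  simp only [Set.mem_ofPred_eq] at hω ⊢
  have h5 : (x - y) ^ 2 / e ^ 3 ≤ w ^ 2 / a := by
    rw [he3]
    have : (x - y) ^ 2 ≤ w ^ 2 := sq_le_sq' (by linarith [neg_abs_le (x - y)])
      (by linarith [le_abs_self (x - y)])
    gcongr
  have h6 : e * -M0 ≤ e * refVar L ω := by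
    have := hω.le
    gcongr
  have h7 : e * M0 ≤ B * M0 := by gcongr
  linarith

/-- The supremum over a box of starting points and a box of end points. -/
lemma box_sup (hL : IsDirectedLandscape L P) {M0 : ℝ} (hM0 : 0 < M0)
    (hlow : 1 / 2 < P {ω | -M0 < refVar L ω}) {x0 y0 s0 t0 a B w c : ℝ} (ha : 0 < a)
    (hB : 0 < B) :
    P {ω | ∃ x s y t, |x - x0| < w ∧ |y - y0| < w ∧ s0 + a < s ∧ s < s0 + B ^ 3 ∧
        t0 - B ^ 3 < t ∧ t < t0 - a ∧ s < t ∧ c < L ω x s y t} ≤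
      4 * P {ω | c - 2 * (B * M0 + w ^ 2 / a) < L ω x0 s0 y0 t0} := by
  have : Countable (ℚ ×ₗ ℚ) := inferInstanceAs (Countable (ℚ × ℚ))
  set M := B * M0 + w ^ 2 / a with hM
  -- backward step
  set E1 : Set Ω := {ω | ∃ x s : ℚ, |(x : ℝ) - x0| < w ∧ s0 + a < s ∧ (s : ℝ) < s0 + B ^ 3 ∧
    (s : ℝ) < t0 ∧ c - M < L ω x s y0 t0} with hE1
  have hback : P E1 ≤ 2 * P {ω | c - 2 * M < L ω x0 s0 y0 t0} := by
    have key := abstract_max (P := P) (ι := ℚ ×ₗ ℚ)
      {j | |((ofLex j).2 : ℝ) - x0| < w ∧ s0 + a < -((ofLex j).1 : ℝ) ∧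
        -((ofLex j).1 : ℝ) < s0 + B ^ 3 ∧ -((ofLex j).1 : ℝ) < t0}
      (fun j => timeSigma L (-((ofLex j).1 : ℝ)) t0)
      (fun j => timeSigma L s0 (-((ofLex j).1 : ℝ)))
      (fun j => hL.timeSigma_le _ _) (fun j => hL.timeSigma_le _ _)
      (fun j j' hjj => timeSigma_mono (by
        have h1 : (ofLex j).1 ≤ (ofLex j').1 := by
          rcases Prod.Lex.le_iff.1 hjj with h | h
          · exact h.le
          · exact h.1.le
        have h2 : ((ofLex j).1 : ℝ) ≤ ((ofLex j').1 : ℝ) := by exact_mod_cast h1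
        linarith) le_rfl)
      (fun j _ => (hL.indep_pair le_rfl).symm)
      (fun j => {ω | c - M < L ω (ofLex j).2 (-((ofLex j).1 : ℝ)) y0 t0})
      (fun j => {ω | -M ≤ L ω x0 s0 (ofLex j).2 (-((ofLex j).1 : ℝ))})
      (fun j hj => measurable_timeSigma L le_rfl hj.2.2.2 le_rfl measurableSet_Ioi)
      (fun j hj => measurable_timeSigma L le_rfl (by linarith [hj.2.1]) le_rfl
        measurableSet_Ici)
      (fun j hj => half_box hL hM0 hlow ha hB (by linarith [hj.2.1]) (by linarith [hj.2.2.1])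
        (by rw [abs_sub_comm]; exact hj.1.le))
      {ω | c - 2 * M < L ω x0 s0 y0 t0} (fun j hj => by
        filter_upwards [hL.composition] with ω hω h1 h2
        have h3 : L ω x0 s0 (ofLex j).2 (-((ofLex j).1 : ℝ)) +
            L ω (ofLex j).2 (-((ofLex j).1 : ℝ)) y0 t0 ≤ L ω x0 s0 y0 t0 :=
          (hω x0 s0 y0 t0 (-((ofLex j).1 : ℝ)) (by linarith [hj.2.1]) hj.2.2.2).2 ⟨_, rfl⟩
        have h1' : c - M < L ω (ofLex j).2 (-((ofLex j).1 : ℝ)) y0 t0 := h1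
        have h2' : -M ≤ L ω x0 s0 (ofLex j).2 (-((ofLex j).1 : ℝ)) := h2
        show c - 2 * M < L ω x0 s0 y0 t0
        linarith)
    refine le_trans (measure_mono ?_) key
    rintro ω ⟨x, s, h1, h2, h3, h4, h5⟩
    simp only [Set.mem_iUnion, exists_prop]
    refine ⟨toLex (-s, x), ⟨?_, ?_, ?_, ?_⟩, ?_⟩
    · simpa using h1
    · simpa using h2
    · simpa using h3
    · simpa using h4
    · have e1 : (-(((ofLex (toLex (-s, x))).1 : ℚ) : ℝ)) = (s : ℝ) := by simp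
      have e2 : (((ofLex (toLex (-s, x))).2 : ℚ) : ℝ) = (x : ℝ) := by simp
      show c - M < L ω (((ofLex (toLex (-s, x))).2 : ℚ) : ℝ)
        (-(((ofLex (toLex (-s, x))).1 : ℚ) : ℝ)) y0 t0
      rw [e1, e2]
      exact h5
  -- forward step
  set E0 : Set Ω := {ω | ∃ x s y t : ℚ, |(x : ℝ) - x0| < w ∧ |(y : ℝ) - y0| < w ∧
    s0 + a < s ∧ (s : ℝ) < s0 + B ^ 3 ∧ t0 - B ^ 3 < t ∧ (t : ℝ) < t0 - a ∧ (s : ℝ) < t ∧
    c < L ω x s y t} with hE0
  have hforw : P E0 ≤ 2 * P E1 := by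
    have key := abstract_max (P := P) (ι := ℚ ×ₗ ℚ)
      {j | |((ofLex j).2 : ℝ) - y0| < w ∧ t0 - B ^ 3 < ((ofLex j).1 : ℝ) ∧
        ((ofLex j).1 : ℝ) < t0 - a}
      (fun j => timeSigma L s0 ((ofLex j).1 : ℝ))
      (fun j => timeSigma L ((ofLex j).1 : ℝ) t0)
      (fun j => hL.timeSigma_le _ _) (fun j => hL.timeSigma_le _ _)
      (fun j j' hjj => timeSigma_mono le_rfl (by
        have h1 : (ofLex j).1 ≤ (ofLex j').1 := by
          rcases Prod.Lex.le_iff.1 hjj with h | h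
          · exact h.le
          · exact h.1.le
        exact_mod_cast h1))
      (fun j _ => hL.indep_pair le_rfl)
      (fun j => ⋃ x : ℚ, ⋃ s : ℚ, ⋃ (_ : |(x : ℝ) - x0| < w ∧ s0 + a < s ∧
        (s : ℝ) < s0 + B ^ 3 ∧ (s : ℝ) < ((ofLex j).1 : ℝ)),
        {ω | c < L ω x s (ofLex j).2 ((ofLex j).1 : ℝ)})
      (fun j => {ω | -M ≤ L ω (ofLex j).2 ((ofLex j).1 : ℝ) y0 t0})
      (fun j hj => by
        refine MeasurableSet.iUnion fun x => MeasurableSet.iUnion fun s =>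
          MeasurableSet.iUnion fun hs => ?_
        exact measurable_timeSigma L (by linarith [hs.2.1]) hs.2.2.2 le_rfl measurableSet_Ioi)
      (fun j hj => measurable_timeSigma L le_rfl (by linarith [hj.2.2]) le_rfl
        measurableSet_Ici)
      (fun j hj => half_box hL hM0 hlow ha hB (by linarith [hj.2.2]) (by linarith [hj.2.1])
        hj.1.le)
      E1 (fun j hj => by
        filter_upwards [hL.composition] with ω hω h1 h2
        rw [Set.mem_iUnion] at h1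
        obtain ⟨x, h1⟩ := h1
        rw [Set.mem_iUnion] at h1
        obtain ⟨s, h1⟩ := h1
        rw [Set.mem_iUnion] at h1
        obtain ⟨hs, h1⟩ := h1
        have h1' : c < L ω x s (ofLex j).2 ((ofLex j).1 : ℝ) := h1
        have h2' : -M ≤ L ω (ofLex j).2 ((ofLex j).1 : ℝ) y0 t0 := h2
        have hjt : ((ofLex j).1 : ℝ) < t0 := by linarith [hj.2.2]
        have h3 : L ω x s (ofLex j).2 ((ofLex j).1 : ℝ) +
            L ω (ofLex j).2 ((ofLex j).1 : ℝ) y0 t0 ≤ L ω x s y0 t0 :=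
          (hω x s y0 t0 ((ofLex j).1 : ℝ) hs.2.2.2 hjt).2 ⟨_, rfl⟩
        exact ⟨x, s, hs.1, hs.2.1, hs.2.2.1, hs.2.2.2.trans hjt, by linarith⟩)
    refine le_trans (measure_mono ?_) key
    rintro ω ⟨x, s, y, t, h1, h2, h3, h4, h5, h6, h7, h8⟩
    rw [Set.mem_iUnion₂]
    refine ⟨toLex (t, y), ⟨?_, ?_, ?_⟩, ?_⟩
    · simpa using h2
    · simpa using h5
    · simpa using h6
    · rw [Set.mem_iUnion]
      refine ⟨x, ?_⟩
      rw [Set.mem_iUnion]
      refine ⟨s, ?_⟩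
      rw [Set.mem_iUnion]
      refine ⟨⟨h1, h3, h4, ?_⟩, ?_⟩
      · simpa using h7
      · have e1 : (((ofLex (toLex (t, y))).1 : ℚ) : ℝ) = (t : ℝ) := by simp
        have e2 : (((ofLex (toLex (t, y))).2 : ℚ) : ℝ) = (y : ℝ) := by simp
        show c < L ω x s (((ofLex (toLex (t, y))).2 : ℚ) : ℝ)
          (((ofLex (toLex (t, y))).1 : ℚ) : ℝ)
        rw [e1, e2]
        exact h8
  -- from rational to real points
  have hrat : {ω | ∃ x s y t, |x - x0| < w ∧ |y - y0| < w ∧ s0 + a < s ∧ s < s0 + B ^ 3 ∧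
        t0 - B ^ 3 < t ∧ t < t0 - a ∧ s < t ∧ c < L ω x s y t} ⊆ E0 := by
    rintro ω ⟨x, s, y, t, h1, h2, h3, h4, h5, h6, h7, h8⟩
    have hUopen : IsOpen {q : (ℝ × ℝ) × (ℝ × ℝ) | |q.1.1 - x0| < w ∧ |q.2.1 - y0| < w ∧
        s0 + a < q.1.2 ∧ q.1.2 < s0 + B ^ 3 ∧ t0 - B ^ 3 < q.2.2 ∧ q.2.2 < t0 - a ∧
        q.1.2 < q.2.2} := by
      refine IsOpen.and (isOpen_lt (by fun_prop) continuous_const) ?_
      refine IsOpen.and (isOpen_lt (by fun_prop) continuous_const) ?_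
      refine IsOpen.and (isOpen_lt continuous_const (by fun_prop)) ?_
      refine IsOpen.and (isOpen_lt (by fun_prop) continuous_const) ?_
      refine IsOpen.and (isOpen_lt continuous_const (by fun_prop)) ?_
      refine IsOpen.and (isOpen_lt (by fun_prop) continuous_const) ?_
      exact isOpen_lt (by fun_prop) (by fun_prop)
    have hopen := ((hL.continuous ω).mono (t := {q : (ℝ × ℝ) × (ℝ × ℝ) | |q.1.1 - x0| < w ∧
        |q.2.1 - y0| < w ∧ s0 + a < q.1.2 ∧ q.1.2 < s0 + B ^ 3 ∧ t0 - B ^ 3 < q.2.2 ∧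
        q.2.2 < t0 - a ∧ q.1.2 < q.2.2}) (fun q hq => hq.2.2.2.2.2.2)).isOpen_inter_preimage
        hUopen (isOpen_Ioi (a := c))
    have hdense : DenseRange (Prod.map (Prod.map ((↑) : ℚ → ℝ) ((↑) : ℚ → ℝ))
        (Prod.map ((↑) : ℚ → ℝ) ((↑) : ℚ → ℝ))) :=
      ((Rat.denseRange_cast (𝕜 := ℝ)).prodMap Rat.denseRange_cast).prodMap
        ((Rat.denseRange_cast (𝕜 := ℝ)).prodMap Rat.denseRange_cast)
    obtain ⟨q, hq⟩ := hdense.exists_mem_open hopen
      ⟨((x, s), (y, t)), ⟨h1, h2, h3, h4, h5, h6, h7⟩, h8⟩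
    obtain ⟨⟨q1, q2, q3, q4, q5, q6, q7⟩, q8⟩ := hq
    exact ⟨q.1.1, q.1.2, q.2.1, q.2.2, q1, q2, q3, q4, q5, q6, q7, q8⟩
  calc P {ω | ∃ x s y t, |x - x0| < w ∧ |y - y0| < w ∧ s0 + a < s ∧ s < s0 + B ^ 3 ∧
        t0 - B ^ 3 < t ∧ t < t0 - a ∧ s < t ∧ c < L ω x s y t} ≤ P E0 := measure_mono hrat
    _ ≤ 2 * P E1 := hforw
    _ ≤ 2 * (2 * P {ω | c - 2 * M < L ω x0 s0 y0 t0}) := by gcongr
    _ = 4 * P {ω | c - 2 * M < L ω x0 s0 y0 t0} := by
        rw [← mul_assoc]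
        norm_num

end Pool.Agent.Lib.MP_cd6101_pr
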