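import Pool.Agent.Lib.MP_cd6101_pr.Variance

/-!
# The effect of the shift on the statistic
-/

open Set Topology MeasureTheory ProbabilityTheory Filter

namespace Pool.Agent.Lib.MP_cd6101_pr

lemma trunc_mono (M : ℝ) : Monotone (trunc M) := by
  intro a b hab
  unfold trunc
  exact max_le_max le_rfl (min_le_min le_rfl hab)

lemma trunc_of_abs_le {M v : ℝ} (hv : |v| ≤ M) : trunc M v = v := by
  unfold trunc
  rw [abs_le] at hv
  rw [min_eq_right hv.2, max_eq_right hv.1]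

lemma trunc_neg {M : ℝ} (hM : 0 ≤ M) (v : ℝ) : trunc M (-v) = -trunc M v := by
  unfold trunc
  rcases le_total v M with h1 | h1
  · rcases le_total (-M) v with h2 | h2
    · rw [min_eq_right h1, max_eq_right h2, min_eq_right (by linarith), max_eq_right (by linarith)]
    · rw [min_eq_right h1, max_eq_left h2, min_eq_left (by linarith), max_eq_right (by linarith)]
      ring
  · rw [min_eq_left h1, max_eq_right (by linarith : -M ≤ M), min_eq_right (by linarith : -v ≤ M),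
      max_eq_left (by linarith : -v ≤ -M)]

lemma abs_trunc_sub_le (M v v' : ℝ) : |trunc M v' - trunc M v| ≤ |v' - v| := by
  unfold trunc
  have h1 := abs_max_sub_max_le_abs (min M v') (min M v) (-M)
  have h2 := abs_min_sub_min_le_max M v' M v
  rw [sub_self, abs_zero, max_eq_right (abs_nonneg _)] at h2
  rw [max_comm (-M), max_comm (-M)]
  exact h1.trans h2

/-- Gain of the truncated value on a good box. -/
lemma trunc_gain {M v v' a : ℝ} (ha : 0 ≤ a) (ha1 : a ≤ 1) (hv : |v| ≤ M - 1)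
    (hvv : v + a ≤ v') : a ≤ trunc M v' - trunc M v := by
  have h0 := abs_le.1 hv
  have h1 : trunc M v = v := trunc_of_abs_le (hv.trans (by linarith))
  have h2 : trunc M (v + a) = v + a := trunc_of_abs_le (abs_le.2 ⟨by linarith, by linarith⟩)
  have h3 := trunc_mono M hvv
  rw [h1]
  linarith

/-- Gain of the truncated value on a good box, with a sign. -/
lemma trunc_gain_signed {σ M v v' a : ℝ} (hσ : σ = 1 ∨ σ = -1) (ha : 0 ≤ a) (ha1 : a ≤ 1)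
    (hM : 1 ≤ M) (hv : |v| ≤ M - 1) (hvv : a ≤ σ * (v' - v)) :
    a ≤ σ * (trunc M v' - trunc M v) := by
  rcases hσ with rfl | rfl
  · rw [one_mul] at hvv ⊢
    exact trunc_gain ha ha1 hv (by linarith)
  · have h := trunc_gain (v := -v) (v' := -v') ha ha1 (by rwa [abs_neg]) (by linarith)
    rw [trunc_neg (by linarith), trunc_neg (by linarith)] at h
    linarith

/-- The bad event of a box. -/
def badSet {Ω : Type*} (L : Ω → ℝ → ℝ → ℝ → ℝ → ℝ) (ρ x0 t0 M : ℝ) (k j i : ℕ) : Set Ω :=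
  boxBad L (colX ρ x0 k i) (rowT ρ t0 k j) (ρ ^ 2) (epsK ρ k) ∪
    {ω | M - 1 < |(epsK ρ k)⁻¹ * boxVal ρ x0 t0 k (L ω) j i|}

lemma colX_mem {ρ : ℝ} (hρ : 0 < ρ) (x0 : ℝ) {k i : ℕ} (hk : 1 ≤ k) (hi : i < k ^ 4) :
    x0 ≤ colX ρ x0 k i ∧ colX ρ x0 k i ≤ x0 + ρ ^ 2 := by
  have hk0 : (0 : ℝ) < k := by exact_mod_cast hk
  have h1 : (i : ℝ) ≤ (k : ℝ) ^ 4 := by exact_mod_cast hi.le
  have h2 : (k : ℝ) ^ 4 * ((k : ℝ) ^ 2 * epsK ρ k ^ 2) = ρ ^ 2 := by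
    unfold epsK
    field_simp
  have h3 : 0 ≤ (k : ℝ) ^ 2 * epsK ρ k ^ 2 := by positivity
  unfold colX
  constructor
  · have : 0 ≤ (i : ℝ) * ((k : ℝ) ^ 2 * epsK ρ k ^ 2) := by positivity
    linarith
  · rw [← h2]
    gcongr

lemma rowT_mem {ρ : ℝ} (hρ : 0 < ρ) (t0 : ℝ) {k j : ℕ} (hk : 1 ≤ k) (hj : j < k ^ 9) :
    t0 ≤ rowT ρ t0 k j ∧ rowT ρ t0 k j + epsK ρ k ^ 3 ≤ t0 + ρ ^ 3 := by
  have hk0 : (0 : ℝ) < k := by exact_mod_cast hk
  have h1 : (j : ℝ) + 1 ≤ (k : ℝ) ^ 9 := by exact_mod_cast hj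
  have h2 : (k : ℝ) ^ 9 * epsK ρ k ^ 3 = ρ ^ 3 := by
    unfold epsK
    field_simp
  have h3 : 0 < epsK ρ k ^ 3 := by
    have := epsK_pos hρ hk
    positivity
  constructor
  · unfold rowT
    have : 0 ≤ (j : ℝ) * epsK ρ k ^ 3 := by positivity
    linarith
  · rw [← rowT_succ, ← h2]
    unfold rowT
    push_cast
    have := mul_le_mul_of_nonneg_right h1 h3.le
    linarith

/-- Deterministic effect of the shift on a single box. -/
lemma box_effect {h : ℝ × ℝ → ℝ} {ℓ : ℝ → ℝ → ℝ → ℝ → ℝ} (hh : Continuous h) {H c₀ σ : ℝ}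
    (hH : ∀ p, |h p| ≤ H) (hc₀ : 0 < c₀) (hσ : σ = 1 ∨ σ = -1) {ρ x0 t0 M : ℝ} (hρ : 0 < ρ)
    (hρ1 : ρ ≤ 1) (hM : 1 ≤ M)
    (hbox : ∀ z r, |z - x0| ≤ 2 * ρ ^ 2 → t0 ≤ r → r ≤ t0 + ρ ^ 3 → c₀ ≤ σ * h (z, r))
    {k : ℕ} (hk : 1 ≤ k) (hkM : 2 * (M - 1) + 2 * (H + c₀) < (k : ℝ)) {j i : ℕ}
    (hj : j < k ^ 9) (hi : i < k ^ 4)
    (hlen : ∀ x s y t, s < t →
      (ℓ x s y t : EReal) = ⨆ (π : ℝ → ℝ) (_ : IsPath x s y t π), pathLength ℓ s t π)
    {v' : ℝ} (hv' : (v' : EReal) = hShift h ℓ (colX ρ x0 k i) (rowT ρ t0 k j) (colX ρ x0 k i)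
      (rowT ρ t0 k j + epsK ρ k ^ 3)) :
    (-(H * epsK ρ k ^ 2) ≤ σ * (trunc M ((epsK ρ k)⁻¹ * v') -
      trunc M ((epsK ρ k)⁻¹ * boxVal ρ x0 t0 k ℓ j i))) ∧
    ((∀ z, (z = colX ρ x0 k i + ρ ^ 2 ∨ z = colX ρ x0 k i - ρ ^ 2) →
      ∀ r ∈ Ioo (rowT ρ t0 k j) (rowT ρ t0 k j + epsK ρ k ^ 3),
      ℓ (colX ρ x0 k i) (rowT ρ t0 k j) z r ≤ -((ρ ^ 2) ^ 2 / (4 * epsK ρ k ^ 3)) ∧
      ℓ z r (colX ρ x0 k i) (rowT ρ t0 k j + epsK ρ k ^ 3) ≤
        -((ρ ^ 2) ^ 2 / (4 * epsK ρ k ^ 3))) →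
      |(epsK ρ k)⁻¹ * boxVal ρ x0 t0 k ℓ j i| ≤ M - 1 →
      c₀ * epsK ρ k ^ 2 ≤ σ * (trunc M ((epsK ρ k)⁻¹ * v') -
      trunc M ((epsK ρ k)⁻¹ * boxVal ρ x0 t0 k ℓ j i))) := by
  have hε := epsK_pos hρ hk
  have hk0 : (0 : ℝ) < k := by exact_mod_cast hk
  have hk1 : (1 : ℝ) ≤ k := by exact_mod_cast hk
  set ε := epsK ρ k with hεd
  set x := colX ρ x0 k i with hx
  set s := rowT ρ t0 k j with hs
  set v := boxVal ρ x0 t0 k ℓ j i with hv
  have hvv : v = ℓ x s x (s + ε ^ 3) := rfl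
  have hε3 : 0 < ε ^ 3 := by positivity
  have hε1 : ε ≤ 1 := by
    rw [hεd]
    unfold epsK
    rw [div_le_one (by positivity)]
    exact hρ1.trans (one_le_pow₀ hk1)
  have hH0 : 0 ≤ H := (abs_nonneg _).trans (hH (0, 0))
  have hst : s < s + ε ^ 3 := by linarith
  have hup := hShift_le (h := h) hH hst (hlen x s x (s + ε ^ 3) hst)
  have hlo := le_hShift' (h := h) hH hst (hlen x s x (s + ε ^ 3) hst)
  rw [← hv', EReal.coe_le_coe_iff, add_sub_cancel_left, ← hvv] at hup hlo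
  have hdiff : |ε⁻¹ * v' - ε⁻¹ * v| ≤ H * ε ^ 2 := by
    rw [← mul_sub, abs_mul, abs_of_pos (inv_pos.2 hε)]
    have h1 : |v' - v| ≤ H * ε ^ 3 := abs_le.2 ⟨by linarith, by linarith⟩
    calc ε⁻¹ * |v' - v| ≤ ε⁻¹ * (H * ε ^ 3) := by gcongr
      _ = H * ε ^ 2 := by field_simp
  constructor
  · have h1 := (abs_trunc_sub_le M (ε⁻¹ * v) (ε⁻¹ * v')).trans hdiff
    have h2 := abs_le.1 h1
    rcases hσ with rfl | rfl <;> linarith
  · intro hbad hvM
    -- the size of ε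
    have hεk : ε ^ 4 * (k : ℝ) ≤ ρ ^ 4 := by
      rw [hεd]
      unfold epsK
      rw [div_pow, div_mul_eq_mul_div, div_le_iff₀ (by positivity)]
      have : (k : ℝ) ≤ ((k : ℝ) ^ 3) ^ 4 := by
        rw [← pow_mul]
        exact le_self_pow₀ hk1 (by norm_num)
      gcongr
    have hc1 : c₀ * ε ^ 2 ≤ 1 := by
      have h1 : ε ^ 2 * (k : ℝ) ≤ 1 := by
        rw [hεd]
        unfold epsK
        rw [div_pow, div_mul_eq_mul_div, div_le_one (by positivity)]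
        have h2 : (k : ℝ) ≤ ((k : ℝ) ^ 3) ^ 2 := by
          rw [← pow_mul]
          exact le_self_pow₀ hk1 (by norm_num)
        have h3 : ρ ^ 2 ≤ 1 := pow_le_one₀ hρ.le hρ1
        nlinarith
      have h2 : c₀ ≤ k := by linarith
      have h3 : 0 ≤ ε ^ 2 := by positivity
      nlinarith
    have hm : 2 * ((ρ ^ 2) ^ 2 / (4 * ε ^ 3)) = ρ ^ 4 / (2 * ε ^ 3) := by
      field_simp
      ring
    have hmain : (M - 1) * ε + (H + c₀) * ε ^ 3 < 2 * ((ρ ^ 2) ^ 2 / (4 * ε ^ 3)) := by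
      rw [hm, lt_div_iff₀ (by positivity)]
      have h4 : 0 < ε ^ 4 := by positivity
      have h5 : ε ^ 6 ≤ ε ^ 4 := pow_le_pow_of_le_one hε.le hε1 (by norm_num)
      have h6 : 0 ≤ H + c₀ := by linarith
      calc ((M - 1) * ε + (H + c₀) * ε ^ 3) * (2 * ε ^ 3)
          = 2 * (M - 1) * ε ^ 4 + 2 * (H + c₀) * ε ^ 6 := by ring
        _ ≤ 2 * (M - 1) * ε ^ 4 + 2 * (H + c₀) * ε ^ 4 := by gcongr
        _ = ε ^ 4 * (2 * (M - 1) + 2 * (H + c₀)) := by ring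
        _ < ε ^ 4 * k := by gcongr
        _ ≤ ρ ^ 4 := hεk
    have hvge : -((M - 1) * ε) ≤ v := by
      have h1 := (abs_le.1 hvM).1
      have h2 : ε * -(M - 1) ≤ ε * (ε⁻¹ * v) := by gcongr
      rw [mul_inv_cancel_left₀ hε.ne'] at h2
      linarith
    have hx1 := colX_mem hρ x0 hk hi
    have ht1 := rowT_mem hρ t0 hk hj
    have hbox' : ∀ z r, |z - x| ≤ ρ ^ 2 → r ∈ Icc s (s + ε ^ 3) → c₀ ≤ σ * h (z, r) := by
      intro z r hz hr
      refine hbox z r ?_ (ht1.1.trans hr.1) (hr.2.trans ht1.2)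
      rw [abs_le] at hz ⊢
      constructor <;> linarith [hz.1, hz.2, hx1.1, hx1.2]
    have hgain : c₀ * ε ^ 3 ≤ σ * (v' - v) := by
      rcases hσ with rfl | rfl
      · have h1 := le_hShift_box (c₀ := c₀) hh hst (by positivity : 0 < ρ ^ 2)
          (hlen x s x (s + ε ^ 3) hst) hbad (by
            rw [← hvv]
            have : 0 ≤ (H + c₀) * ε ^ 3 := by positivity
            linarith)
          (fun z r hz hr => by
            have := hbox' z r hz hr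
            rwa [one_mul] at this)
        rw [← hv', EReal.coe_le_coe_iff, add_sub_cancel_left, ← hvv] at h1
        linarith
      · have h1 := hShift_le_box (c₀ := c₀) hh hH hst (by positivity : 0 < ρ ^ 2)
          (hlen x s x (s + ε ^ 3) hst) hbad (by
            rw [← hvv, add_sub_cancel_left]
            linarith)
          (fun z r hz hr => by
            have := hbox' z r hz hr
            linarith)
        rw [← hv', EReal.coe_le_coe_iff, add_sub_cancel_left, ← hvv] at h1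
        linarith
    refine trunc_gain_signed hσ (by positivity) hc1 hM hvM ?_
    rw [← mul_sub]
    calc c₀ * ε ^ 2 = ε⁻¹ * (c₀ * ε ^ 3) := by field_simp
      _ ≤ ε⁻¹ * (σ * (v' - v)) := by gcongr
      _ = σ * (ε⁻¹ * (v' - v)) := by ring

end Pool.Agent.Lib.MP_cd6101_pr
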