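import Pool.Agent.Lib.MP_cd6101_pr.Defs

/-!
# Existence of geodesics for a deterministic landscape

A function `ℓ` satisfying the metric composition law, continuous, with decay at spatial infinity
and such that short times and macroscopic displacements are very expensive, has geodesics, and
`ℓ x s y t` is the supremum of the lengths of continuous paths.
-/

open Set Topology MeasureTheory ProbabilityTheory Filter

namespace Pool.Agent.Lib.MP_cd6101_pr

/-- Additivity of `ℓ` along `π` on the set of times `G`. -/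
def AddOn (ℓ : ℝ → ℝ → ℝ → ℝ → ℝ) (π : ℝ → ℝ) (G : Set ℝ) : Prop :=
  ∀ a ∈ G, ∀ b ∈ G, ∀ c ∈ G, a < b → b < c →
    ℓ (π a) a (π c) c = ℓ (π a) a (π b) b + ℓ (π b) b (π c) c

/-- The regularity properties used. -/
structure NiceLandscape (ℓ : ℝ → ℝ → ℝ → ℝ → ℝ) : Prop where
  cont : ContinuousOn (fun q : (ℝ × ℝ) × (ℝ × ℝ) => ℓ q.1.1 q.1.2 q.2.1 q.2.2)
    {q | q.1.2 < q.2.2}
  comp : ∀ x r y t s, r < s → s < t →
    IsGreatest (range fun z => ℓ x r z s + ℓ z s y t) (ℓ x r y t)
  dec1 : ∀ x s T, ∃ C, ∀ y t, s < t → t ≤ T → ℓ x s y t ≤ C - |y|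
  dec2 : ∀ y t T, ∃ C, ∀ x s, T ≤ s → s < t → ℓ x s y t ≤ C - |x|
  short : ∀ R δ V : ℝ, 0 < δ → ∃ η > 0, ∀ x s y t, |x| ≤ R → |y| ≤ R → |s| ≤ R → s < t →
    t ≤ s + η → δ ≤ |x - y| → ℓ x s y t ≤ -V

variable {ℓ : ℝ → ℝ → ℝ → ℝ → ℝ}

lemma NiceLandscape.tri (h : NiceLandscape ℓ) {x r y t z s : ℝ} (h1 : r < s) (h2 : s < t) :
    ℓ x r z s + ℓ z s y t ≤ ℓ x r y t := (h.comp x r y t s h1 h2).2 ⟨z, rfl⟩

/-- Extension of an additive path by one time. -/
lemma extend_step (h : NiceLandscape ℓ) {s t r : ℝ} (hr : s < r ∧ r < t) {F : Finset ℝ}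
    (hrF : r ∉ F) {π : ℝ → ℝ}
    (hadd : AddOn ℓ π (insert s (insert t (F : Set ℝ)))) :
    ∃ z, AddOn ℓ (Function.update π r z) (insert s (insert t ((insert r F : Finset ℝ) : Set ℝ))) := by
  classical
  set G : Finset ℝ := insert s (insert t F) with hG
  have hGset : (insert s (insert t (F : Set ℝ))) = (G : Set ℝ) := by
    rw [hG]
    push_cast
    rfl
  have hrG : r ∉ G := by
    rw [hG]
    simp only [Finset.mem_insert, not_or]
    exact ⟨hr.1.ne', hr.2.ne, hrF⟩
  -- neighbours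
  have hlow : (G.filter (· < r)).Nonempty := ⟨s, by simp [hG, hr.1]⟩
  have hupp : (G.filter (r < ·)).Nonempty := ⟨t, by simp [hG, hr.2]⟩
  set a0 := (G.filter (· < r)).max' hlow with ha0
  set b0 := (G.filter (r < ·)).min' hupp with hb0
  have ha0mem := Finset.max'_mem _ hlow
  have hb0mem := Finset.min'_mem _ hupp
  rw [← ha0, Finset.mem_filter] at ha0mem
  rw [← hb0, Finset.mem_filter] at hb0mem
  have hale : ∀ a ∈ G, a < r → a ≤ a0 := fun a ha har =>
    Finset.le_max' _ _ (by simp [ha, har])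
  have hble : ∀ b ∈ G, r < b → b0 ≤ b := fun b hb hbr =>
    Finset.min'_le _ _ (by simp [hb, hbr])
  obtain ⟨z, hz⟩ := (h.comp (π a0) a0 (π b0) b0 r ha0mem.2 hb0mem.2).1
  simp only at hz
  refine ⟨z, ?_⟩
  set π' := Function.update π r z with hπ'
  have hπG : ∀ u ∈ G, π' u = π u := by
    intro u hu
    rw [hπ', Function.update_of_ne]
    rintro rfl
    exact hrG hu
  have hπr : π' r = z := by rw [hπ', Function.update_self]
  set A : ℝ → ℝ → ℝ := fun a b => ℓ (π' a) a (π' b) b with hA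
  have tri : ∀ a b c, a < b → b < c → A a b + A b c ≤ A a c := fun a b c h1 h2 => h.tri h1 h2
  have hAG : ∀ a ∈ G, ∀ b ∈ G, ∀ c ∈ G, a < b → b < c → A a c = A a b + A b c := by
    intro a ha b hb c hc h1 h2
    simp only [hA]
    rw [hπG a ha, hπG b hb, hπG c hc]
    rw [hGset] at hadd
    exact hadd a ha b hb c hc h1 h2
  have hmid : A a0 r + A r b0 = A a0 b0 := by
    simp only [hA]
    rw [hπG a0 ha0mem.1, hπG b0 hb0mem.1, hπr]
    exact hz
  have ha0b0 : a0 < b0 := ha0mem.2.trans hb0mem.2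
  -- the middle case
  have hB : ∀ a ∈ G, ∀ c ∈ G, a < r → r < c → A a c = A a r + A r c := by
    intro a ha c hc har hrc
    refine le_antisymm ?_ (tri a r c har hrc)
    have h1 := hale a ha har
    have h2 := hble c hc hrc
    -- A a b0 ≤ A a r + A r b0
    have h3 : A a b0 ≤ A a r + A r b0 := by
      rcases h1.eq_or_lt with h1 | h1
      · rw [h1]
        exact hmid.ge
      · have h4 := hAG a ha a0 ha0mem.1 b0 hb0mem.1 h1 ha0b0
        have h5 := tri a a0 r h1 ha0mem.2
        linarith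
    rcases h2.eq_or_lt with h2 | h2
    · rw [← h2]
      exact h3
    · have h4 := hAG a ha b0 hb0mem.1 c hc (har.trans hb0mem.2) h2
      have h5 := tri r b0 c hb0mem.2 h2
      linarith
  have hset : (insert s (insert t ((insert r F : Finset ℝ) : Set ℝ))) =
      insert r (G : Set ℝ) := by
    rw [hG]
    ext u
    simp only [Finset.coe_insert, Set.mem_insert_iff]
    tauto
  rw [hset]
  intro a ha b hb c hc hab hbc
  change A a c = A a b + A b c
  rw [Set.mem_insert_iff, Finset.mem_coe] at ha hb hc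
  rcases hb with rfl | hb
  · have ha' : a ∈ G := ha.resolve_left hab.ne
    have hc' : c ∈ G := hc.resolve_left hbc.ne'
    exact hB a ha' c hc' hab hbc
  · rcases ha with rfl | ha
    · have hc' : c ∈ G := hc.resolve_left (hab.trans hbc).ne'
      have h1 := hB a0 ha0mem.1 c hc' ha0mem.2 (hab.trans hbc)
      have h2 := hB a0 ha0mem.1 b hb ha0mem.2 hab
      have h3 := hAG a0 ha0mem.1 b hb c hc' (ha0mem.2.trans hab) hbc
      linarith
    · rcases hc with rfl | hc
      · have h1 := hB a ha b0 hb0mem.1 (hab.trans hbc) hb0mem.2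
        have h2 := hB b hb b0 hb0mem.1 hbc hb0mem.2
        have h3 := hAG a ha b hb b0 hb0mem.1 hab (hbc.trans hb0mem.2)
        linarith
      · exact hAG a ha b hb c hc hab hbc

/-- Bound on the points of an additive path. -/
lemma NiceLandscape.bound (h : NiceLandscape ℓ) (x s y t : ℝ) :
    ∃ C : ℝ, 0 ≤ C ∧ (∀ z r, s < r → r ≤ t → ℓ x s z r ≤ C - |z|) ∧
      (∀ z r, s ≤ r → r < t → ℓ z r y t ≤ C - |z|) := by
  obtain ⟨C1, h1⟩ := h.dec1 x s t
  obtain ⟨C2, h2⟩ := h.dec2 y t s
  refine ⟨max (max C1 C2) 0, le_max_right _ _, fun z r hr hrt => ?_, fun z r hr hrt => ?_⟩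
  · have := h1 z r hr hrt
    have h3 : C1 ≤ max (max C1 C2) 0 := (le_max_left _ _).trans (le_max_left _ _)
    linarith
  · have := h2 z r hr hrt
    have h3 : C2 ≤ max (max C1 C2) 0 := (le_max_right _ _).trans (le_max_left _ _)
    linarith

/-- Additive paths on finite sets of times. -/
lemma exists_finite (h : NiceLandscape ℓ) {x s y t K : ℝ} (hst : s < t)
    (hKx : |x| ≤ K) (hKy : |y| ≤ K)
    (hK : ∀ z r, s < r → r < t → ℓ x s y t = ℓ x s z r + ℓ z r y t → |z| ≤ K)
    (F : Finset ℝ) (hF : ∀ u ∈ F, s < u ∧ u < t) :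
    ∃ π : ℝ → ℝ, π s = x ∧ π t = y ∧ (∀ r, |π r| ≤ K) ∧
      AddOn ℓ π (insert s (insert t (F : Set ℝ))) := by
  classical
  induction F using Finset.induction_on with
  | empty =>
    refine ⟨fun r => if r = s then x else y, if_pos rfl, if_neg hst.ne', fun r => ?_, ?_⟩
    · simp only
      split_ifs
      · exact hKx
      · exact hKy
    · intro a ha b hb c hc hab hbc
      simp only [Finset.coe_empty, insert_empty_eq, Set.mem_insert_iff,
        Set.mem_singleton_iff] at ha hb hc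
      rcases ha with rfl | rfl <;> rcases hb with rfl | rfl <;> rcases hc with rfl | rfl <;>
        first | exact absurd hab (lt_irrefl _) | exact absurd hbc (lt_irrefl _) |
          exact absurd (hab.trans hbc) (lt_irrefl _)
  | insert r F hrF ih =>
    obtain ⟨π, h1, h2, h3, h4⟩ := ih (fun u hu => hF u (Finset.mem_insert_of_mem hu))
    have hr := hF r (Finset.mem_insert_self r F)
    obtain ⟨z, hz⟩ := extend_step h hr hrF h4
    have e1 : Function.update π r z s = x := by
      rw [Function.update_of_ne hr.1.ne, h1]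
    have e2 : Function.update π r z t = y := by
      rw [Function.update_of_ne hr.2.ne', h2]
    refine ⟨Function.update π r z, e1, e2, fun u => ?_, hz⟩
    by_cases hu : u = r
    · subst hu
      rw [Function.update_self]
      have h5 := hz s (by simp) u (by simp) t (by simp) hr.1 hr.2
      rw [e1, e2, Function.update_self] at h5
      exact hK z u hr.1 hr.2 h5
    · rw [Function.update_of_ne hu]
      exact h3 u

lemma continuous_eval_pair (h : NiceLandscape ℓ) {a b : ℝ} (hab : a < b) :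
    Continuous fun π : ℝ → ℝ => ℓ (π a) a (π b) b := by
  have h1 : Continuous fun π : ℝ → ℝ => (((π a, a), (π b, b)) : (ℝ × ℝ) × (ℝ × ℝ)) := by fun_prop
  have h2 := h.cont.comp_continuous h1 (fun π => hab)
  exact h2

/-- Additive paths on the whole time interval. -/
lemma exists_additive (h : NiceLandscape ℓ) {x s y t : ℝ} (hst : s < t) :
    ∃ π : ℝ → ℝ, π s = x ∧ π t = y ∧ (∃ K, ∀ r, |π r| ≤ K) ∧ AddOn ℓ π (Icc s t) := by
  classical
  obtain ⟨C, hC0, hC1, hC2⟩ := h.bound x s y t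
  set K : ℝ := max (max |x| |y|) (C + |ℓ x s y t|) with hKd
  have hKx : |x| ≤ K := (le_max_left _ _).trans (le_max_left _ _)
  have hKy : |y| ≤ K := (le_max_right _ _).trans (le_max_left _ _)
  have hK : ∀ z r, s < r → r < t → ℓ x s y t = ℓ x s z r + ℓ z r y t → |z| ≤ K := by
    intro z r h1 h2 h3
    refine le_trans ?_ (le_max_right _ _)
    have h4 := hC1 z r h1 h2.le
    have h5 := hC2 z r h1.le h2
    have h6 := neg_abs_le (ℓ x s y t)
    have h7 := abs_nonneg (ℓ x s y t)
    linarith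
  -- the sets of times
  let G : Finset ℝ → Set ℝ := fun F =>
    insert s (insert t ((F.filter (fun u => s < u ∧ u < t) : Finset ℝ) : Set ℝ))
  let T : Finset ℝ → Set (ℝ → ℝ) := fun F =>
    {π | π ∈ Set.pi univ (fun _ : ℝ => Icc (-K) K) ∧ π s = x ∧ π t = y ∧ AddOn ℓ π (G F)}
  have hGmono : ∀ F F' : Finset ℝ, F ⊆ F' → G F ⊆ G F' := by
    intro F F' hFF u hu
    simp only [G, Set.mem_insert_iff, Finset.coe_filter, Set.mem_ofPred_eq] at hu ⊢
    rcases hu with hu | hu | hu
    · exact Or.inl hu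
    · exact Or.inr (Or.inl hu)
    · exact Or.inr (Or.inr ⟨hFF hu.1, hu.2⟩)
  have hTmono : ∀ F F' : Finset ℝ, F ⊆ F' → T F' ⊆ T F := by
    rintro F F' hFF π ⟨h1, h2, h3, h4⟩
    have := hGmono F F' hFF
    exact ⟨h1, h2, h3, fun a ha b hb c hc => h4 a (this ha) b (this hb) c (this hc)⟩
  have hclosed : ∀ F, IsClosed (T F) := by
    intro F
    have hpi : IsClosed (Set.pi univ (fun _ : ℝ => Icc (-K) K)) :=
      isClosed_set_pi fun _ _ => isClosed_Icc
    have h1 : IsClosed {π : ℝ → ℝ | π s = x} := isClosed_eq (by fun_prop) continuous_const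
    have h2 : IsClosed {π : ℝ → ℝ | π t = y} := isClosed_eq (by fun_prop) continuous_const
    have h3 : IsClosed {π : ℝ → ℝ | AddOn ℓ π (G F)} := by
      have : {π : ℝ → ℝ | AddOn ℓ π (G F)} = ⋂ a ∈ G F, ⋂ b ∈ G F, ⋂ c ∈ G F, ⋂ (_ : a < b),
          ⋂ (_ : b < c), {π : ℝ → ℝ | ℓ (π a) a (π c) c =
            ℓ (π a) a (π b) b + ℓ (π b) b (π c) c} := by
        ext π
        simp only [AddOn, Set.mem_ofPred_eq, Set.mem_iInter]
      rw [this]
      refine isClosed_biInter fun a _ => isClosed_biInter fun b _ => isClosed_biInter fun c _ =>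
        isClosed_iInter fun hab => isClosed_iInter fun hbc => ?_
      exact isClosed_eq (continuous_eval_pair h (hab.trans hbc))
        ((continuous_eval_pair h hab).add (continuous_eval_pair h hbc))
    exact hpi.inter (h1.inter (h2.inter h3))
  have hcompact : ∀ F, IsCompact (T F) := fun F =>
    (isCompact_univ_pi fun _ : ℝ => isCompact_Icc).of_isClosed_subset (hclosed F)
      (fun π hπ => hπ.1)
  have hnonempty : ∀ F, (T F).Nonempty := by
    intro F
    obtain ⟨π, h1, h2, h3, h4⟩ := exists_finite h hst hKx hKy hK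
      (F.filter (fun u => s < u ∧ u < t)) (fun u hu => (Finset.mem_filter.1 hu).2)
    exact ⟨π, fun r _ => abs_le.1 (h3 r), h1, h2, h4⟩
  have hdir : Directed (· ⊇ ·) T := by
    intro F F'
    exact ⟨F ∪ F', hTmono _ _ Finset.subset_union_left, hTmono _ _ Finset.subset_union_right⟩
  obtain ⟨π, hπ⟩ := IsCompact.nonempty_iInter_of_directed_nonempty_isCompact_isClosed T hdir
    hnonempty hcompact hclosed
  rw [Set.mem_iInter] at hπ
  refine ⟨π, (hπ ∅).2.1, (hπ ∅).2.2.1, ⟨K, fun r => abs_le.2 ((hπ ∅).1 r (Set.mem_univ r))⟩, ?_⟩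
  intro a ha b hb c hc
  have hmem : ∀ u ∈ ({a, b, c} : Finset ℝ), u ∈ Icc s t → u ∈ G {a, b, c} := by
    intro u hu hut
    simp only [G, Set.mem_insert_iff, Finset.coe_filter, Set.mem_ofPred_eq]
    rcases hut.1.eq_or_lt with h1 | h1
    · exact Or.inl h1.symm
    · rcases hut.2.eq_or_lt with h2 | h2
      · exact Or.inr (Or.inl h2)
      · exact Or.inr (Or.inr ⟨hu, h1, h2⟩)
  exact (hπ {a, b, c}).2.2.2 a (hmem a (by simp) ha) b (hmem b (by simp) hb) c
    (hmem c (by simp) hc)

/-- Lower bound for the increments of an additive path. -/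
lemma additive_lower (h : NiceLandscape ℓ) {x s y t : ℝ} (hst : s < t) {π : ℝ → ℝ} (h1 : π s = x)
    (h2 : π t = y) (hadd : AddOn ℓ π (Icc s t)) :
    ∃ V : ℝ, ∀ a b, s ≤ a → a < b → b ≤ t → -V < ℓ (π a) a (π b) b := by
  obtain ⟨C, hC0, hC1, hC2⟩ := h.bound x s y t
  refine ⟨2 * C + |ℓ x s y t| + 1, fun a b ha hab hb => ?_⟩
  have habs := neg_abs_le (ℓ x s y t)
  have hs : s ∈ Icc s t := ⟨le_rfl, hst.le⟩
  have ht : t ∈ Icc s t := ⟨hst.le, le_rfl⟩
  have hbI : b ∈ Icc s t := ⟨ha.trans hab.le, hb⟩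
  have haI : a ∈ Icc s t := ⟨ha, hab.le.trans hb⟩
  -- from s to b
  have hsb : ℓ x s y t - C ≤ ℓ x s (π b) b := by
    rcases hb.eq_or_lt with hb | hb
    · rw [hb, h2]
      linarith
    · have h3 := hadd s hs b hbI t ht (lt_of_le_of_lt ha hab) hb
      rw [h1, h2] at h3
      have h4 := hC2 (π b) b (ha.trans hab.le) hb
      have h5 := abs_nonneg (π b)
      linarith
  rcases ha.eq_or_lt with ha | ha
  · rw [← ha, h1]
    linarith
  · have h3 := hadd s hs a haI b hbI ha hab
    rw [h1] at h3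
    have h4 := hC1 (π a) a ha (hab.le.trans hb)
    have h5 := abs_nonneg (π a)
    linarith

/-- Additive paths are continuous. -/
lemma additive_continuous (h : NiceLandscape ℓ) {x s y t : ℝ} (hst : s < t) {π : ℝ → ℝ}
    (h1 : π s = x) (h2 : π t = y) (hK : ∃ K, ∀ r, |π r| ≤ K) (hadd : AddOn ℓ π (Icc s t)) :
    ContinuousOn π (Icc s t) := by
  obtain ⟨K, hK⟩ := hK
  obtain ⟨V, hV⟩ := additive_lower h hst h1 h2 hadd
  rw [Metric.continuousOn_iff]
  intro r hr δ hδ
  set R : ℝ := max K (max |s| |t|) with hR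
  obtain ⟨η, hη, hshort⟩ := h.short R δ V hδ
  refine ⟨η, hη, fun u hu hur => ?_⟩
  have hRI : ∀ v ∈ Icc s t, |v| ≤ R := by
    intro v hv
    refine le_trans ?_ (le_max_right _ _)
    exact abs_le_max_abs_abs hv.1 hv.2
  have key : ∀ a ∈ Icc s t, ∀ b ∈ Icc s t, a < b → b ≤ a + η → |π a - π b| < δ := by
    intro a ha b hb hab hbη
    by_contra hcon
    push Not at hcon
    have h3 := hshort (π a) a (π b) b ((hK a).trans (le_max_left _ _))
      ((hK b).trans (le_max_left _ _)) (hRI a ha) hab hbη hcon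
    have h4 := hV a b ha.1 hab hb.2
    linarith
  rw [Real.dist_eq] at hur ⊢
  rw [abs_lt] at hur
  rcases lt_trichotomy u r with hlt | heq | hgt
  · exact key u hu r hr hlt (by linarith [hur.1])
  · rw [heq, sub_self, abs_zero]
    exact hδ
  · rw [abs_sub_comm]
    exact key r hr u hu hgt (by linarith [hur.2])

/-- The length of an additive path. -/
lemma additive_length {x s y t : ℝ} (hst : s < t) {π : ℝ → ℝ} (h1 : π s = x)
    (h2 : π t = y) (hadd : AddOn ℓ π (Icc s t)) : (ℓ x s y t : EReal) ≤ pathLength ℓ s t π := by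
  unfold pathLength
  refine le_iInf fun k => le_iInf fun τ => le_iInf fun hτ => EReal.coe_le_coe_iff.2 ?_
  have hmono : ∀ i j, i ≤ j → j ≤ k → τ i ≤ τ j := by
    intro i j hij hjk
    induction j, hij using Nat.le_induction with
    | base => exact le_rfl
    | succ j hij ih => exact (ih (by omega)).trans (hτ.1 j (by omega)).le
  have hk : 1 ≤ k := by
    by_contra hcon
    have : k = 0 := by omega
    subst this
    exact absurd (hτ.2.1.symm.trans hτ.2.2) hst.ne
  have hI : ∀ i ≤ k, τ i ∈ Icc s t := fun i hi =>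
    ⟨by rw [← hτ.2.1]; exact hmono 0 i (Nat.zero_le _) hi,
      by rw [← hτ.2.2]; exact hmono i k hi le_rfl⟩
  have hsum : ∀ m, 1 ≤ m → m ≤ k →
      ∑ i ∈ Finset.range m, ℓ (π (τ i)) (τ i) (π (τ (i + 1))) (τ (i + 1)) =
      ℓ (π (τ 0)) (τ 0) (π (τ m)) (τ m) := by
    intro m hm
    induction m, hm using Nat.le_induction with
    | base =>
      intro _
      rw [Finset.sum_range_one]
    | succ m hm ih =>
      intro hmk
      rw [Finset.sum_range_succ, ih (by omega)]
      have h3 : τ 0 < τ m := lt_of_lt_of_le (hτ.1 0 (by omega)) (hmono 1 m hm (by omega))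
      exact (hadd (τ 0) (hI 0 (by omega)) (τ m) (hI m (by omega)) (τ (m + 1)) (hI _ hmk) h3
        (hτ.1 m (by omega))).symm
  rw [hsum k hk le_rfl, hτ.2.1, hτ.2.2, h1, h2]

/-- `ℓ` is the supremum of the lengths of paths. -/
theorem NiceLandscape.length (h : NiceLandscape ℓ) {x s y t : ℝ} (hst : s < t) :
    (ℓ x s y t : EReal) = ⨆ (π : ℝ → ℝ) (_ : IsPath x s y t π), pathLength ℓ s t π := by
  refine le_antisymm ?_ ?_
  · obtain ⟨π, h1, h2, h3, h4⟩ := exists_additive h (x := x) (y := y) hst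
    have hpath : IsPath x s y t π := ⟨additive_continuous h hst h1 h2 h3 h4, h1, h2⟩
    exact (additive_length hst h1 h2 h4).trans
      (le_iSup₂ (f := fun (π : ℝ → ℝ) (_ : IsPath x s y t π) => pathLength ℓ s t π) π hpath)
  · refine iSup₂_le fun π hπ => ?_
    let τ : ℕ → ℝ := fun i => if i = 0 then s else t
    have hτ : IsPartition 1 s t τ := by
      refine ⟨fun i hi => ?_, rfl, rfl⟩
      have : i = 0 := by omega
      subst this
      exact hst
    have h1 : pathLength ℓ s t π ≤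
        ((∑ i ∈ Finset.range 1, ℓ (π (τ i)) (τ i) (π (τ (i + 1))) (τ (i + 1)) : ℝ) : EReal) := by
      unfold pathLength
      exact iInf_le_of_le 1 (iInf_le_of_le τ (iInf_le _ hτ))
    refine h1.trans (EReal.coe_le_coe_iff.2 ?_)
    rw [Finset.sum_range_one]
    change ℓ (π s) s (π t) t ≤ ℓ x s y t
    rw [hπ.2.1, hπ.2.2]

end Pool.Agent.Lib.MP_cd6101_pr
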