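import Pool.Agent.Lib.MP_cd6101_pr.BoxSup
import Pool.Agent.Lib.MP_cd6101_pr.Geodesic

/-!
# Almost sure regularity of the directed landscape
-/

open Set Topology MeasureTheory ProbabilityTheory Filter

namespace Pool.Agent.Lib.MP_cd6101_pr

variable {Ω : Type*} {mΩ : MeasurableSpace Ω} {P : Measure Ω} [IsProbabilityMeasure P]
  {L : Ω → ℝ → ℝ → ℝ → ℝ → ℝ}

lemma exists_M0 (hL : IsDirectedLandscape L P) :
    ∃ M0 : ℝ, 0 < M0 ∧ 1 / 2 < P {ω | -M0 < refVar L ω} := by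
  obtain ⟨C, hC, hCq⟩ := exists_lower hL (η := 1 / 4) (by norm_num)
  refine ⟨C + 1, by linarith, ?_⟩
  have h1 : {ω | refVar L ω < -C}ᶜ ⊆ {ω | -(C + 1) < refVar L ω} := by
    intro ω hω
    simp only [Set.mem_compl_iff, Set.mem_ofPred_eq, not_lt] at hω ⊢
    linarith
  have h2 : 3 / 4 ≤ P.real {ω | -(C + 1) < refVar L ω} := by
    refine le_trans ?_ (measureReal_mono h1)
    rw [probReal_compl_eq_one_sub (measurableSet_lt hL.measurable_refVar measurable_const)]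
    linarith
  rw [← ofReal_measureReal (s := {ω | -(C + 1) < refVar L ω})]
  have h3 : (1 / 2 : ENNReal) = ENNReal.ofReal (1 / 2) := by
    rw [ENNReal.ofReal_div_of_pos two_pos]
    norm_num
  rw [h3, ENNReal.ofReal_lt_ofReal_iff (by linarith)]
  linarith

/-- Upper tail of a one-point value. -/
lemma point_tail (hL : IsDirectedLandscape L P) {x0 s0 y0 t0 c v : ℝ} (hst : s0 < t0)
    (hv : v * (t0 - s0) ^ ((1 : ℝ) / 3) ≤ c + (x0 - y0) ^ 2 / (t0 - s0)) :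
    P {ω | c < L ω x0 s0 y0 t0} ≤ ENNReal.ofReal (tailF L P v) := by
  set e : ℝ := (t0 - s0) ^ ((1 : ℝ) / 3) with he
  have he0 : 0 < e := Real.rpow_pos_of_pos (by linarith) _
  have he3 : e ^ 3 = t0 - s0 := by
    rw [he, ← Real.rpow_natCast, ← Real.rpow_mul (by linarith)]
    norm_num
  have hid := hL.onePoint x0 y0 s0 t0 he0 (by rw [he3]; ring)
  have h3 := hid.measure_mem_eq (measurableSet_Ioi (a := c))
  have h4 : P {ω | c < L ω x0 s0 y0 t0} =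
      P {ω | c < e * refVar L ω - (x0 - y0) ^ 2 / e ^ 3} := h3
  rw [h4, he3]
  unfold tailF
  rw [ofReal_measureReal]
  refine measure_mono fun ω hω => ?_
  simp only [Set.mem_ofPred_eq] at hω ⊢
  by_contra hcon
  push Not at hcon
  have : e * refVar L ω ≤ e * v := by
    have := hcon.le
    gcongr
  linarith

/-- Some starting point near `(i, ·)` and end point near `(k, ·)` have value above `c`. -/
def bigSet (L : Ω → ℝ → ℝ → ℝ → ℝ → ℝ) (T : ℕ) (i k : ℤ) (c : ℝ) : Set Ω :=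
  {ω | ∃ x s y t : ℝ, |x - i| < 1 ∧ |y - k| < 1 ∧ -(T : ℝ) - 1 < s ∧ t < (T : ℝ) + 1 ∧ s < t ∧
    c < L ω x s y t}

lemma bigSet_le (hL : IsDirectedLandscape L P) {M0 : ℝ} (hM0 : 0 < M0)
    (hlow : 1 / 2 < P {ω | -M0 < refVar L ω}) (T : ℕ) (i k : ℤ) {c v : ℝ} (hv0 : 0 ≤ v)
    (hv : v * (2 * (T : ℝ) + 4) ≤ c - 2 * ((2 * T + 4) * M0 + 1) +
      ((i : ℝ) - k) ^ 2 / (2 * T + 4)) :
    P (bigSet L T i k c) ≤ 4 * ENNReal.ofReal (tailF L P v) := by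
  have hT : (0 : ℝ) ≤ T := Nat.cast_nonneg T
  have hB1 : (1 : ℝ) ≤ 2 * T + 4 := by linarith
  have hB3 : (2 * (T : ℝ) + 4) ≤ (2 * T + 4) ^ 3 := le_self_pow₀ hB1 (by norm_num)
  have h1 := box_sup hL hM0 hlow (x0 := i) (y0 := k) (s0 := -(T : ℝ) - 2) (t0 := T + 2) (a := 1)
    (B := 2 * T + 4) (w := 1) (c := c) one_pos (by linarith)
  have h2 : bigSet L T i k c ⊆ {ω | ∃ x s y t : ℝ, |x - i| < 1 ∧ |y - k| < 1 ∧
      -(T : ℝ) - 2 + 1 < s ∧ s < -(T : ℝ) - 2 + (2 * T + 4) ^ 3 ∧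
      (T : ℝ) + 2 - (2 * T + 4) ^ 3 < t ∧ t < (T : ℝ) + 2 - 1 ∧ s < t ∧ c < L ω x s y t} := by
    rintro ω ⟨x, s, y, t, h3, h4, h5, h6, h7, h8⟩
    exact ⟨x, s, y, t, h3, h4, by linarith, by linarith, by linarith, by linarith, h7, h8⟩
  refine (measure_mono h2).trans (h1.trans ?_)
  gcongr 4 * ?_
  refine point_tail hL (by linarith) ?_
  have e1 : (T : ℝ) + 2 - (-(T : ℝ) - 2) = 2 * T + 4 := by ring
  rw [e1]
  have e2 : (2 * (T : ℝ) + 4) ^ ((1 : ℝ) / 3) ≤ 2 * T + 4 := by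
    calc (2 * (T : ℝ) + 4) ^ ((1 : ℝ) / 3) ≤ (2 * (T : ℝ) + 4) ^ (1 : ℝ) :=
          Real.rpow_le_rpow_of_exponent_le hB1 (by norm_num)
      _ = 2 * T + 4 := Real.rpow_one _
  have e3 : v * (2 * (T : ℝ) + 4) ^ ((1 : ℝ) / 3) ≤ v * (2 * T + 4) := by gcongr
  have e4 : (1 : ℝ) ^ 2 / 1 = 1 := by norm_num
  rw [e4]
  linarith

/-- Finitely many columns are exceptional. -/
lemma finite_exceptional (hL : IsDirectedLandscape L P) (T : ℕ) (i : ℤ) :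
    (∀ᵐ ω ∂P, {k : ℤ | ω ∈ bigSet L T i k (-|(k : ℝ)|)}.Finite) ∧
    (∀ᵐ ω ∂P, {k : ℤ | ω ∈ bigSet L T k i (-|(k : ℝ)|)}.Finite) := by
  obtain ⟨M0, hM0, hlow⟩ := exists_M0 hL
  obtain ⟨K, hK0, hK⟩ := tail_bound hL
  set B : ℝ := 2 * T + 4 with hB
  have hT : (0 : ℝ) ≤ T := Nat.cast_nonneg T
  have hB1 : (1 : ℝ) ≤ B := by rw [hB]; linarith
  set k0 : ℝ := 2 * |(i : ℝ)| + 8 * B * (1 + 2 * (B * M0 + 1)) with hk0
  have hk0pos : 1 ≤ k0 := by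
    have h1 : 0 ≤ |(i : ℝ)| := abs_nonneg _
    have h2 : 0 < B * M0 := by positivity
    rw [hk0]
    nlinarith
  -- the threshold
  have hthr : ∀ k : ℤ, k0 ≤ |(k : ℝ)| → |(k : ℝ)| ^ 2 / (8 * B ^ 2) * B ≤
      -|(k : ℝ)| - 2 * (B * M0 + 1) + ((i : ℝ) - k) ^ 2 / B := by
    intro k hk
    set κ := |(k : ℝ)| with hκ
    have hi0 : 0 ≤ |(i : ℝ)| := abs_nonneg _
    have hBM : 0 < B * M0 := by positivity
    have h1 : 2 * |(i : ℝ)| ≤ κ := by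
      have : 0 ≤ 8 * B * (1 + 2 * (B * M0 + 1)) := by positivity
      linarith
    have h2 : 8 * B * (1 + 2 * (B * M0 + 1)) ≤ κ := by linarith
    have h3 : κ / 2 ≤ |(i : ℝ) - k| := by
      have := abs_sub_abs_le_abs_sub (k : ℝ) (i : ℝ)
      rw [abs_sub_comm] at this
      linarith
    have h4 : (κ / 2) ^ 2 ≤ ((i : ℝ) - k) ^ 2 := by
      rw [← sq_abs ((i : ℝ) - k)]
      exact pow_le_pow_left₀ (by linarith) h3 2
    have h5 : κ ^ 2 / (4 * B) ≤ ((i : ℝ) - k) ^ 2 / B := by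
      calc κ ^ 2 / (4 * B) = (κ / 2) ^ 2 / B := by
            field_simp
            ring
        _ ≤ ((i : ℝ) - k) ^ 2 / B := by gcongr
    have h6 : κ + 2 * (B * M0 + 1) ≤ κ ^ 2 / (8 * B) := by
      rw [le_div_iff₀ (by positivity)]
      have h7 : 1 ≤ κ := hk0pos.trans hk
      have h8 : κ + 2 * (B * M0 + 1) ≤ κ * (1 + 2 * (B * M0 + 1)) := by nlinarith
      calc (κ + 2 * (B * M0 + 1)) * (8 * B) ≤ κ * (1 + 2 * (B * M0 + 1)) * (8 * B) := by gcongr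
        _ = κ * (8 * B * (1 + 2 * (B * M0 + 1))) := by ring
        _ ≤ κ * κ := by gcongr
        _ = κ ^ 2 := by ring
    have h9 : κ ^ 2 / (8 * B ^ 2) * B = κ ^ 2 / (8 * B) := by
      field_simp
    have h10 : κ ^ 2 / (4 * B) = κ ^ 2 / (8 * B) + κ ^ 2 / (8 * B) := by
      field_simp
      ring
    rw [h9]
    linarith
  have htail : ∀ k : ℤ, k0 ≤ |(k : ℝ)| →
      4 * ENNReal.ofReal (tailF L P (|(k : ℝ)| ^ 2 / (8 * B ^ 2))) ≤
      ENNReal.ofReal (32 * B ^ 2 * K * (1 / (k : ℝ) ^ 2)) := by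
    intro k hk
    have hkpos : 0 < |(k : ℝ)| := by linarith
    have h1 := hK (|(k : ℝ)| ^ 2 / (8 * B ^ 2)) (by positivity)
    have h2 : (4 : ENNReal) = ENNReal.ofReal 4 := by norm_num
    rw [h2, ← ENNReal.ofReal_mul (by norm_num)]
    refine ENNReal.ofReal_le_ofReal ?_
    rw [← sq_abs (k : ℝ), mul_one_div, le_div_iff₀ (by positivity)]
    have h3 : |(k : ℝ)| ^ 2 / (8 * B ^ 2) * tailF L P (|(k : ℝ)| ^ 2 / (8 * B ^ 2)) * (8 * B ^ 2) ≤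
        K * (8 * B ^ 2) := by gcongr
    have h4 : |(k : ℝ)| ^ 2 / (8 * B ^ 2) * tailF L P (|(k : ℝ)| ^ 2 / (8 * B ^ 2)) *
        (8 * B ^ 2) = |(k : ℝ)| ^ 2 * tailF L P (|(k : ℝ)| ^ 2 / (8 * B ^ 2)) := by
      field_simp
    rw [h4] at h3
    linarith
  have hsummable : Summable fun k : ℤ => 32 * B ^ 2 * K * (1 / (k : ℝ) ^ 2) :=
    (Real.summable_one_div_int_pow.2 one_lt_two).mul_left _
  have main : ∀ S : ℤ → Set Ω, (∀ k : ℤ, k0 ≤ |(k : ℝ)| →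
      P (S k) ≤ 4 * ENNReal.ofReal (tailF L P (|(k : ℝ)| ^ 2 / (8 * B ^ 2)))) →
      ∀ᵐ ω ∂P, {k : ℤ | ω ∈ S k}.Finite := by
    intro S hS
    classical
    have hsum : (∑' k : ℤ, P (if k0 ≤ |(k : ℝ)| then S k else ∅)) ≠ ⊤ := by
      have hle : ∀ k : ℤ, P (if k0 ≤ |(k : ℝ)| then S k else ∅) ≤
          ENNReal.ofReal (32 * B ^ 2 * K * (1 / (k : ℝ) ^ 2)) := by
        intro k
        split_ifs with h
        · exact (hS k h).trans (htail k h)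
        · simp
      refine ne_top_of_le_ne_top ?_ (ENNReal.tsum_le_tsum hle)
      rw [← ENNReal.ofReal_tsum_of_nonneg (fun k => by positivity) hsummable]
      exact ENNReal.ofReal_ne_top
    filter_upwards [ae_finite_setOfPred_mem hsum] with ω hω
    have hfin : {k : ℤ | |(k : ℝ)| < k0}.Finite := by
      refine (Set.finite_Icc (-⌈k0⌉) ⌈k0⌉).subset fun k hk => ?_
      have hk' : |(k : ℝ)| < k0 := hk
      rw [abs_lt] at hk'
      have h1 := Int.le_ceil k0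
      constructor
      · have : (-(⌈k0⌉ : ℝ)) < k := by linarith [hk'.1]
        exact_mod_cast this.le
      · have : (k : ℝ) < ⌈k0⌉ := by linarith [hk'.2]
        exact_mod_cast this.le
    refine (hω.union hfin).subset fun k hk => ?_
    by_cases h : k0 ≤ |(k : ℝ)|
    · left
      show ω ∈ (if k0 ≤ |(k : ℝ)| then S k else ∅)
      rw [if_pos h]
      exact hk
    · right
      exact not_le.1 h
  constructor
  · refine main _ fun k hk => ?_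
    exact bigSet_le hL hM0 hlow T i k (by positivity) (hthr k hk)
  · refine main _ fun k hk => ?_
    refine bigSet_le hL hM0 hlow T k i (by positivity) ?_
    have := hthr k hk
    have e : ((k : ℝ) - i) ^ 2 = ((i : ℝ) - k) ^ 2 := by ring
    rw [e]
    exact this

/-- Finiteness of the suprema. -/
lemma finite_sup (hL : IsDirectedLandscape L P) (T : ℕ) (i k : ℤ) :
    ∀ᵐ ω ∂P, ∃ C : ℝ, ω ∉ bigSet L T i k C := by
  obtain ⟨M0, hM0, hlow⟩ := exists_M0 hL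
  have hle : ∀ n : ℕ, P {ω | ¬ ∃ C : ℝ, ω ∉ bigSet L T i k C} ≤
      4 * ENNReal.ofReal (tailF L P n) := by
    intro n
    set c : ℝ := n * (2 * (T : ℝ) + 4) + 2 * ((2 * T + 4) * M0 + 1) -
      ((i : ℝ) - k) ^ 2 / (2 * T + 4) with hc
    refine le_trans (measure_mono fun ω hω => ?_)
      (bigSet_le hL hM0 hlow T i k (c := c) (v := n) (Nat.cast_nonneg n) (by rw [hc]; linarith))
    have hω' : ¬ ∃ C : ℝ, ω ∉ bigSet L T i k C := hω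
    push Not at hω'
    exact hω' c
  have htend : Tendsto (fun n : ℕ => 4 * ENNReal.ofReal (tailF L P n)) atTop (𝓝 0) := by
    have h1 := ENNReal.tendsto_ofReal (tendsto_tailF hL)
    have h2 := ENNReal.Tendsto.const_mul (a := 4) h1 (Or.inr (by norm_num))
    simpa using h2
  rw [ae_iff]
  exact le_antisymm (ge_of_tendsto' htend hle) (zero_le)

lemma le_of_notMem_bigSet {T : ℕ} {i k : ℤ} {c : ℝ} {ω : Ω} (h : ω ∉ bigSet L T i k c)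
    {x s y t : ℝ} (h1 : |x - i| < 1) (h2 : |y - k| < 1) (h3 : -(T : ℝ) - 1 < s)
    (h4 : t < (T : ℝ) + 1) (h5 : s < t) : L ω x s y t ≤ c := by
  by_contra hcon
  push Not at hcon
  exact h ⟨x, s, y, t, h1, h2, h3, h4, h5, hcon⟩

lemma abs_sub_floor_lt (x : ℝ) : |x - (⌊x⌋ : ℝ)| < 1 := by
  rw [abs_of_nonneg (by linarith [Int.floor_le x])]
  linarith [Int.lt_floor_add_one x]

lemma abs_le_floor (x : ℝ) : |x| ≤ |(⌊x⌋ : ℝ)| + 1 := by
  have h1 := abs_sub_floor_lt x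
  have h2 := abs_sub_abs_le_abs_sub x (⌊x⌋ : ℝ)
  linarith

/-- Decay at spatial infinity. -/
lemma ae_dec (hL : IsDirectedLandscape L P) : ∀ᵐ ω ∂P,
    (∀ x s T, ∃ C, ∀ y t, s < t → t ≤ T → L ω x s y t ≤ C - |y|) ∧
    (∀ y t T, ∃ C, ∀ x s, T ≤ s → s < t → L ω x s y t ≤ C - |x|) := by
  have h1 : ∀ᵐ ω ∂P, ∀ T : ℕ, ∀ i : ℤ, {k : ℤ | ω ∈ bigSet L T i k (-|(k : ℝ)|)}.Finite ∧
      {k : ℤ | ω ∈ bigSet L T k i (-|(k : ℝ)|)}.Finite :=
    ae_all_iff.2 fun T => ae_all_iff.2 fun i =>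
      (finite_exceptional hL T i).1.and (finite_exceptional hL T i).2
  have h2 : ∀ᵐ ω ∂P, ∀ T : ℕ, ∀ i k : ℤ, ∃ C : ℝ, ω ∉ bigSet L T i k C :=
    ae_all_iff.2 fun T => ae_all_iff.2 fun i => ae_all_iff.2 fun k => finite_sup hL T i k
  filter_upwards [h1, h2] with ω hω1 hω2
  choose Cf hCf using hω2
  constructor
  · intro x s T'
    set T : ℕ := ⌈max |s| |T'|⌉₊ with hT
    have hTs : |s| ≤ T := (le_max_left _ _).trans (Nat.le_ceil _)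
    have hTT : |T'| ≤ T := (le_max_right _ _).trans (Nat.le_ceil _)
    obtain ⟨D, hD⟩ := ((hω1 T ⌊x⌋).1.image (fun k : ℤ => Cf T ⌊x⌋ k + |(k : ℝ)| + 1)).bddAbove
    refine ⟨max D 1, fun y t hst ht => ?_⟩
    have hs1 : -(T : ℝ) - 1 < s := by linarith [neg_abs_le s]
    have ht1 : t < (T : ℝ) + 1 := by linarith [le_abs_self T']
    have hy := abs_le_floor y
    by_cases hk : ω ∈ bigSet L T ⌊x⌋ ⌊y⌋ (-|(⌊y⌋ : ℝ)|)
    · have h3 := le_of_notMem_bigSet (hCf T ⌊x⌋ ⌊y⌋) (abs_sub_floor_lt x) (abs_sub_floor_lt y)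
        hs1 ht1 hst
      have h4 : Cf T ⌊x⌋ ⌊y⌋ + |(⌊y⌋ : ℝ)| + 1 ≤ D := hD ⟨⌊y⌋, hk, rfl⟩
      have h5 : D ≤ max D 1 := le_max_left _ _
      linarith
    · have h3 := le_of_notMem_bigSet hk (abs_sub_floor_lt x) (abs_sub_floor_lt y) hs1 ht1 hst
      have h5 : 1 ≤ max D 1 := le_max_right _ _
      linarith
  · intro y t T'
    set T : ℕ := ⌈max |t| |T'|⌉₊ with hT
    have hTs : |t| ≤ T := (le_max_left _ _).trans (Nat.le_ceil _)
    have hTT : |T'| ≤ T := (le_max_right _ _).trans (Nat.le_ceil _)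
    obtain ⟨D, hD⟩ := ((hω1 T ⌊y⌋).2.image (fun k : ℤ => Cf T k ⌊y⌋ + |(k : ℝ)| + 1)).bddAbove
    refine ⟨max D 1, fun x s hs hst => ?_⟩
    have hs1 : -(T : ℝ) - 1 < s := by linarith [neg_abs_le T']
    have ht1 : t < (T : ℝ) + 1 := by linarith [le_abs_self t]
    have hy := abs_le_floor x
    by_cases hk : ω ∈ bigSet L T ⌊x⌋ ⌊y⌋ (-|(⌊x⌋ : ℝ)|)
    · have h3 := le_of_notMem_bigSet (hCf T ⌊x⌋ ⌊y⌋) (abs_sub_floor_lt x) (abs_sub_floor_lt y)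
        hs1 ht1 hst
      have h4 : Cf T ⌊x⌋ ⌊y⌋ + |(⌊x⌋ : ℝ)| + 1 ≤ D := hD ⟨⌊x⌋, hk, rfl⟩
      have h5 : D ≤ max D 1 := le_max_left _ _
      linarith
    · have h3 := le_of_notMem_bigSet hk (abs_sub_floor_lt x) (abs_sub_floor_lt y) hs1 ht1 hst
      have h5 : 1 ≤ max D 1 := le_max_right _ _
      linarith

/-- Fast displacement at scale `2⁻ⁿ`. -/
def fastSet (L : Ω → ℝ → ℝ → ℝ → ℝ → ℝ) (R : ℕ) (δ : ℝ) (n : ℕ) : Set Ω :=
  {ω | ∃ x s y t : ℝ, |x| ≤ R ∧ |y| ≤ R ∧ |s| ≤ R ∧ s < t ∧ t ≤ s + 1 / 8 ^ n ∧ δ ≤ |x - y| ∧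
    -(δ ^ 2 * 8 ^ n / 48) < L ω x s y t}

/-- The event for a single cell. -/
def cellSet (L : Ω → ℝ → ℝ → ℝ → ℝ → ℝ) (δ : ℝ) (n : ℕ) (i k j : ℤ) : Set Ω :=
  {ω | δ / 2 ≤ |(i : ℝ) * (1 / 4 ^ n) - k * (1 / 4 ^ n)| ∧ ∃ x s y t : ℝ,
    |x - i * (1 / 4 ^ n)| < 1 / 4 ^ n ∧ |y - k * (1 / 4 ^ n)| < 1 / 4 ^ n ∧
    (j : ℝ) * (1 / 8 ^ n) ≤ s ∧ t < (j + 2) * (1 / 8 ^ n) ∧ s < t ∧
    -(δ ^ 2 * 8 ^ n / 48) < L ω x s y t}

lemma floor_mul_mem {x : ℝ} {R : ℕ} (hx : |x| ≤ R) (q : ℕ) :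
    ⌊x * q⌋ ∈ Finset.Icc (-((R * q : ℕ) : ℤ)) ((R * q : ℕ) : ℤ) := by
  have hq : (0 : ℝ) ≤ q := Nat.cast_nonneg q
  rw [abs_le] at hx
  rw [Finset.mem_Icc]
  constructor
  · rw [Int.le_floor]
    push_cast
    nlinarith [hx.1]
  · have h1 : x * q ≤ R * q := by gcongr; exact hx.2
    have h2 := Int.floor_le_floor h1
    have h3 : ⌊(R : ℝ) * q⌋ = ((R * q : ℕ) : ℤ) := by
      have : (R : ℝ) * q = ((R * q : ℕ) : ℝ) := by push_cast; ring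
      rw [this, Int.floor_natCast]
    rwa [h3] at h2

lemma abs_sub_cell {x : ℝ} {q : ℕ} (hq : 0 < q) :
    |x - (⌊x * q⌋ : ℝ) * (1 / q)| < 1 / q := by
  have hq' : (0 : ℝ) < q := by exact_mod_cast hq
  have h1 := abs_sub_floor_lt (x * q)
  have h2 : x - (⌊x * q⌋ : ℝ) * (1 / q) = (x * q - (⌊x * q⌋ : ℝ)) * (1 / q) := by
    field_simp
  rw [h2, abs_mul, abs_of_pos (by positivity : (0 : ℝ) < 1 / q)]
  have h3 : 0 < (1 : ℝ) / q := by positivity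
  nlinarith

lemma fastSet_subset (R : ℕ) {δ : ℝ} (n : ℕ) (hn : 4 / 4 ^ n ≤ δ) :
    fastSet L R δ n ⊆ ⋃ i ∈ Finset.Icc (-((R * 4 ^ n : ℕ) : ℤ)) ((R * 4 ^ n : ℕ) : ℤ),
      ⋃ k ∈ Finset.Icc (-((R * 4 ^ n : ℕ) : ℤ)) ((R * 4 ^ n : ℕ) : ℤ),
      ⋃ j ∈ Finset.Icc (-((R * 8 ^ n : ℕ) : ℤ)) ((R * 8 ^ n : ℕ) : ℤ), cellSet L δ n i k j := by
  rintro ω ⟨x, s, y, t, h1, h2, h3, h4, h5, h6, h7⟩
  simp only [Set.mem_iUnion, exists_prop]
  have e4 : (((4 ^ n : ℕ) : ℕ) : ℝ) = 4 ^ n := by push_cast; rfl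
  have e8 : (((8 ^ n : ℕ) : ℕ) : ℝ) = 8 ^ n := by push_cast; rfl
  have hx := floor_mul_mem h1 (4 ^ n)
  have hy := floor_mul_mem h2 (4 ^ n)
  have hs := floor_mul_mem h3 (8 ^ n)
  have cx := abs_sub_cell (x := x) (q := 4 ^ n) (by positivity)
  have cy := abs_sub_cell (x := y) (q := 4 ^ n) (by positivity)
  rw [e4] at hx hy cx cy
  rw [e8] at hs
  refine ⟨_, hx, _, hy, _, hs, ?_, x, s, y, t, cx, cy, ?_, ?_, h4, h7⟩
  · have h8 : |x - y| ≤ |x - (⌊x * 4 ^ n⌋ : ℝ) * (1 / 4 ^ n)| +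
        |(⌊x * 4 ^ n⌋ : ℝ) * (1 / 4 ^ n) - (⌊y * 4 ^ n⌋ : ℝ) * (1 / 4 ^ n)| +
        |y - (⌊y * 4 ^ n⌋ : ℝ) * (1 / 4 ^ n)| := by
      have e : x - y = (x - (⌊x * 4 ^ n⌋ : ℝ) * (1 / 4 ^ n)) +
          ((⌊x * 4 ^ n⌋ : ℝ) * (1 / 4 ^ n) - (⌊y * 4 ^ n⌋ : ℝ) * (1 / 4 ^ n)) -
          (y - (⌊y * 4 ^ n⌋ : ℝ) * (1 / 4 ^ n)) := by ring
      calc |x - y| = |(x - (⌊x * 4 ^ n⌋ : ℝ) * (1 / 4 ^ n)) +
          ((⌊x * 4 ^ n⌋ : ℝ) * (1 / 4 ^ n) - (⌊y * 4 ^ n⌋ : ℝ) * (1 / 4 ^ n)) -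
          (y - (⌊y * 4 ^ n⌋ : ℝ) * (1 / 4 ^ n))| := by rw [← e]
        _ ≤ _ := (abs_sub _ _).trans (add_le_add (abs_add_le _ _) le_rfl)
    have h9 : (4 : ℝ) / 4 ^ n = 4 * (1 / 4 ^ n) := by ring
    linarith
  · have h8 : (⌊s * 8 ^ n⌋ : ℝ) ≤ s * 8 ^ n := Int.floor_le _
    have h9 : (0 : ℝ) < 8 ^ n := by positivity
    rw [mul_one_div, div_le_iff₀ h9]
    exact h8
  · have h8 : s * 8 ^ n < (⌊s * 8 ^ n⌋ : ℝ) + 1 := Int.lt_floor_add_one _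
    have h9 : (0 : ℝ) < 8 ^ n := by positivity
    refine lt_of_le_of_lt h5 ?_
    rw [mul_one_div, lt_div_iff₀ h9, add_mul, one_div, inv_mul_cancel₀ h9.ne']
    linarith

lemma cellSet_le (hL : IsDirectedLandscape L P) {M0 K δ : ℝ} (hM0 : 0 < M0)
    (hlow : 1 / 2 < P {ω | -M0 < refVar L ω}) (hK : ∀ c, 0 < c → c ^ 2 * tailF L P c ≤ K)
    (hδ : 0 < δ) {n : ℕ} (hn : 192 * (2 * M0 + 1) ≤ δ ^ 2 * 16 ^ n) (i k j : ℤ) :
    P (cellSet L δ n i k j) ≤ ENNReal.ofReal (4 * (K * 192 ^ 2 / δ ^ 4) * (1 / 256 ^ n)) := by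
  by_cases hsep : δ / 2 ≤ |(i : ℝ) * (1 / 4 ^ n) - k * (1 / 4 ^ n)|
  swap
  · have : cellSet L δ n i k j = ∅ := by
      ext ω
      simp only [cellSet, Set.mem_ofPred_eq, Set.mem_empty_iff_false, iff_false, not_and]
      intro h
      exact absurd h hsep
    rw [this, measure_empty]
    exact zero_le
  set ε : ℝ := (1 / 2) ^ n with hε
  have hε0 : 0 < ε := by positivity
  have e4 : (1 : ℝ) / 4 ^ n = ε ^ 2 := by
    rw [hε, ← pow_mul, mul_comm, pow_mul, one_div, ← inv_pow]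
    norm_num
  have e8 : (1 : ℝ) / 8 ^ n = ε ^ 3 := by
    rw [hε, ← pow_mul, mul_comm, pow_mul, one_div, ← inv_pow]
    norm_num
  have e8' : (8 : ℝ) ^ n = 1 / ε ^ 3 := by rw [← e8, one_div_one_div]
  have e16 : (16 : ℝ) ^ n = 1 / ε ^ 4 := by
    rw [hε, ← pow_mul, mul_comm, pow_mul, one_div, ← inv_pow]
    norm_num
  have e256 : (1 : ℝ) / 256 ^ n = ε ^ 8 := by
    rw [hε, ← pow_mul, mul_comm, pow_mul, one_div, ← inv_pow]
    norm_num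
  rw [e4] at hsep
  rw [e16] at hn
  have hn' : 192 * (2 * M0 + 1) * ε ^ 4 ≤ δ ^ 2 := by
    rw [mul_one_div, le_div_iff₀ (by positivity)] at hn
    exact hn
  have h1 := box_sup hL hM0 hlow (x0 := i * ε ^ 2) (y0 := k * ε ^ 2) (s0 := (j - 2) * ε ^ 3)
    (t0 := (j + 4) * ε ^ 3) (a := ε ^ 3) (B := 2 * ε) (w := ε ^ 2)
    (c := -(δ ^ 2 * 8 ^ n / 48)) (by positivity) (by positivity)
  have hε3 : 0 < ε ^ 3 := by positivity
  have hsub : cellSet L δ n i k j ⊆ {ω | ∃ x s y t, |x - i * ε ^ 2| < ε ^ 2 ∧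
      |y - k * ε ^ 2| < ε ^ 2 ∧ (j - 2) * ε ^ 3 + ε ^ 3 < s ∧ s < (j - 2) * ε ^ 3 + (2 * ε) ^ 3 ∧
      (j + 4) * ε ^ 3 - (2 * ε) ^ 3 < t ∧ t < (j + 4) * ε ^ 3 - ε ^ 3 ∧ s < t ∧
      -(δ ^ 2 * 8 ^ n / 48) < L ω x s y t} := by
    rintro ω ⟨_, x, s, y, t, h2, h3, h4, h5, h6, h7⟩
    rw [e4] at h2 h3
    rw [e8] at h4 h5
    have e : (2 * ε) ^ 3 = 8 * ε ^ 3 := by ring
    refine ⟨x, s, y, t, h2, h3, ?_, ?_, ?_, ?_, h6, h7⟩
    · linarith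
    · rw [e]; linarith
    · rw [e]; linarith
    · linarith
  refine (measure_mono hsub).trans (h1.trans ?_)
  have h4 : (4 : ENNReal) = ENNReal.ofReal 4 := by norm_num
  set v : ℝ := δ ^ 2 / (192 * ε ^ 4) with hv
  have hv0 : 0 < v := by positivity
  have hpt : P {ω | -(δ ^ 2 * 8 ^ n / 48) - 2 * (2 * ε * M0 + (ε ^ 2) ^ 2 / ε ^ 3) <
      L ω (i * ε ^ 2) ((j - 2) * ε ^ 3) (k * ε ^ 2) ((j + 4) * ε ^ 3)} ≤
      ENNReal.ofReal (tailF L P v) := by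
    refine point_tail hL (by linarith) ?_
    have e1 : ((j : ℝ) + 4) * ε ^ 3 - (j - 2) * ε ^ 3 = 6 * ε ^ 3 := by ring
    rw [e1]
    have e2 : (6 * ε ^ 3) ^ ((1 : ℝ) / 3) ≤ 2 * ε := by
      calc (6 * ε ^ 3) ^ ((1 : ℝ) / 3) ≤ ((2 * ε) ^ 3) ^ ((1 : ℝ) / 3) := by
            refine Real.rpow_le_rpow (by positivity) ?_ (by norm_num)
            have e : (2 * ε) ^ 3 = 8 * ε ^ 3 := by ring
            rw [e]
            linarith
        _ = 2 * ε := by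
            rw [← Real.rpow_natCast, ← Real.rpow_mul (by positivity)]
            norm_num
    have h5 : v * (6 * ε ^ 3) ^ ((1 : ℝ) / 3) ≤ v * (2 * ε) := by gcongr
    have h6 : v * (2 * ε) = δ ^ 2 / (96 * ε ^ 3) := by
      rw [hv]
      field_simp
      ring
    have h7 : δ ^ 2 * 8 ^ n / 48 = 2 * (δ ^ 2 / (96 * ε ^ 3)) := by
      rw [e8']
      field_simp
      ring
    have h8 : (ε ^ 2) ^ 2 / ε ^ 3 = ε := by
      field_simp
    have h9 : 4 * (δ ^ 2 / (96 * ε ^ 3)) ≤ (i * ε ^ 2 - k * ε ^ 2) ^ 2 / (6 * ε ^ 3) := by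
      have h10 : (δ / 2) ^ 2 ≤ (i * ε ^ 2 - k * ε ^ 2) ^ 2 := by
        rw [← sq_abs ((i : ℝ) * ε ^ 2 - k * ε ^ 2)]
        exact pow_le_pow_left₀ (by positivity) hsep 2
      calc 4 * (δ ^ 2 / (96 * ε ^ 3)) = (δ / 2) ^ 2 / (6 * ε ^ 3) := by
            field_simp
            ring
        _ ≤ _ := by gcongr
    have h11 : 2 * (2 * ε * M0 + ε) ≤ δ ^ 2 / (96 * ε ^ 3) := by
      rw [le_div_iff₀ (by positivity)]
      calc 2 * (2 * ε * M0 + ε) * (96 * ε ^ 3) = 192 * (2 * M0 + 1) * ε ^ 4 := by ring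
        _ ≤ δ ^ 2 := hn'
    rw [h8, h7]
    linarith
  calc 4 * P {ω | -(δ ^ 2 * 8 ^ n / 48) - 2 * (2 * ε * M0 + (ε ^ 2) ^ 2 / ε ^ 3) <
      L ω (i * ε ^ 2) ((j - 2) * ε ^ 3) (k * ε ^ 2) ((j + 4) * ε ^ 3)}
      ≤ 4 * ENNReal.ofReal (tailF L P v) := by gcongr
    _ = ENNReal.ofReal (4 * tailF L P v) := by rw [h4, ← ENNReal.ofReal_mul (by norm_num)]
    _ ≤ _ := by
        refine ENNReal.ofReal_le_ofReal ?_
        have h5 := hK v hv0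
        have h6 : tailF L P v ≤ K * 192 ^ 2 / δ ^ 4 * ε ^ 8 := by
          have h7 : v ^ 2 = δ ^ 4 / (192 ^ 2 * ε ^ 8) := by
            rw [hv]
            field_simp
          rw [h7, div_mul_eq_mul_div, div_le_iff₀ (by positivity)] at h5
          rw [div_mul_eq_mul_div, le_div_iff₀ (by positivity)]
          linarith
        rw [e256]
        linarith

lemma card_Icc_le (R q : ℕ) (hq : 1 ≤ q) :
    ((Finset.Icc (-((R * q : ℕ) : ℤ)) ((R * q : ℕ) : ℤ)).card : ℝ) ≤ (2 * R + 1) * q := by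
  rw [Int.card_Icc]
  have h1 : (((R * q : ℕ) : ℤ) + 1 - -((R * q : ℕ) : ℤ)).toNat = 2 * (R * q) + 1 := by omega
  rw [h1]
  push_cast
  have h2 : (1 : ℝ) ≤ q := by exact_mod_cast hq
  nlinarith

lemma fastSet_le (hL : IsDirectedLandscape L P) {M0 K δ : ℝ} (hM0 : 0 < M0)
    (hlow : 1 / 2 < P {ω | -M0 < refVar L ω}) (hK0 : 0 < K)
    (hK : ∀ c, 0 < c → c ^ 2 * tailF L P c ≤ K)
    (hδ : 0 < δ) (R : ℕ) {n : ℕ} (hn : 192 * (2 * M0 + 1) ≤ δ ^ 2 * 16 ^ n)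
    (hn4 : 4 / 4 ^ n ≤ δ) :
    P (fastSet L R δ n) ≤
      ENNReal.ofReal ((2 * R + 1) ^ 3 * (4 * (K * 192 ^ 2 / δ ^ 4)) * (1 / 2) ^ n) := by
  set p : ℝ := 4 * (K * 192 ^ 2 / δ ^ 4) * (1 / 256 ^ n) with hp
  have hp0 : 0 ≤ p := by positivity
  set I := Finset.Icc (-((R * 4 ^ n : ℕ) : ℤ)) ((R * 4 ^ n : ℕ) : ℤ) with hI
  set J := Finset.Icc (-((R * 8 ^ n : ℕ) : ℤ)) ((R * 8 ^ n : ℕ) : ℤ) with hJ
  have h1 : P (fastSet L R δ n) ≤ ∑ i ∈ I, ∑ k ∈ I, ∑ j ∈ J, ENNReal.ofReal p := by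
    refine (measure_mono (fastSet_subset R n hn4)).trans ?_
    refine (measure_biUnion_finset_le _ _).trans (Finset.sum_le_sum fun i _ => ?_)
    refine (measure_biUnion_finset_le _ _).trans (Finset.sum_le_sum fun k _ => ?_)
    refine (measure_biUnion_finset_le _ _).trans (Finset.sum_le_sum fun j _ => ?_)
    exact cellSet_le hL hM0 hlow hK hδ hn i k j
  refine h1.trans ?_
  have h2 : ∑ i ∈ I, ∑ k ∈ I, ∑ j ∈ J, ENNReal.ofReal p =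
      ENNReal.ofReal ((I.card : ℝ) * ((I.card : ℝ) * ((J.card : ℝ) * p))) := by
    simp only [Finset.sum_const, nsmul_eq_mul]
    rw [ENNReal.ofReal_mul (p := (I.card : ℝ)) (Nat.cast_nonneg _),
      ENNReal.ofReal_mul (p := (I.card : ℝ)) (Nat.cast_nonneg _),
      ENNReal.ofReal_mul (p := (J.card : ℝ)) (Nat.cast_nonneg _)]
    simp only [ENNReal.ofReal_natCast]
  rw [h2]
  refine ENNReal.ofReal_le_ofReal ?_
  have hc4 : (I.card : ℝ) ≤ (2 * R + 1) * 4 ^ n := by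
    have := card_Icc_le R (4 ^ n) (Nat.one_le_pow _ _ (by norm_num))
    push_cast at this
    exact this
  have hc8 : (J.card : ℝ) ≤ (2 * R + 1) * 8 ^ n := by
    have := card_Icc_le R (8 ^ n) (Nat.one_le_pow _ _ (by norm_num))
    push_cast at this
    exact this
  calc (I.card : ℝ) * ((I.card : ℝ) * ((J.card : ℝ) * p))
      ≤ ((2 * R + 1) * 4 ^ n) * (((2 * R + 1) * 4 ^ n) * (((2 * R + 1) * 8 ^ n) * p)) := by
        gcongr
    _ = (2 * R + 1) ^ 3 * (4 * (K * 192 ^ 2 / δ ^ 4)) * (4 ^ n * 4 ^ n * 8 ^ n * (1 / 256 ^ n)) := by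
        rw [hp]
        ring
    _ = (2 * R + 1) ^ 3 * (4 * (K * 192 ^ 2 / δ ^ 4)) * (1 / 2) ^ n := by
        congr 1
        have : (256 : ℝ) ^ n = 4 ^ n * 4 ^ n * 8 ^ n * 2 ^ n := by
          rw [← mul_pow, ← mul_pow, ← mul_pow]
          norm_num
        rw [this, one_div_pow]
        field_simp

lemma ae_fast (hL : IsDirectedLandscape L P) (R : ℕ) {δ : ℝ} (hδ : 0 < δ) :
    ∀ᵐ ω ∂P, ∀ᶠ n in atTop, ω ∉ fastSet L R δ n := by
  obtain ⟨M0, hM0, hlow⟩ := exists_M0 hL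
  obtain ⟨K, hK0, hK⟩ := tail_bound2 hL
  have t16 : Tendsto (fun n : ℕ => δ ^ 2 * (16 : ℝ) ^ n) atTop atTop :=
    (tendsto_pow_atTop_atTop_of_one_lt (by norm_num : (1 : ℝ) < 16)).const_mul_atTop
      (by positivity)
  have t4 : Tendsto (fun n : ℕ => (4 : ℝ) / 4 ^ n) atTop (𝓝 0) := by
    have := (tendsto_pow_atTop_nhds_zero_of_lt_one (by norm_num : (0 : ℝ) ≤ 1 / 4)
      (by norm_num)).const_mul 4
    rw [mul_zero] at this
    refine this.congr fun n => ?_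
    rw [one_div_pow]
    ring
  obtain ⟨n0, hn0⟩ := eventually_atTop.1 ((t16.eventually_ge_atTop (192 * (2 * M0 + 1))).and
    (t4.eventually (ge_mem_nhds hδ)))
  set C := (2 * (R : ℝ) + 1) ^ 3 * (4 * (K * 192 ^ 2 / δ ^ 4)) with hC
  have hC0 : 0 ≤ C := by positivity
  have hsum : (∑' n, P (fastSet L R δ (n + n0))) ≠ ⊤ := by
    have hle : ∀ n, P (fastSet L R δ (n + n0)) ≤ ENNReal.ofReal (C * (1 / 2) ^ n) := by
      intro n
      have h1 := hn0 (n + n0) (by omega)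
      refine (fastSet_le hL hM0 hlow hK0 hK hδ R h1.1 h1.2).trans (ENNReal.ofReal_le_ofReal ?_)
      have : ((1 : ℝ) / 2) ^ (n + n0) ≤ (1 / 2) ^ n :=
        pow_le_pow_of_le_one (by norm_num) (by norm_num) (by omega)
      gcongr
    refine ne_top_of_le_ne_top ?_ (ENNReal.tsum_le_tsum hle)
    rw [← ENNReal.ofReal_tsum_of_nonneg (fun l => by positivity)
      ((summable_geometric_two).mul_left C)]
    exact ENNReal.ofReal_ne_top
  filter_upwards [ae_eventually_notMem hsum] with ω hω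
  obtain ⟨a, ha⟩ := eventually_atTop.1 hω
  refine eventually_atTop.2 ⟨a + n0, fun n hn => ?_⟩
  have h2 := ha (n - n0) (by omega)
  have h3 : n - n0 + n0 = n := by omega
  rwa [h3] at h2

/-- Almost surely the directed landscape is nice. -/
theorem ae_nice (hL : IsDirectedLandscape L P) : ∀ᵐ ω ∂P, NiceLandscape (L ω) := by
  have hfast : ∀ᵐ ω ∂P, ∀ R m : ℕ, ∀ᶠ n in atTop, ω ∉ fastSet L R (1 / ((m : ℝ) + 1)) n :=
    ae_all_iff.2 fun R => ae_all_iff.2 fun m => ae_fast hL R (by positivity)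
  filter_upwards [hL.composition, ae_dec hL, hfast] with ω h1 h2 h3
  refine ⟨hL.continuous ω, h1, h2.1, h2.2, ?_⟩
  intro R' δ' V hδ'
  obtain ⟨R, hR⟩ := exists_nat_ge R'
  obtain ⟨m, hm⟩ := exists_nat_one_div_lt hδ'
  set δ : ℝ := 1 / ((m : ℝ) + 1) with hδ
  have hδ0 : 0 < δ := by positivity
  have t8 : Tendsto (fun n : ℕ => δ ^ 2 / 48 * (8 : ℝ) ^ n) atTop atTop :=
    (tendsto_pow_atTop_atTop_of_one_lt (by norm_num : (1 : ℝ) < 8)).const_mul_atTop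
      (by positivity)
  obtain ⟨n, hn1, hn2⟩ := ((h3 R m).and (t8.eventually_ge_atTop V)).exists
  refine ⟨1 / 8 ^ n, by positivity, fun x s y t hx hy hs hst ht hxy => ?_⟩
  by_contra hcon
  push Not at hcon
  refine hn1 ⟨x, s, y, t, hx.trans hR, hy.trans hR, hs.trans hR, hst, ht, hm.le.trans hxy, ?_⟩
  have : δ ^ 2 * 8 ^ n / 48 = δ ^ 2 / 48 * 8 ^ n := by ring
  rw [this]
  linarith

/-- Almost surely `L x s y t` is the supremum of the lengths of the paths from `(x, s)` to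
`(y, t)`. -/
theorem IsDirectedLandscape.length (hL : IsDirectedLandscape L P) :
    ∀ᵐ ω ∂P, ∀ x s y t, s < t →
      (L ω x s y t : EReal) = ⨆ (π : ℝ → ℝ) (_ : IsPath x s y t π), pathLength (L ω) s t π := by
  filter_upwards [ae_nice hL] with ω hω x s y t hst
  exact hω.length hst

end Pool.Agent.Lib.MP_cd6101_pr
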