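import Pool.Agent.Lib.MP_cd6101_pr.Deviation
import Pool.Agent.Lib.MP_cd6101_pr.Regular

/-!
# Mutual singularity
-/

open Set Topology MeasureTheory ProbabilityTheory Filter

namespace Pool.Agent.Lib.MP_cd6101_pr

variable {Ω : Type*} {mΩ : MeasurableSpace Ω} {P : Measure Ω} [IsProbabilityMeasure P]
  {L : Ω → ℝ → ℝ → ℝ → ℝ → ℝ}

/-- Two-sided tail of the reference variable. -/
noncomputable def tailAbs (L : Ω → ℝ → ℝ → ℝ → ℝ → ℝ) (P : Measure Ω) (M : ℝ) : ℝ :=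
  P.real {ω | M - 1 < |refVar L ω|}

/-- Probability that a box is bad. -/
lemma badSet_le (hL : IsDirectedLandscape L P) {M0 : ℝ} (hM0 : 0 < M0)
    (hlow : 1 / 2 < P {ω | -M0 < refVar L ω}) {ρ : ℝ} (hρ : 0 < ρ) (x0 t0 M : ℝ) {k : ℕ}
    (hk : 1 ≤ k) (hkM0 : 16 * M0 ≤ (k : ℝ) ^ 12) (j i : ℕ) :
    P (badSet L ρ x0 t0 M k j i) ≤
      ENNReal.ofReal (8 * tailF L P ((k : ℝ) ^ 12 / 16) + tailAbs L P M) := by
  have hε := epsK_pos hρ hk
  have hk0 : (0 : ℝ) < k := by exact_mod_cast hk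
  have hw : (ρ ^ 2) ^ 2 / (16 * epsK ρ k ^ 4) = (k : ℝ) ^ 12 / 16 := by
    unfold epsK
    field_simp
  have h1 : P (boxBad L (colX ρ x0 k i) (rowT ρ t0 k j) (ρ ^ 2) (epsK ρ k)) ≤
      8 * P {ω | (k : ℝ) ^ 12 / 16 ≤ refVar L ω} := by
    have := boxBad_le hL hM0 hlow (colX ρ x0 k i) (rowT ρ t0 k j) (w := ρ ^ 2) hε
      (by rw [hw]; linarith)
    rwa [hw] at this
  have h2 : P {ω | M - 1 < |(epsK ρ k)⁻¹ * boxVal ρ x0 t0 k (L ω) j i|} =
      P {ω | M - 1 < |refVar L ω|} := by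
    have hid := hL.onePoint (colX ρ x0 k i) (colX ρ x0 k i) (rowT ρ t0 k j)
      (rowT ρ t0 k j + epsK ρ k ^ 3) hε rfl
    have h3 := (hid.comp (u := fun v => |(epsK ρ k)⁻¹ * v|) (by fun_prop)).measure_mem_eq
      (measurableSet_Ioi (a := M - 1))
    refine h3.trans ?_
    congr 1
    ext ω
    simp only [Set.mem_preimage, Function.comp, Set.mem_Ioi, Set.mem_ofPred_eq, sub_self, ne_eq,
      OfNat.ofNat_ne_zero, not_false_eq_true, zero_pow, zero_div, sub_zero]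
    rw [inv_mul_cancel_left₀ hε.ne']
  have htA : 0 ≤ tailAbs L P M := measureReal_nonneg
  have htF := tailF_nonneg (L := L) (P := P) ((k : ℝ) ^ 12 / 16)
  rw [ENNReal.ofReal_add (by positivity) htA, ENNReal.ofReal_mul (by norm_num)]
  unfold tailF tailAbs
  rw [ofReal_measureReal, ofReal_measureReal, ← h2]
  unfold badSet
  refine (measure_union_le _ _).trans (add_le_add (h1.trans_eq ?_) le_rfl)
  norm_num

/-- Effect of the shift on the statistic: outside an event of small probability it moves by at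
least `2 κ k⁷`. -/
lemma deviation (hL : IsDirectedLandscape L P) {M0 : ℝ} (hM0 : 0 < M0)
    (hlow : 1 / 2 < P {ω | -M0 < refVar L ω}) {h : ℝ × ℝ → ℝ} (hh : Continuous h) {H c₀ σ : ℝ}
    (hH : ∀ p, |h p| ≤ H) (hc₀ : 0 < c₀) (hσ : σ = 1 ∨ σ = -1) {ρ x0 t0 M : ℝ} (hρ : 0 < ρ)
    (hρ1 : ρ ≤ 1) (hM : 1 ≤ M)
    (hbox : ∀ z r, |z - x0| ≤ 2 * ρ ^ 2 → t0 ≤ r → r ≤ t0 + ρ ^ 3 → c₀ ≤ σ * h (z, r))
    {k : ℕ} (hk : 1 ≤ k) (hkM : 2 * (M - 1) + 2 * (H + c₀) < (k : ℝ))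
    (hkM0 : 16 * M0 ≤ (k : ℝ) ^ 12) {L' : Ω → ℝ → ℝ → ℝ → ℝ → ℝ}
    (hL' : ∀ᵐ ω ∂P, ∀ x s y t, s < t → (L' ω x s y t : EReal) = hShift h (L ω) x s y t) (m : ℝ) :
    P {ω | σ * (stat ρ x0 t0 M k (L' ω) - m) < c₀ * ρ ^ 2 / 4 * (k : ℝ) ^ 7} ≤
      ENNReal.ofReal ((8 * tailF L P ((k : ℝ) ^ 12 / 16) + tailAbs L P M) *
        (2 * (c₀ + H) / c₀)) +
      P {ω | c₀ * ρ ^ 2 / 4 * (k : ℝ) ^ 7 ≤ |stat ρ x0 t0 M k (L ω) - m|} := by
  have hε := epsK_pos hρ hk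
  have hk0 : (0 : ℝ) < k := by exact_mod_cast hk
  have hH0 : 0 ≤ H := (abs_nonneg _).trans (hH (0, 0))
  set ε := epsK ρ k with hεd
  set p := 8 * tailF L P ((k : ℝ) ^ 12 / 16) + tailAbs L P M with hp
  have hp0 : 0 ≤ p := by
    have h1 := tailF_nonneg (L := L) (P := P) ((k : ℝ) ^ 12 / 16)
    have h2 : 0 ≤ tailAbs L P M := measureReal_nonneg
    positivity
  set T : ℕ → ℕ → Set Ω := fun j i => toMeasurable P (badSet L ρ x0 t0 M k j i) with hT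
  have hTm : ∀ j i, MeasurableSet (T j i) := fun j i => measurableSet_toMeasurable _ _
  have hTp : ∀ j i, P.real (T j i) ≤ p := by
    intro j i
    simp only [hT, Measure.real]
    rw [measure_toMeasurable]
    exact ENNReal.toReal_le_of_le_ofReal hp0 (badSet_le hL hM0 hlow hρ x0 t0 M hk hkM0 j i)
  set Z : Ω → ℝ := fun ω => ∑ j ∈ Finset.range (k ^ 9), ∑ i ∈ Finset.range (k ^ 4),
    (T j i).indicator (fun _ => (1 : ℝ)) ω with hZ
  have hZint : Integrable Z P := by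
    refine integrable_finsetSum _ fun j _ => integrable_finsetSum _ fun i _ => ?_
    exact (integrable_const (1 : ℝ)).indicator (hTm j i)
  have hZ0 : ∀ ω, 0 ≤ Z ω := fun ω => Finset.sum_nonneg fun j _ => Finset.sum_nonneg fun i _ =>
    Set.indicator_nonneg (fun _ _ => zero_le_one) _
  have hZI : ∫ ω, Z ω ∂P ≤ (k : ℝ) ^ 13 * p := by
    rw [hZ]
    rw [integral_finsetSum _ (fun j _ => integrable_finsetSum _ fun i _ =>
      (integrable_const (1 : ℝ)).indicator (hTm j i))]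
    calc ∑ j ∈ Finset.range (k ^ 9), ∫ ω, ∑ i ∈ Finset.range (k ^ 4),
          (T j i).indicator (fun _ => (1 : ℝ)) ω ∂P
        = ∑ j ∈ Finset.range (k ^ 9), ∑ i ∈ Finset.range (k ^ 4), P.real (T j i) := by
          refine Finset.sum_congr rfl fun j _ => ?_
          rw [integral_finsetSum _ (fun i _ => (integrable_const (1 : ℝ)).indicator (hTm j i))]
          refine Finset.sum_congr rfl fun i _ => ?_
          rw [integral_indicator_const _ (hTm j i)]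
          simp
      _ ≤ ∑ j ∈ Finset.range (k ^ 9), ∑ i ∈ Finset.range (k ^ 4), p :=
          Finset.sum_le_sum fun j _ => Finset.sum_le_sum fun i _ => hTp j i
      _ = (k : ℝ) ^ 13 * p := by
          simp only [Finset.sum_const, Finset.card_range, nsmul_eq_mul]
          push_cast
          ring
  set θ := c₀ / (2 * (c₀ + H)) with hθ
  have hcH : 0 < c₀ + H := by linarith
  have hθ0 : 0 < θ := by positivity
  have hk13 : 0 < (k : ℝ) ^ 13 := by positivity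
  have hmarkov : P.real {ω | θ * (k : ℝ) ^ 13 ≤ Z ω} ≤ p * (2 * (c₀ + H) / c₀) := by
    have h1 := mul_meas_ge_le_integral_of_nonneg (μ := P) (ae_of_all _ hZ0) hZint
      (θ * (k : ℝ) ^ 13)
    have h2 : θ * (k : ℝ) ^ 13 * P.real {ω | θ * (k : ℝ) ^ 13 ≤ Z ω} ≤ (k : ℝ) ^ 13 * p :=
      h1.trans hZI
    have h3 : θ * P.real {ω | θ * (k : ℝ) ^ 13 ≤ Z ω} ≤ p := by
      have h4 : (k : ℝ) ^ 13 * (θ * P.real {ω | θ * (k : ℝ) ^ 13 ≤ Z ω}) ≤ (k : ℝ) ^ 13 * p := by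
        linarith
      exact le_of_mul_le_mul_left h4 hk13
    have h5 : P.real {ω | θ * (k : ℝ) ^ 13 ≤ Z ω} ≤ p / θ := by
      rw [le_div_iff₀ hθ0]
      linarith
    refine h5.trans_eq ?_
    rw [hθ]
    field_simp
  have hmarkov' : P {ω | θ * (k : ℝ) ^ 13 ≤ Z ω} ≤ ENNReal.ofReal (p * (2 * (c₀ + H) / c₀)) := by
    rw [← ofReal_measureReal (s := {ω | θ * (k : ℝ) ^ 13 ≤ Z ω})]
    exact ENNReal.ofReal_le_ofReal hmarkov
  refine le_trans ?_ (add_le_add hmarkov' le_rfl)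
  refine le_trans (measure_mono_ae ?_) (measure_union_le _ _)
  filter_upwards [hL', hL.length] with ω hω' hωlen hmem
  have hmem' : σ * (stat ρ x0 t0 M k (L' ω) - m) < c₀ * ρ ^ 2 / 4 * (k : ℝ) ^ 7 := hmem
  change ω ∈ {ω | θ * (k : ℝ) ^ 13 ≤ Z ω} ∪
    {ω | c₀ * ρ ^ 2 / 4 * (k : ℝ) ^ 7 ≤ |stat ρ x0 t0 M k (L ω) - m|}
  by_contra hcon
  simp only [Set.mem_union, Set.mem_ofPred_eq, not_or, not_le] at hcon
  obtain ⟨hZlt, hFlt⟩ := hcon
  -- the gain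
  have hterm : ∀ j ∈ Finset.range (k ^ 9), ∀ i ∈ Finset.range (k ^ 4),
      c₀ * ε ^ 2 - (T j i).indicator (fun _ => (1 : ℝ)) ω * ((c₀ + H) * ε ^ 2) ≤
      σ * (trunc M (ε⁻¹ * boxVal ρ x0 t0 k (L' ω) j i) -
        trunc M (ε⁻¹ * boxVal ρ x0 t0 k (L ω) j i)) := by
    intro j hj i hi
    rw [Finset.mem_range] at hj hi
    have hε3 : 0 < ε ^ 3 := by positivity
    have heff := box_effect (ℓ := L ω) hh hH hc₀ hσ hρ hρ1 hM hbox hk hkM hj hi hωlen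
      (v' := boxVal ρ x0 t0 k (L' ω) j i) (hω' _ _ _ _ (by linarith))
    by_cases hbadω : ω ∈ T j i
    · rw [Set.indicator_of_mem hbadω]
      have := heff.1
      linarith
    · rw [Set.indicator_of_notMem hbadω]
      have hnb : ω ∉ badSet L ρ x0 t0 M k j i := fun hc => hbadω (subset_toMeasurable _ _ hc)
      simp only [badSet, Set.mem_union, not_or, Set.mem_ofPred_eq, not_lt] at hnb
      have h1 := heff.2 (by
        intro z hz r hr
        have h2 := hnb.1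
        simp only [boxBad, Set.mem_ofPred_eq, not_exists, not_and, not_or, not_lt] at h2
        exact h2 z hz r hr) hnb.2
      linarith
  have hsum : (k : ℝ) ^ 13 * (c₀ * ε ^ 2) - Z ω * ((c₀ + H) * ε ^ 2) ≤
      σ * (stat ρ x0 t0 M k (L' ω) - stat ρ x0 t0 M k (L ω)) := by
    have h1 : ∑ j ∈ Finset.range (k ^ 9), ∑ i ∈ Finset.range (k ^ 4),
        (c₀ * ε ^ 2 - (T j i).indicator (fun _ => (1 : ℝ)) ω * ((c₀ + H) * ε ^ 2)) ≤
        ∑ j ∈ Finset.range (k ^ 9), ∑ i ∈ Finset.range (k ^ 4),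
        σ * (trunc M (ε⁻¹ * boxVal ρ x0 t0 k (L' ω) j i) -
        trunc M (ε⁻¹ * boxVal ρ x0 t0 k (L ω) j i)) :=
      Finset.sum_le_sum fun j hj => Finset.sum_le_sum fun i hi => hterm j hj i hi
    have h2 : ∑ j ∈ Finset.range (k ^ 9), ∑ i ∈ Finset.range (k ^ 4),
        (c₀ * ε ^ 2 - (T j i).indicator (fun _ => (1 : ℝ)) ω * ((c₀ + H) * ε ^ 2)) =
        (k : ℝ) ^ 13 * (c₀ * ε ^ 2) - Z ω * ((c₀ + H) * ε ^ 2) := by
      simp only [Finset.sum_sub_distrib, Finset.sum_const, Finset.card_range, nsmul_eq_mul,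
        ← Finset.sum_mul, hZ]
      push_cast
      ring
    have h3 : ∑ j ∈ Finset.range (k ^ 9), ∑ i ∈ Finset.range (k ^ 4),
        σ * (trunc M (ε⁻¹ * boxVal ρ x0 t0 k (L' ω) j i) -
        trunc M (ε⁻¹ * boxVal ρ x0 t0 k (L ω) j i)) =
        σ * (stat ρ x0 t0 M k (L' ω) - stat ρ x0 t0 M k (L ω)) := by
      unfold stat
      simp only [← Finset.mul_sum, Finset.sum_sub_distrib]
      rfl
    rw [h2, h3] at h1
    exact h1
  have hε2 : (k : ℝ) ^ 13 * ε ^ 2 = ρ ^ 2 * (k : ℝ) ^ 7 := by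
    rw [hεd]
    unfold epsK
    field_simp
  have hgain : c₀ * ρ ^ 2 / 2 * (k : ℝ) ^ 7 ≤
      σ * (stat ρ x0 t0 M k (L' ω) - stat ρ x0 t0 M k (L ω)) := by
    refine le_trans ?_ hsum
    have h1 : Z ω * ((c₀ + H) * ε ^ 2) ≤ θ * (k : ℝ) ^ 13 * ((c₀ + H) * ε ^ 2) := by
      gcongr
    have h2 : θ * (k : ℝ) ^ 13 * ((c₀ + H) * ε ^ 2) = c₀ / 2 * ((k : ℝ) ^ 13 * ε ^ 2) := by
      rw [hθ]
      field_simp
    rw [h2, hε2] at h1
    have h3 : (k : ℝ) ^ 13 * (c₀ * ε ^ 2) = c₀ * (ρ ^ 2 * (k : ℝ) ^ 7) := by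
      rw [← hε2]
      ring
    rw [h3]
    linarith
  have hFabs := abs_lt.1 hFlt
  have hsplit : σ * (stat ρ x0 t0 M k (L' ω) - m) =
      σ * (stat ρ x0 t0 M k (L' ω) - stat ρ x0 t0 M k (L ω)) +
      σ * (stat ρ x0 t0 M k (L ω) - m) := by ring
  have hlow2 : -(c₀ * ρ ^ 2 / 4 * (k : ℝ) ^ 7) < σ * (stat ρ x0 t0 M k (L ω) - m) := by
    rcases hσ with rfl | rfl
    · linarith [hFabs.1]
    · linarith [hFabs.2]
  rw [hsplit] at hmem'
  linarith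

end Pool.Agent.Lib.MP_cd6101_pr
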