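import Mathlib
import Pool.Agent.Lib.MP_cd6101_pr.AirySheet

/-!
# One-point laws, tails and decorrelation for the directed landscape
-/

open Set Topology MeasureTheory ProbabilityTheory Filter

namespace Pool.Agent.Lib.MP_cd6101_pr

variable {Ω : Type*} {mΩ : MeasurableSpace Ω} {P : Measure Ω} [IsProbabilityMeasure P]
  {L : Ω → ℝ → ℝ → ℝ → ℝ → ℝ}

/-- The information contained in the restriction of `L` to the time interval `[a, b]`. -/
@[reducible] def timeSigma {Ω : Type*} (L : Ω → ℝ → ℝ → ℝ → ℝ → ℝ) (a b : ℝ) : MeasurableSpace Ω :=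
  ⨆ (x : ℝ) (s : ℝ) (y : ℝ) (t : ℝ) (_ : a ≤ s ∧ s < t ∧ t ≤ b),
    MeasurableSpace.comap (fun ω => L ω x s y t) inferInstance

lemma measurable_timeRestr (L : Ω → ℝ → ℝ → ℝ → ℝ → ℝ) {I : Set ℝ} {x s y t : ℝ} (hs : s ∈ I)
    (ht : t ∈ I) (hst : s < t) : Measurable[timeRestr L I] fun ω => L ω x s y t := by
  have h1 : MeasurableSpace.comap (fun ω => L ω x s y t) inferInstance ≤ timeRestr L I := by
    unfold timeRestr
    refine le_iSup_of_le x ?_
    refine le_iSup_of_le s ?_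
    refine le_iSup_of_le y ?_
    refine le_iSup_of_le t ?_
    exact le_iSup_of_le ⟨hs, ht, hst⟩ le_rfl
  exact (comap_measurable _).mono h1 le_rfl

/-- By continuity the endpoints of the time interval do not matter. -/
lemma IsDirectedLandscape.timeSigma_le_timeRestr (hL : IsDirectedLandscape L P) (a b : ℝ) :
    timeSigma L a b ≤ timeRestr L (Ioo a b) := by
  unfold timeSigma
  refine iSup_le fun x => iSup_le fun s => iSup_le fun y => iSup_le fun t => iSup_le fun h => ?_
  have hst := h.2.1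
  refine Measurable.comap_le ?_
  have hn : ∀ n : ℕ, 0 < (t - s) / ((n : ℝ) + 3) ∧ (t - s) / ((n : ℝ) + 3) ≤ (t - s) / 3 := by
    intro n
    have h1 : (0 : ℝ) ≤ n := Nat.cast_nonneg n
    have h2 : 0 < t - s := by linarith
    refine ⟨by positivity, ?_⟩
    gcongr
    linarith
  have hlim : ∀ ω, Tendsto (fun n : ℕ => L ω x (s + (t - s) / ((n : ℝ) + 3)) y
      (t - (t - s) / ((n : ℝ) + 3))) atTop (𝓝 (L ω x s y t)) := by
    intro ω
    have hopen : IsOpen {q : (ℝ × ℝ) × (ℝ × ℝ) | q.1.2 < q.2.2} :=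
      isOpen_lt (by fun_prop) (by fun_prop)
    have hc : ContinuousAt (fun q : (ℝ × ℝ) × (ℝ × ℝ) => L ω q.1.1 q.1.2 q.2.1 q.2.2)
        ((x, s), (y, t)) := (hL.continuous ω).continuousAt (hopen.mem_nhds hst)
    have h0 : Tendsto (fun n : ℕ => (t - s) / ((n : ℝ) + 3)) atTop (𝓝 0) := by
      refine Tendsto.div_atTop tendsto_const_nhds ?_
      exact tendsto_atTop_add_const_right _ _ tendsto_natCast_atTop_atTop
    have h1 : Tendsto (fun n : ℕ => (((x, s + (t - s) / ((n : ℝ) + 3)),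
        (y, t - (t - s) / ((n : ℝ) + 3))) : (ℝ × ℝ) × (ℝ × ℝ))) atTop
        (𝓝 ((x, s), (y, t))) := by
      have e1 : Tendsto (fun n : ℕ => s + (t - s) / ((n : ℝ) + 3)) atTop (𝓝 s) := by
        simpa using h0.const_add s
      have e2 : Tendsto (fun n : ℕ => t - (t - s) / ((n : ℝ) + 3)) atTop (𝓝 t) := by
        simpa using h0.const_sub t
      exact (tendsto_const_nhds.prodMk_nhds e1).prodMk_nhds (tendsto_const_nhds.prodMk_nhds e2)
    exact hc.tendsto.comp h1
  refine @measurable_of_tendsto_metrizable Ω ℝ (timeRestr L (Ioo a b)) _ _ _ _ _ _ (fun n => ?_)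
    (tendsto_pi_nhds.2 hlim)
  obtain ⟨h1, h2⟩ := hn n
  exact measurable_timeRestr L ⟨by linarith [h.1], by linarith [h.2.2]⟩
    ⟨by linarith [h.1], by linarith [h.2.2]⟩ (by linarith)

lemma measurable_timeSigma (L : Ω → ℝ → ℝ → ℝ → ℝ → ℝ) {a b x s y t : ℝ} (ha : a ≤ s)
    (hst : s < t) (hb : t ≤ b) : Measurable[timeSigma L a b] fun ω => L ω x s y t := by
  have h1 : MeasurableSpace.comap (fun ω => L ω x s y t) inferInstance ≤ timeSigma L a b := by
    unfold timeSigma
    refine le_iSup_of_le x ?_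
    refine le_iSup_of_le s ?_
    refine le_iSup_of_le y ?_
    refine le_iSup_of_le t ?_
    exact le_iSup_of_le ⟨ha, hst, hb⟩ le_rfl
  exact (comap_measurable _).mono h1 le_rfl

lemma IsDirectedLandscape.timeSigma_le (hL : IsDirectedLandscape L P) (a b : ℝ) :
    timeSigma L a b ≤ mΩ := by
  unfold timeSigma
  refine iSup_le fun x => iSup_le fun s => iSup_le fun y => iSup_le fun t => iSup_le fun h => ?_
  exact (hL.measurable x s y t h.2.1).comap_le

lemma IsDirectedLandscape.indep_pair (hL : IsDirectedLandscape L P) {a b c d : ℝ} (hbc : b ≤ c) :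
    Indep (timeSigma L a b) (timeSigma L c d) P := by
  have h := hL.indep 2 ![Ioo a b, Ioo c d] (by
    intro i
    fin_cases i
    · exact ordConnected_Ioo
    · exact ordConnected_Ioo) (by
    have hdisj : Disjoint (Ioo a b) (Ioo c d) := by
      rw [Set.disjoint_left]
      intro u hu hu'
      linarith [hu.2, hu'.1]
    intro i j hij
    fin_cases i <;> fin_cases j
    · exact absurd rfl hij
    · exact hdisj
    · exact hdisj.symm
    · exact absurd rfl hij)
  have h2 : Indep (timeRestr L (Ioo a b)) (timeRestr L (Ioo c d)) P := by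
    have := h.indep (i := 0) (j := 1) (by simp)
    simpa using this
  exact indep_of_indep_of_le_left
    (indep_of_indep_of_le_right h2 (hL.timeSigma_le_timeRestr c d)) (hL.timeSigma_le_timeRestr a b)

/-- The reference variable. -/
def refVar (L : Ω → ℝ → ℝ → ℝ → ℝ → ℝ) (ω : Ω) : ℝ := L ω 0 0 0 1

/-- The Airy sheet field of the strip `[s, s + ε³]`. -/
noncomputable def stripSheet (L : Ω → ℝ → ℝ → ℝ → ℝ → ℝ) (s ε : ℝ) (ω : Ω) (x y : ℝ) : ℝ :=
  ε⁻¹ * L ω (ε ^ 2 * x) s (ε ^ 2 * y) (s + ε ^ 3)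

lemma IsDirectedLandscape.strip_zero (hL : IsDirectedLandscape L P) (s : ℝ) {ε : ℝ}
    (hε : 0 < ε) :
    IdentDistrib (fun ω => stripSheet L s ε ω 0 0) (refVar L) P P := by
  obtain ⟨Ω1, m1, P1, hP1, B1, hB1, h1⟩ := (hL.airy s ε hε).limit
  obtain ⟨Ω2, m2, P2, hP2, B2, hB2, h2⟩ := (hL.airy 0 1 one_pos).limit
  have h := identDistrib_airy_airy (S := stripSheet L s ε) (S2 := stripSheet L 0 1)
    hB1 h1 hB2 h2
  have e : (fun ω => stripSheet L 0 1 ω 0 0) = refVar L := by
    ext ω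
    simp [stripSheet, refVar]
  rw [e] at h
  exact h

/-- One-point law of the directed landscape. -/
lemma IsDirectedLandscape.onePoint (hL : IsDirectedLandscape L P) (x y s t : ℝ) {ε : ℝ}
    (hε : 0 < ε) (ht : t = s + ε ^ 3) :
    IdentDistrib (fun ω => L ω x s y t) (fun ω => ε * refVar L ω - (x - y) ^ 2 / ε ^ 3) P P := by
  subst ht
  obtain ⟨Ω1, m1, P1, hP1, B1, hB1, h1⟩ := (hL.airy s ε hε).limit
  have h := identDistrib_airy (S := stripSheet L s ε) hB1 h1 (x / ε ^ 2) (y / ε ^ 2)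
  have h2 := (hL.strip_zero s hε).comp (u := fun v => v - (x / ε ^ 2 - y / ε ^ 2) ^ 2)
    (by fun_prop)
  have h3 := (h.trans h2).comp (u := fun v => ε * v) (by fun_prop)
  have e1 : (fun v => ε * v) ∘ (fun ω => stripSheet L s ε ω (x / ε ^ 2) (y / ε ^ 2)) =
      fun ω => L ω x s y (s + ε ^ 3) := by
    ext ω
    simp only [Function.comp, stripSheet]
    have e2 : ε ^ 2 * (x / ε ^ 2) = x := by field_simp
    have e3 : ε ^ 2 * (y / ε ^ 2) = y := by field_simp
    rw [e2, e3]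
    field_simp
  have e4 : (fun v => ε * v) ∘ ((fun v => v - (x / ε ^ 2 - y / ε ^ 2) ^ 2) ∘ refVar L) =
      fun ω => ε * refVar L ω - (x - y) ^ 2 / ε ^ 3 := by
    ext ω
    simp only [Function.comp]
    field_simp
  rw [e1, e4] at h3
  exact h3

/-- The tail function of the reference variable. -/
noncomputable def tailF (L : Ω → ℝ → ℝ → ℝ → ℝ → ℝ) (P : Measure Ω) (c : ℝ) : ℝ :=
  P.real {ω | c ≤ refVar L ω}

omit [IsProbabilityMeasure P] in
lemma tailF_nonneg (c : ℝ) : 0 ≤ tailF L P c := measureReal_nonneg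

lemma tailF_le_one (c : ℝ) : tailF L P c ≤ 1 := measureReal_le_one

lemma tailF_anti {c d : ℝ} (h : c ≤ d) : tailF L P d ≤ tailF L P c :=
  measureReal_mono (fun ω hω => le_trans h hω)

lemma IsDirectedLandscape.measurable_refVar (hL : IsDirectedLandscape L P) :
    Measurable (refVar L) := hL.measurable 0 0 0 1 one_pos

lemma tendsto_tailF (hL : IsDirectedLandscape L P) :
    Tendsto (fun n : ℕ => tailF L P n) atTop (𝓝 0) := by
  have hm := hL.measurable_refVar
  have h1 : Tendsto (fun n : ℕ => P {ω | (n : ℝ) ≤ refVar L ω}) atTop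
      (𝓝 (P (⋂ n : ℕ, {ω | (n : ℝ) ≤ refVar L ω}))) := by
    refine tendsto_measure_iInter_atTop (fun n =>
      (measurableSet_le measurable_const hm).nullMeasurableSet) (fun m n hmn ω hω => ?_)
      ⟨0, measure_ne_top _ _⟩
    simp only [Set.mem_ofPred_eq] at hω ⊢
    exact le_trans (by exact_mod_cast hmn) hω
  have h2 : (⋂ n : ℕ, {ω | (n : ℝ) ≤ refVar L ω}) = ∅ := by
    ext ω
    simp only [Set.mem_iInter, Set.mem_ofPred_eq, Set.mem_empty_iff_false, iff_false, not_forall,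
      not_le]
    exact exists_nat_gt _
  rw [h2, measure_empty] at h1
  have h3 := (ENNReal.tendsto_toReal ENNReal.zero_ne_top).comp h1
  simpa [tailF, Measure.real, Function.comp_def] using h3

lemma exists_lower (hL : IsDirectedLandscape L P) {η : ℝ} (hη : 0 < η) :
    ∃ C : ℝ, 0 < C ∧ P.real {ω | refVar L ω < -C} ≤ η := by
  have hm := hL.measurable_refVar
  have h1 : Tendsto (fun n : ℕ => P {ω | refVar L ω < -(n : ℝ)}) atTop
      (𝓝 (P (⋂ n : ℕ, {ω | refVar L ω < -(n : ℝ)}))) := by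
    refine tendsto_measure_iInter_atTop (fun n =>
      (measurableSet_lt hm measurable_const).nullMeasurableSet) (fun m n hmn ω hω => ?_)
      ⟨0, measure_ne_top _ _⟩
    simp only [Set.mem_ofPred_eq] at hω ⊢
    have : (m : ℝ) ≤ n := by exact_mod_cast hmn
    linarith
  have h2 : (⋂ n : ℕ, {ω | refVar L ω < -(n : ℝ)}) = ∅ := by
    ext ω
    simp only [Set.mem_iInter, Set.mem_ofPred_eq, Set.mem_empty_iff_false, iff_false, not_forall,
      not_lt]
    obtain ⟨n, hn⟩ := exists_nat_gt (-refVar L ω)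
    exact ⟨n, by linarith⟩
  rw [h2, measure_empty] at h1
  have h3 := (ENNReal.tendsto_toReal ENNReal.zero_ne_top).comp h1
  simp only [ENNReal.toReal_zero] at h3
  have h4 := (h3.eventually (ge_mem_nhds hη)).and (eventually_ge_atTop 1)
  obtain ⟨n, hn, hn1⟩ := h4.exists
  exact ⟨n, by exact_mod_cast hn1, hn⟩

/-- The two-strip recursion for the upper tail. -/
lemma tail_recursion (hL : IsDirectedLandscape L P) (C c : ℝ) :
    tailF L P c * (2 - 2 * P.real {ω | refVar L ω < -C} - tailF L P c) ≤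
      tailF L P ((c - C) / 2 ^ ((1 : ℝ) / 3)) := by
  have m1 : Measurable fun ω => L ω 0 0 0 1 := hL.measurable 0 0 0 1 one_pos
  have m2 : Measurable fun ω => L ω 0 1 0 2 := hL.measurable 0 1 0 2 one_lt_two
  have m1' := measurable_timeSigma L (a := 0) (b := 1) (x := 0) (s := 0) (y := 0) (t := 1)
    le_rfl one_pos le_rfl
  have m2' := measurable_timeSigma L (a := 1) (b := 2) (x := 0) (s := 1) (y := 0) (t := 2)
    le_rfl one_lt_two le_rfl
  have hind := hL.indep_pair (a := 0) (b := 1) (c := 1) (d := 2) le_rfl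
  rw [Indep_iff] at hind
  -- laws
  have law2 : IdentDistrib (fun ω => L ω 0 1 0 2) (refVar L) P P := by
    have := hL.onePoint 0 0 1 2 (ε := 1) one_pos (by norm_num)
    simpa using this
  have h2pos : (0 : ℝ) < 2 ^ ((1 : ℝ) / 3) := Real.rpow_pos_of_pos two_pos _
  have h2cube : ((2 : ℝ) ^ ((1 : ℝ) / 3)) ^ 3 = 2 := by
    rw [← Real.rpow_natCast, ← Real.rpow_mul two_pos.le]
    norm_num
  have law3 : IdentDistrib (fun ω => L ω 0 0 0 2)
      (fun ω => 2 ^ ((1 : ℝ) / 3) * refVar L ω) P P := by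
    have := hL.onePoint 0 0 0 2 (ε := 2 ^ ((1 : ℝ) / 3)) h2pos (by rw [h2cube]; norm_num)
    simpa using this
  set q := P.real {ω | refVar L ω < -C} with hq
  -- events
  set A1 : Set Ω := {ω | c ≤ L ω 0 0 0 1} with hA1
  set A2 : Set Ω := {ω | c ≤ L ω 0 1 0 2} with hA2
  set G1 : Set Ω := {ω | -C ≤ L ω 0 0 0 1} with hG1
  set G2 : Set Ω := {ω | -C ≤ L ω 0 1 0 2} with hG2
  have mA1 : MeasurableSet[timeSigma L 0 1] A1 := m1' measurableSet_Ici
  have mA2 : MeasurableSet[timeSigma L 1 2] A2 := m2' measurableSet_Ici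
  have mG1 : MeasurableSet[timeSigma L 0 1] G1 := m1' measurableSet_Ici
  have mG2 : MeasurableSet[timeSigma L 1 2] G2 := m2' measurableSet_Ici
  have i1 : P.real (A1 ∩ G2) = P.real A1 * P.real G2 := by
    simp only [Measure.real]
    rw [hind A1 G2 mA1 mG2, ENNReal.toReal_mul]
  have i2 : P.real (G1 ∩ A2) = P.real G1 * P.real A2 := by
    simp only [Measure.real]
    rw [hind G1 A2 mG1 mA2, ENNReal.toReal_mul]
  have i3 : P.real (A1 ∩ A2) = P.real A1 * P.real A2 := by
    simp only [Measure.real]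
    rw [hind A1 A2 mA1 mA2, ENNReal.toReal_mul]
  have pA1 : P.real A1 = tailF L P c := rfl
  have pA2 : P.real A2 = tailF L P c := by
    have := law2.measure_mem_eq (measurableSet_Ici (a := c))
    simp only [tailF, Measure.real]
    exact congrArg ENNReal.toReal this
  have hcompl : P.real {ω | -C ≤ refVar L ω} = 1 - q := by
    have h1 : {ω | -C ≤ refVar L ω} = {ω | refVar L ω < -C}ᶜ := by
      ext ω
      simp
    rw [h1, probReal_compl_eq_one_sub (measurableSet_lt hL.measurable_refVar measurable_const)]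
  have pG1 : P.real G1 = 1 - q := hcompl
  have pG2 : P.real G2 = 1 - q := by
    rw [← hcompl]
    have := law2.measure_mem_eq (measurableSet_Ici (a := -C))
    simp only [Measure.real]
    exact congrArg ENNReal.toReal this
  have nA1 : MeasurableSet A1 := m1 measurableSet_Ici
  have nA2 : MeasurableSet A2 := m2 measurableSet_Ici
  have nG1 : MeasurableSet G1 := m1 measurableSet_Ici
  have nG2 : MeasurableSet G2 := m2 measurableSet_Ici
  -- inclusion-exclusion
  have hunion : P.real ((A1 ∩ G2) ∪ (G1 ∩ A2)) + P.real ((A1 ∩ G2) ∩ (G1 ∩ A2)) =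
      P.real (A1 ∩ G2) + P.real (G1 ∩ A2) :=
    measureReal_union_add_inter (nG1.inter nA2)
  have hinter : P.real ((A1 ∩ G2) ∩ (G1 ∩ A2)) ≤ P.real (A1 ∩ A2) :=
    measureReal_mono (fun ω hω => ⟨hω.1.1, hω.2.2⟩)
  have hsub : P.real ((A1 ∩ G2) ∪ (G1 ∩ A2)) ≤ P.real {ω | c - C ≤ L ω 0 0 0 2} := by
    simp only [Measure.real]
    refine ENNReal.toReal_mono (measure_ne_top _ _) (measure_mono_ae ?_)
    filter_upwards [hL.composition] with ω hω hmem
    have h1 := (hω 0 0 0 2 1 one_pos one_lt_two).2 ⟨0, rfl⟩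
    simp only at h1
    have hmem' : ω ∈ (A1 ∩ G2) ∪ (G1 ∩ A2) := hmem
    change c - C ≤ L ω 0 0 0 2
    rcases hmem' with hmem' | hmem'
    · have h3 : c ≤ L ω 0 0 0 1 := hmem'.1
      have h4 : -C ≤ L ω 0 1 0 2 := hmem'.2
      linarith
    · have h3 : -C ≤ L ω 0 0 0 1 := hmem'.1
      have h4 : c ≤ L ω 0 1 0 2 := hmem'.2
      linarith
  have plast : P.real {ω | c - C ≤ L ω 0 0 0 2} = tailF L P ((c - C) / 2 ^ ((1 : ℝ) / 3)) := by
    have := law3.measure_mem_eq (measurableSet_Ici (a := c - C))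
    simp only [tailF, Measure.real]
    refine congrArg ENNReal.toReal (this.trans ?_)
    congr 1
    ext ω
    simp only [Set.mem_preimage, Set.mem_Ici, Set.mem_ofPred_eq]
    rw [div_le_iff₀ h2pos, mul_comm]
  rw [plast] at hsub
  rw [i1, i2, pA1, pA2, pG1, pG2] at hunion
  rw [i3, pA1, pA2] at hinter
  nlinarith

/-- Polynomial upper tail. -/
lemma tail_bound (hL : IsDirectedLandscape L P) : ∃ K : ℝ, 0 < K ∧ ∀ c, 0 < c →
    c * tailF L P c ≤ K := by
  obtain ⟨C, hC, hq⟩ := exists_lower hL (η := 1 / 10) (by norm_num)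
  have h1 := (tendsto_tailF hL).eventually (ge_mem_nhds (by norm_num : (0 : ℝ) < 1 / 10))
  obtain ⟨n0, hn0⟩ := h1.exists
  set K : ℝ := max (max n0 (20 * C)) 1 with hK
  have hK1 : 1 ≤ K := le_max_right _ _
  have hKn : (n0 : ℝ) ≤ K := (le_max_left _ _).trans (le_max_left _ _)
  have hKC : 20 * C ≤ K := (le_max_right _ _).trans (le_max_left _ _)
  have hcube : (2 : ℝ) ^ ((1 : ℝ) / 3) ≤ 1.26 := by
    have h2cube : ((2 : ℝ) ^ ((1 : ℝ) / 3)) ^ 3 = 2 := by
      rw [← Real.rpow_natCast, ← Real.rpow_mul two_pos.le]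
      norm_num
    by_contra hcon
    push Not at hcon
    have := pow_lt_pow_left₀ hcon (by norm_num) (n := 3) (by norm_num)
    rw [h2cube] at this
    norm_num at this
  have h2pos : (0 : ℝ) < 2 ^ ((1 : ℝ) / 3) := Real.rpow_pos_of_pos two_pos _
  have step : ∀ c, K < c → c * tailF L P c ≤ 3 / 4 * c * tailF L P (3 / 4 * c) := by
    intro c hc
    have hrec := tail_recursion hL C c
    have hTc : tailF L P c ≤ 1 / 10 := (tailF_anti (hKn.trans hc.le)).trans hn0
    have hT0 : 0 ≤ tailF L P c := tailF_nonneg c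
    have hle : 3 / 4 * c ≤ (c - C) / 2 ^ ((1 : ℝ) / 3) := by
      rw [le_div_iff₀ h2pos]
      nlinarith
    have h3 : tailF L P ((c - C) / 2 ^ ((1 : ℝ) / 3)) ≤ tailF L P (3 / 4 * c) := tailF_anti hle
    have h4 : tailF L P c * (17 / 10) ≤ tailF L P (3 / 4 * c) := by nlinarith
    have h5 : 0 ≤ tailF L P (3 / 4 * c) := tailF_nonneg _
    have hc0 : 0 < c := by linarith
    nlinarith
  have main : ∀ n : ℕ, ∀ c, 0 < c → c ≤ K * (4 / 3) ^ n → c * tailF L P c ≤ K := by
    intro n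
    induction n with
    | zero =>
      intro c hc hcK
      rw [pow_zero, mul_one] at hcK
      have := tailF_le_one (L := L) (P := P) c
      have h0 := tailF_nonneg (L := L) (P := P) c
      nlinarith
    | succ n ih =>
      intro c hc hcK
      by_cases h : c ≤ K
      · have := tailF_le_one (L := L) (P := P) c
        have h0 := tailF_nonneg (L := L) (P := P) c
        nlinarith
      · push Not at h
        refine (step c h).trans (ih (3 / 4 * c) (by linarith) ?_)
        rw [pow_succ] at hcK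
        linarith
  refine ⟨K, by linarith, fun c hc => ?_⟩
  obtain ⟨n, hn⟩ := pow_unbounded_of_one_lt (c / K) (by norm_num : (1 : ℝ) < 4 / 3)
  refine main n c hc ?_
  rw [div_lt_iff₀ (by linarith)] at hn
  linarith

/-- Decorrelation inside a strip. -/
lemma IsDirectedLandscape.cov_strip (hL : IsDirectedLandscape L P) {M M0 : ℝ} (hM : 0 < M)
    (hM0 : 0 < M0) (hlow : 1 / 2 < P {ω | -M0 < refVar L ω}) (s : ℝ) {ε u u' : ℝ} (hε : 0 < ε)
    (hu : u < u') (hc : 0 ≤ ((u' - u) / 2) ^ 2 / 2 - 1 - M / 2 - 2 * M0) :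
    |cov[fun ω => trunc M (stripSheet L s ε ω u u),
        fun ω => trunc M (stripSheet L s ε ω u' u'); P]| ≤
      32 * M ^ 2 * tailF L P ((((u' - u) / 2) ^ 2 / 2 - 1 - M / 2 - 2 * M0) / 2) := by
  obtain ⟨Ω1, m1, P1, hP1, B1, hB1, h1⟩ := (hL.airy s ε hε).limit
  have hid := hL.strip_zero s hε
  have hlow' : 1 / 2 < P {ω | -M0 < stripSheet L s ε ω 0 0} := by
    have := hid.measure_mem_eq (measurableSet_Ioi (a := -M0))
    calc (1 / 2 : ENNReal) < P {ω | -M0 < refVar L ω} := hlow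
      _ = _ := this.symm
  have h := airy_cov (S := stripSheet L s ε) hB1 h1 hM0 hM hlow' hu hc
  have htail : P.real {ω | (((u' - u) / 2) ^ 2 / 2 - 1 - M / 2 - 2 * M0) / 2 ≤
      stripSheet L s ε ω 0 0} =
      tailF L P ((((u' - u) / 2) ^ 2 / 2 - 1 - M / 2 - 2 * M0) / 2) := by
    have := hid.measure_mem_eq
      (measurableSet_Ici (a := (((u' - u) / 2) ^ 2 / 2 - 1 - M / 2 - 2 * M0) / 2))
    simp only [tailF, Measure.real]
    exact congrArg ENNReal.toReal this
  rw [htail] at h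
  have hmeas : ∀ v, Measurable fun ω => trunc M (stripSheet L s ε ω v v) := fun v =>
    (measurable_trunc M).comp ((hL.measurable _ _ _ _ (by
      have : 0 < ε ^ 3 := by positivity
      linarith)).const_mul _)
  have hmem : ∀ v, MemLp (fun ω => trunc M (stripSheet L s ε ω v v)) 2 P := fun v =>
    MemLp.of_bound (hmeas v).aestronglyMeasurable M (ae_of_all _ fun ω => abs_trunc_le hM.le _)
  rw [covariance_eq_sub (hmem u) (hmem u')]
  exact h

/-! ### A maximal inequality -/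

omit [IsProbabilityMeasure P] in
/-- Abstract maximal inequality. -/
lemma abstract_max {ι : Type*} [LinearOrder ι] [Countable ι] [Nonempty ι] (D : Set ι)
    (past future : ι → MeasurableSpace Ω) (hpast : ∀ r, past r ≤ mΩ)
    (hfut : ∀ r, future r ≤ mΩ) (hmono : ∀ r r', r ≤ r' → past r ≤ past r')
    (hind : ∀ r ∈ D, Indep (past r) (future r) P) (A R : ι → Set Ω)
    (hA : ∀ r ∈ D, MeasurableSet[past r] (A r)) (hR : ∀ r ∈ D, MeasurableSet[future r] (R r))
    (hprob : ∀ r ∈ D, 1 / 2 ≤ P (R r)) (E : Set Ω)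
    (hsub : ∀ r ∈ D, ∀ᵐ ω ∂P, ω ∈ A r → ω ∈ R r → ω ∈ E) :
    P (⋃ r ∈ D, A r) ≤ 2 * P E := by
  classical
  -- finite version
  have fin : ∀ F : Finset ι, (∀ r ∈ F, r ∈ D) → P (⋃ r ∈ F, A r) ≤ 2 * P E := by
    intro F hF
    set K : ι → Set Ω := fun r => A r ∩ ⋂ r' ∈ F.filter (· < r), (A r')ᶜ with hK
    have hcover : (⋃ r ∈ F, A r) ⊆ ⋃ r ∈ F, K r := by
      intro ω hω
      simp only [Set.mem_iUnion, exists_prop] at hω
      have hne : (F.filter (fun r => ω ∈ A r)).Nonempty := by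
        obtain ⟨r, hr, hr'⟩ := hω
        exact ⟨r, by simp [hr, hr']⟩
      set m := (F.filter (fun r => ω ∈ A r)).min' hne with hm
      have hmem := Finset.min'_mem _ hne
      rw [← hm, Finset.mem_filter] at hmem
      simp only [Set.mem_iUnion, exists_prop]
      refine ⟨m, hmem.1, hmem.2, ?_⟩
      simp only [Set.mem_iInter, Finset.mem_filter, and_imp]
      intro r hr hrm hcon
      have := Finset.min'_le (F.filter (fun r => ω ∈ A r)) r (by simp [hr, hcon])
      exact absurd (lt_of_lt_of_le hrm this) (lt_irrefl _)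
    have hKpast : ∀ r ∈ F, MeasurableSet[past r] (K r) := by
      intro r hr
      refine MeasurableSet.inter (hA r (hF r hr)) ?_
      refine Finset.measurableSet_biInter _ fun r' hr' => ?_
      rw [Finset.mem_filter] at hr'
      exact (hmono r' r hr'.2.le _ (hA r' (hF r' hr'.1))).compl
    have hdisj : ∀ i ∈ F, ∀ j ∈ F, i ≠ j → Disjoint (K i) (K j) := by
      have h0 : ∀ i ∈ F, ∀ j ∈ F, i < j → Disjoint (K i) (K j) := by
        intro i hi j hj hij
        rw [Set.disjoint_left]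
        intro ω h1 h2
        have h3 := h2.2
        simp only [Set.mem_iInter, Finset.mem_filter, and_imp] at h3
        exact h3 i hi hij h1.1
      intro i hi j hj hij
      rcases lt_or_gt_of_ne hij with h | h
      · exact h0 i hi j hj h
      · exact (h0 j hj i hi h).symm
    calc P (⋃ r ∈ F, A r) ≤ P (⋃ r ∈ F, K r) := measure_mono hcover
      _ ≤ ∑ r ∈ F, P (K r) := measure_biUnion_finset_le _ _
      _ ≤ ∑ r ∈ F, 2 * P (K r ∩ R r) := by
          refine Finset.sum_le_sum fun r hr => ?_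
          have h1 := hind r (hF r hr)
          rw [Indep_iff] at h1
          rw [h1 (K r) (R r) (hKpast r hr) (hR r (hF r hr))]
          calc P (K r) = 2 * (P (K r) * (1 / 2)) := by
                rw [mul_comm (P (K r)), ← mul_assoc]
                have : (2 : ENNReal) * (1 / 2) = 1 := by
                  rw [one_div]
                  exact ENNReal.mul_inv_cancel (by norm_num) (by norm_num)
                rw [this, one_mul]
            _ ≤ 2 * (P (K r) * P (R r)) := by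
                gcongr
                exact hprob r (hF r hr)
      _ = 2 * ∑ r ∈ F, P (K r ∩ R r) := by rw [Finset.mul_sum]
      _ = 2 * P (⋃ r ∈ F, (K r ∩ R r)) := by
          rw [measure_biUnion_finset]
          · intro i hi j hj hij
            exact (hdisj i hi j hj hij).mono Set.inter_subset_left Set.inter_subset_left
          · intro r hr
            exact (hpast r _ (hKpast r hr)).inter (hfut r _ (hR r (hF r hr)))
      _ ≤ 2 * P E := by
          gcongr 2 * ?_
          have hall : ∀ᵐ ω ∂P, ∀ r ∈ F, ω ∈ A r → ω ∈ R r → ω ∈ E :=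
            (Finset.eventually_all F).2 fun r hr => hsub r (hF r hr)
          refine measure_mono_ae ?_
          filter_upwards [hall] with ω hω hmem
          have hmem' : ω ∈ ⋃ r ∈ F, (K r ∩ R r) := hmem
          simp only [Set.mem_iUnion, exists_prop] at hmem'
          obtain ⟨r, hr, h1, h2⟩ := hmem'
          exact hω r hr h1.1 h2
  -- countable version
  obtain ⟨e, he⟩ := exists_surjective_nat ι
  have hun : (⋃ r ∈ D, A r) = ⋃ n : ℕ, ⋃ r ∈ ((Finset.range n).image e).filter (· ∈ D), A r := by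
    ext ω
    simp only [Set.mem_iUnion, exists_prop, Finset.mem_filter, Finset.mem_image, Finset.mem_range]
    constructor
    · rintro ⟨r, hr, hω⟩
      obtain ⟨n, rfl⟩ := he r
      exact ⟨n + 1, e n, ⟨⟨n, by omega, rfl⟩, hr⟩, hω⟩
    · rintro ⟨n, r, ⟨_, hr⟩, hω⟩
      exact ⟨r, hr, hω⟩
  rw [hun, Monotone.measure_iUnion]
  · exact iSup_le fun n => fin _ fun r hr => (Finset.mem_filter.1 hr).2
  · intro m n hmn
    refine Set.biUnion_subset_biUnion_left fun r hr => ?_
    simp only [Finset.coe_filter, Finset.mem_image, Finset.mem_range, Set.mem_ofPred_eq] at hr ⊢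
    obtain ⟨⟨a, ha, rfl⟩, hr2⟩ := hr
    exact ⟨⟨a, by omega, rfl⟩, hr2⟩

omit [IsProbabilityMeasure P] in
lemma timeSigma_mono {a b a' b' : ℝ} (ha : a' ≤ a) (hb : b ≤ b') :
    timeSigma L a b ≤ timeSigma L a' b' := by
  unfold timeSigma
  refine iSup_le fun x => iSup_le fun s => iSup_le fun y => iSup_le fun t => iSup_le fun h => ?_
  refine le_iSup_of_le x ?_
  refine le_iSup_of_le s ?_
  refine le_iSup_of_le y ?_
  refine le_iSup_of_le t ?_
  exact le_iSup_of_le ⟨ha.trans h.1, h.2.1, h.2.2.trans hb⟩ le_rfl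

/-- Maximal inequality for the endpoint time. -/
lemma exit_forward (hL : IsDirectedLandscape L P) {x y s t1 t2 c M : ℝ}
    (ht : t1 < t2) (hlow : ∀ r, s < r → r < t1 → 1 / 2 ≤ P {ω | -M ≤ L ω y r y t2}) :
    P {ω | ∃ r ∈ Ioo s t1, c < L ω x s y r} ≤ 2 * P {ω | c - M < L ω x s y t2} := by
  have key := abstract_max (P := P) (ι := ℚ) {q : ℚ | s < q ∧ (q : ℝ) < t1}
    (fun q => timeSigma L s q) (fun q => timeSigma L q t2) (fun q => hL.timeSigma_le _ _)
    (fun q => hL.timeSigma_le _ _) (fun q q' hqq => timeSigma_mono le_rfl (by exact_mod_cast hqq))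
    (fun q _ => hL.indep_pair le_rfl)
    (fun q => {ω | c < L ω x s y q}) (fun q => {ω | -M ≤ L ω y q y t2})
    (fun q hq => measurable_timeSigma L le_rfl hq.1 le_rfl measurableSet_Ioi)
    (fun q hq => measurable_timeSigma L le_rfl (hq.2.trans ht) le_rfl measurableSet_Ici)
    (fun q hq => hlow q hq.1 hq.2) {ω | c - M < L ω x s y t2} (fun q hq => by
      filter_upwards [hL.composition] with ω hω h1 h2
      have h3 : L ω x s y q + L ω y q y t2 ≤ L ω x s y t2 :=
        (hω x s y t2 q hq.1 (hq.2.trans ht)).2 ⟨y, rfl⟩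
      have h1' : c < L ω x s y q := h1
      have h2' : -M ≤ L ω y q y t2 := h2
      show c - M < L ω x s y t2
      linarith)
  refine le_trans (measure_mono ?_) key
  rintro ω ⟨r, hr, hc⟩
  have hcont : ContinuousOn (fun r => L ω x s y r) (Ioi s) := by
    have := (hL.continuous ω).comp (f := fun r : ℝ => ((x, s), (y, r))) (s := Ioi s)
      (by fun_prop) (fun r hr => hr)
    exact this
  have hopen : IsOpen {r' ∈ Ioo s t1 | c < L ω x s y r'} := by
    have h1 : {r' ∈ Ioo s t1 | c < L ω x s y r'} =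
        Ioo s t1 ∩ (fun r => L ω x s y r) ⁻¹' Ioi c := rfl
    rw [h1]
    exact (hcont.mono fun r hr => hr.1).isOpen_inter_preimage isOpen_Ioo isOpen_Ioi
  obtain ⟨q, hq⟩ := Rat.denseRange_cast (𝕜 := ℝ) |>.exists_mem_open hopen ⟨r, hr, hc⟩
  simp only [Set.mem_iUnion, exists_prop]
  exact ⟨q, hq.1, hq.2⟩

/-- Maximal inequality for the starting time. -/
lemma exit_backward (hL : IsDirectedLandscape L P) {x y s0 s1 t c M : ℝ} (hs : s0 < s1)
    (hlow : ∀ r, s1 < r → r < t → 1 / 2 ≤ P {ω | -M ≤ L ω y s0 y r}) :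
    P {ω | ∃ r ∈ Ioo s1 t, c < L ω y r x t} ≤ 2 * P {ω | c - M < L ω y s0 x t} := by
  have : Countable ℚᵒᵈ := inferInstanceAs (Countable ℚ)
  have key := abstract_max (P := P) (ι := ℚᵒᵈ)
    {q : ℚᵒᵈ | s1 < ((OrderDual.ofDual q : ℚ) : ℝ) ∧ ((OrderDual.ofDual q : ℚ) : ℝ) < t}
    (fun q => timeSigma L ((OrderDual.ofDual q : ℚ) : ℝ) t)
    (fun q => timeSigma L s0 ((OrderDual.ofDual q : ℚ) : ℝ)) (fun q => hL.timeSigma_le _ _)
    (fun q => hL.timeSigma_le _ _) (fun q q' hqq => timeSigma_mono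
      (by exact_mod_cast hqq) le_rfl)
    (fun q _ => (hL.indep_pair le_rfl).symm)
    (fun q => {ω | c < L ω y ((OrderDual.ofDual q : ℚ) : ℝ) x t})
    (fun q => {ω | -M ≤ L ω y s0 y ((OrderDual.ofDual q : ℚ) : ℝ)})
    (fun q hq => measurable_timeSigma L le_rfl hq.2 le_rfl measurableSet_Ioi)
    (fun q hq => measurable_timeSigma L le_rfl (hs.trans hq.1) le_rfl measurableSet_Ici)
    (fun q hq => hlow _ hq.1 hq.2) {ω | c - M < L ω y s0 x t} (fun q hq => by
      filter_upwards [hL.composition] with ω hω h1 h2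
      have h3 : L ω y s0 y ((OrderDual.ofDual q : ℚ) : ℝ) +
          L ω y ((OrderDual.ofDual q : ℚ) : ℝ) x t ≤ L ω y s0 x t :=
        (hω y s0 x t ((OrderDual.ofDual q : ℚ) : ℝ) (hs.trans hq.1) hq.2).2 ⟨y, rfl⟩
      have h1' : c < L ω y ((OrderDual.ofDual q : ℚ) : ℝ) x t := h1
      have h2' : -M ≤ L ω y s0 y ((OrderDual.ofDual q : ℚ) : ℝ) := h2
      show c - M < L ω y s0 x t
      linarith)
  refine le_trans (measure_mono ?_) key
  rintro ω ⟨r, hr, hc⟩
  have hcont : ContinuousOn (fun r => L ω y r x t) (Iio t) := by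
    have := (hL.continuous ω).comp (f := fun r : ℝ => ((y, r), (x, t))) (s := Iio t)
      (by fun_prop) (fun r hr => hr)
    exact this
  have hopen : IsOpen {r' ∈ Ioo s1 t | c < L ω y r' x t} := by
    have h1 : {r' ∈ Ioo s1 t | c < L ω y r' x t} =
        Ioo s1 t ∩ (fun r => L ω y r x t) ⁻¹' Ioi c := rfl
    rw [h1]
    exact (hcont.mono fun r hr => hr.2).isOpen_inter_preimage isOpen_Ioo isOpen_Ioi
  obtain ⟨q, hq⟩ := Rat.denseRange_cast (𝕜 := ℝ) |>.exists_mem_open hopen ⟨r, hr, hc⟩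
  simp only [Set.mem_iUnion, exists_prop]
  exact ⟨OrderDual.toDual q, hq.1, hq.2⟩

/-- The bad event for the box `(x, s; x, s + ε³)`: some path from `(x, s)` to `(x, s + ε³)`
reaching one of the two points at distance `w` could have a length which is not very negative. -/
def boxBad (L : Ω → ℝ → ℝ → ℝ → ℝ → ℝ) (x s w ε : ℝ) : Set Ω :=
  {ω | ∃ y, (y = x + w ∨ y = x - w) ∧ ∃ r ∈ Ioo s (s + ε ^ 3),
    -(w ^ 2 / (4 * ε ^ 3)) < L ω x s y r ∨ -(w ^ 2 / (4 * ε ^ 3)) < L ω y r x (s + ε ^ 3)}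

lemma lower_half (hL : IsDirectedLandscape L P) {M0 : ℝ} (hM0 : 0 < M0)
    (hlow : 1 / 2 < P {ω | -M0 < refVar L ω}) {y r t ε : ℝ} (hε : 0 < ε) (hrt : r < t)
    (hle : t - r ≤ 2 * ε ^ 3) : 1 / 2 ≤ P {ω | -(2 * M0 * ε) ≤ L ω y r y t} := by
  set e : ℝ := (t - r) ^ ((1 : ℝ) / 3) with he
  have he0 : 0 < e := Real.rpow_pos_of_pos (by linarith) _
  have he3 : e ^ 3 = t - r := by
    rw [he, ← Real.rpow_natCast, ← Real.rpow_mul (by linarith)]
    norm_num
  have hle2 : e ≤ 2 * ε := by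
    by_contra hcon
    push Not at hcon
    have := pow_lt_pow_left₀ hcon (by positivity) (n := 3) (by norm_num)
    have h3 : 0 < ε ^ 3 := by positivity
    rw [he3] at this
    nlinarith
  have hid := hL.onePoint y y r t he0 (by rw [he3]; ring)
  have h1 := hid.measure_mem_eq (measurableSet_Ici (a := -(2 * M0 * ε)))
  have h2 : P {ω | -(2 * M0 * ε) ≤ L ω y r y t} =
      P {ω | -(2 * M0 * ε) ≤ e * refVar L ω - (y - y) ^ 2 / e ^ 3} := h1
  rw [h2]
  refine hlow.le.trans (measure_mono ?_)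
  intro ω hω
  simp only [Set.mem_ofPred_eq] at hω ⊢
  rw [sub_self]
  simp only [ne_eq, OfNat.ofNat_ne_zero, not_false_eq_true, zero_pow, zero_div, sub_zero]
  nlinarith

lemma upper_tail_box (hL : IsDirectedLandscape L P) {M0 : ℝ} {x y s t w ε : ℝ} (hε : 0 < ε)
    (hw : (x - y) ^ 2 = w ^ 2) (ht : t = s + 2 * ε ^ 3) (hM0w : M0 ≤ w ^ 2 / (16 * ε ^ 4)) :
    P {ω | -(w ^ 2 / (4 * ε ^ 3)) - 2 * M0 * ε < L ω x s y t} ≤
      P {ω | w ^ 2 / (16 * ε ^ 4) ≤ refVar L ω} := by
  set e : ℝ := 2 ^ ((1 : ℝ) / 3) * ε with he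
  have h2pos : (0 : ℝ) < 2 ^ ((1 : ℝ) / 3) := Real.rpow_pos_of_pos two_pos _
  have h2cube : ((2 : ℝ) ^ ((1 : ℝ) / 3)) ^ 3 = 2 := by
    rw [← Real.rpow_natCast, ← Real.rpow_mul two_pos.le]
    norm_num
  have he0 : 0 < e := by positivity
  have he3 : e ^ 3 = 2 * ε ^ 3 := by rw [he, mul_pow, h2cube]
  have hle2 : e ≤ 2 * ε := by
    by_contra hcon
    push Not at hcon
    have := pow_lt_pow_left₀ hcon (by positivity) (n := 3) (by norm_num)
    have h3 : 0 < ε ^ 3 := by positivity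
    rw [he3] at this
    nlinarith
  have hid := hL.onePoint x y s t he0 (by rw [he3, ht])
  have h1 := hid.measure_mem_eq (measurableSet_Ioi (a := -(w ^ 2 / (4 * ε ^ 3)) - 2 * M0 * ε))
  have h2 : P {ω | -(w ^ 2 / (4 * ε ^ 3)) - 2 * M0 * ε < L ω x s y t} =
      P {ω | -(w ^ 2 / (4 * ε ^ 3)) - 2 * M0 * ε < e * refVar L ω - (x - y) ^ 2 / e ^ 3} := h1
  rw [h2]
  refine measure_mono ?_
  intro ω hω
  simp only [Set.mem_ofPred_eq] at hω ⊢
  rw [hw, he3] at hω
  -- the inequality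
  have h3 : w ^ 2 / (2 * ε ^ 3) - w ^ 2 / (4 * ε ^ 3) = 4 * ε * (w ^ 2 / (16 * ε ^ 4)) := by
    field_simp
    ring
  set g := w ^ 2 / (16 * ε ^ 4) with hg
  have hg0 : 0 ≤ g := by positivity
  have h4 : 4 * ε * g - 2 * M0 * ε < e * refVar L ω := by linarith
  have h5 : 2 * ε * g < e * refVar L ω := by nlinarith
  have h6 : 0 < refVar L ω := by
    by_contra hcon
    push Not at hcon
    have h7 : e * refVar L ω ≤ 0 := mul_nonpos_of_nonneg_of_nonpos he0.le hcon
    have h8 : 0 ≤ 2 * ε * g := by positivity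
    linarith
  nlinarith

/-- The bad event has small probability. -/
lemma boxBad_le (hL : IsDirectedLandscape L P) {M0 : ℝ} (hM0 : 0 < M0)
    (hlow : 1 / 2 < P {ω | -M0 < refVar L ω}) (x s : ℝ) {w ε : ℝ} (hε : 0 < ε)
    (hM0w : M0 ≤ w ^ 2 / (16 * ε ^ 4)) :
    P (boxBad L x s w ε) ≤ 8 * P {ω | w ^ 2 / (16 * ε ^ 4) ≤ refVar L ω} := by
  have hε3 : 0 < ε ^ 3 := by positivity
  set p := P {ω | w ^ 2 / (16 * ε ^ 4) ≤ refVar L ω} with hp
  have fwd : ∀ y, (x - y) ^ 2 = w ^ 2 →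
      P {ω | ∃ r ∈ Ioo s (s + ε ^ 3), -(w ^ 2 / (4 * ε ^ 3)) < L ω x s y r} ≤ 2 * p := by
    intro y hy
    refine (exit_forward hL (t2 := s + 2 * ε ^ 3) (M := 2 * M0 * ε) (by linarith)
      (fun r h1 h2 => lower_half hL hM0 hlow hε (by linarith) (by linarith))).trans ?_
    gcongr 2 * ?_
    exact upper_tail_box hL hε hy rfl hM0w
  have bwd : ∀ y, (x - y) ^ 2 = w ^ 2 →
      P {ω | ∃ r ∈ Ioo s (s + ε ^ 3), -(w ^ 2 / (4 * ε ^ 3)) < L ω y r x (s + ε ^ 3)} ≤
        2 * p := by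
    intro y hy
    refine (exit_backward hL (s0 := s - ε ^ 3) (M := 2 * M0 * ε) (by linarith)
      (fun r h1 h2 => lower_half hL hM0 hlow hε (by linarith) (by linarith))).trans ?_
    gcongr 2 * ?_
    exact upper_tail_box hL hε (by rw [← hy]; ring) (by ring) hM0w
  have hsub : boxBad L x s w ε ⊆
      ({ω | ∃ r ∈ Ioo s (s + ε ^ 3), -(w ^ 2 / (4 * ε ^ 3)) < L ω x s (x + w) r} ∪
        {ω | ∃ r ∈ Ioo s (s + ε ^ 3), -(w ^ 2 / (4 * ε ^ 3)) < L ω (x + w) r x (s + ε ^ 3)}) ∪
      ({ω | ∃ r ∈ Ioo s (s + ε ^ 3), -(w ^ 2 / (4 * ε ^ 3)) < L ω x s (x - w) r} ∪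
        {ω | ∃ r ∈ Ioo s (s + ε ^ 3), -(w ^ 2 / (4 * ε ^ 3)) < L ω (x - w) r x (s + ε ^ 3)}) := by
    rintro ω ⟨y, rfl | rfl, r, hr, h | h⟩
    · exact Or.inl (Or.inl ⟨r, hr, h⟩)
    · exact Or.inl (Or.inr ⟨r, hr, h⟩)
    · exact Or.inr (Or.inl ⟨r, hr, h⟩)
    · exact Or.inr (Or.inr ⟨r, hr, h⟩)
  calc P (boxBad L x s w ε) ≤ _ := measure_mono hsub
    _ ≤ _ := measure_union_le _ _
    _ ≤ (2 * p + 2 * p) + (2 * p + 2 * p) := by
        gcongr
        · exact (measure_union_le _ _).trans (add_le_add (fwd _ (by ring)) (bwd _ (by ring)))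
        · exact (measure_union_le _ _).trans (add_le_add (fwd _ (by ring)) (bwd _ (by ring)))
    _ = 8 * p := by ring

end Pool.Agent.Lib.MP_cd6101_pr
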