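import Pool.Agent.Lib.MP_cd6101_pr.Final

/-!
# Mutual singularity: the main theorem
-/

open Set Topology MeasureTheory ProbabilityTheory Filter

namespace Pool.Agent.Lib.MP_cd6101_pr

variable {Ω : Type*} {mΩ : MeasurableSpace Ω} {P : Measure Ω} [IsProbabilityMeasure P]
  {L : Ω → ℝ → ℝ → ℝ → ℝ → ℝ}

open Classical in
/-- A function on `ℝ⁴_↑`, extended by zero. -/
noncomputable def ext0 (f : Up → ℝ) (x s y t : ℝ) : ℝ :=
  if h : s < t then f ⟨((x, s), (y, t)), h⟩ else 0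

lemma ext0_of_lt {f : Up → ℝ} {x s y t : ℝ} (h : s < t) :
    ext0 f x s y t = f ⟨((x, s), (y, t)), h⟩ := by
  unfold ext0
  rw [dif_pos h]

lemma measurable_ext0 (x s y t : ℝ) : Measurable fun f : Up → ℝ => ext0 f x s y t := by
  by_cases h : s < t
  · simp only [ext0_of_lt h]
    exact measurable_pi_apply _
  · have : (fun f : Up → ℝ => ext0 f x s y t) = fun _ => 0 := by
      ext f
      unfold ext0
      rw [dif_neg h]
    rw [this]
    exact measurable_const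

lemma measurable_stat_ext0 (ρ x0 t0 M : ℝ) (k : ℕ) :
    Measurable fun f : Up → ℝ => stat ρ x0 t0 M k (ext0 f) := by
  unfold stat
  refine Finset.measurable_fun_sum _ fun j _ => Finset.measurable_fun_sum _ fun i _ => ?_
  exact (measurable_trunc M).comp ((measurable_ext0 _ _ _ _).const_mul _)

lemma stat_ext0 {ρ : ℝ} (hρ : 0 < ρ) (x0 t0 M : ℝ) {k : ℕ} (hk : 1 ≤ k)
    (g : ℝ → ℝ → ℝ → ℝ → ℝ) :
    stat ρ x0 t0 M k (ext0 fun q : Up => g q.1.1.1 q.1.1.2 q.1.2.1 q.1.2.2) =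
      stat ρ x0 t0 M k g := by
  have hε := epsK_pos hρ hk
  have hε3 : 0 < epsK ρ k ^ 3 := by positivity
  unfold stat
  refine Finset.sum_congr rfl fun j _ => Finset.sum_congr rfl fun i _ => ?_
  unfold boxVal
  rw [ext0_of_lt (by linarith)]

/-- The events. -/
def evSet (σ κ ρ x0 t0 M m : ℝ) (k : ℕ) : Set (Up → ℝ) :=
  {f | κ * (k : ℝ) ^ 7 ≤ σ * (stat ρ x0 t0 M k (ext0 f) - m)}

lemma measurableSet_evSet (σ κ ρ x0 t0 M m : ℝ) (k : ℕ) :
    MeasurableSet (evSet σ κ ρ x0 t0 M m k) :=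
  measurableSet_le measurable_const
    (((measurable_stat_ext0 ρ x0 t0 M k).sub_const m).const_mul σ)

omit [IsProbabilityMeasure P] in
lemma measure_eventually_le {B : ℕ → Set Ω} {u : ℕ → ENNReal} {δ : ENNReal}
    (hB : ∀ᶠ l in atTop, P (B l) ≤ u l) (hu : Tendsto u atTop (𝓝 δ)) :
    P {ω | ∀ᶠ l in atTop, ω ∈ B l} ≤ δ := by
  have h1 : {ω | ∀ᶠ l in atTop, ω ∈ B l} = ⋃ n : ℕ, ⋂ l ∈ Ici n, B l := by
    ext ω
    simp only [Set.mem_ofPred_eq, eventually_atTop, Set.mem_iUnion, Set.mem_iInter, Set.mem_Ici]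
  rw [h1, Monotone.measure_iUnion]
  · refine iSup_le fun n => ge_of_tendsto hu ?_
    filter_upwards [hB, eventually_ge_atTop n] with l hl hn
    exact (measure_mono (Set.biInter_subset_of_mem hn)).trans hl
  · intro a b hab
    exact Set.biInter_subset_biInter_left (Set.Ici_subset_Ici.2 hab)

lemma tendsto_tailAbs (hL : IsDirectedLandscape L P) :
    Tendsto (fun n : ℕ => tailAbs L P ((n : ℝ) + 1)) atTop (𝓝 0) := by
  have hm : Measurable fun ω => |refVar L ω| := by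
    have := hL.measurable_refVar
    fun_prop
  have h1 : Tendsto (fun n : ℕ => P {ω | (n : ℝ) < |refVar L ω|}) atTop
      (𝓝 (P (⋂ n : ℕ, {ω | (n : ℝ) < |refVar L ω|}))) := by
    refine tendsto_measure_iInter_atTop (fun n =>
      (measurableSet_lt measurable_const hm).nullMeasurableSet) (fun m n hmn ω hω => ?_)
      ⟨0, measure_ne_top _ _⟩
    simp only [Set.mem_ofPred_eq] at hω ⊢
    exact lt_of_le_of_lt (by exact_mod_cast hmn) hω
  have h2 : (⋂ n : ℕ, {ω | (n : ℝ) < |refVar L ω|}) = ∅ := by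
    ext ω
    simp only [Set.mem_iInter, Set.mem_ofPred_eq, Set.mem_empty_iff_false, iff_false, not_forall,
      not_lt]
    obtain ⟨n, hn⟩ := exists_nat_gt |refVar L ω|
    exact ⟨n, hn.le⟩
  rw [h2, measure_empty] at h1
  have h3 := (ENNReal.tendsto_toReal ENNReal.zero_ne_top).comp h1
  simpa [tailAbs, Measure.real, Function.comp_def] using h3

/-- Chebyshev's inequality for the statistic. -/
lemma cheb (hL : IsDirectedLandscape L P) {M M0 K ρ κ : ℝ} (x0 t0 : ℝ) (hρ : 0 < ρ)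
    (hM : 0 < M) (hM0 : 0 < M0) (hlow : 1 / 2 < P {ω | -M0 < refVar L ω}) (hK0 : 0 < K)
    (hK : ∀ c, 0 < c → c * tailF L P c ≤ K) {k : ℕ} (hk : 1 ≤ k)
    (hk4 : 16 * (1 + M / 2 + 2 * M0) ≤ (k : ℝ) ^ 4) (hκ : 0 < κ) :
    P {ω | κ * (k : ℝ) ^ 7 ≤ |stat ρ x0 t0 M k (L ω) - P[fun ω => stat ρ x0 t0 M k (L ω)]|} ≤
      ENNReal.ofReal (M ^ 2 * (1 + 1024 * K) / κ ^ 2 * (1 / k)) := by
  have hk0 : (0 : ℝ) < k := by exact_mod_cast hk
  have hmeas : Measurable fun ω => stat ρ x0 t0 M k (L ω) := by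
    unfold stat
    refine Finset.measurable_fun_sum _ fun j _ => Finset.measurable_fun_sum _ fun i _ => ?_
    exact (measurable_trunc M).comp ((measurable_boxVal hL hρ x0 t0 hk j i).const_mul _)
  have hbound : ∀ ω, ‖stat ρ x0 t0 M k (L ω)‖ ≤ (k : ℝ) ^ 13 * M := by
    intro ω
    unfold stat
    refine (norm_sum_le _ _).trans ?_
    calc ∑ j ∈ Finset.range (k ^ 9), ‖∑ i ∈ Finset.range (k ^ 4),
          trunc M ((epsK ρ k)⁻¹ * boxVal ρ x0 t0 k (L ω) j i)‖
        ≤ ∑ j ∈ Finset.range (k ^ 9), ∑ i ∈ Finset.range (k ^ 4), M := by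
          refine Finset.sum_le_sum fun j _ => (norm_sum_le _ _).trans ?_
          exact Finset.sum_le_sum fun i _ => by
            rw [Real.norm_eq_abs]
            exact abs_trunc_le hM.le _
      _ = (k : ℝ) ^ 13 * M := by
          simp only [Finset.sum_const, Finset.card_range, nsmul_eq_mul]
          push_cast
          ring
  have hLp : MemLp (fun ω => stat ρ x0 t0 M k (L ω)) 2 P :=
    MemLp.of_bound hmeas.aestronglyMeasurable _ (ae_of_all _ hbound)
  have h1 := meas_ge_le_variance_div_sq hLp (c := κ * (k : ℝ) ^ 7) (by positivity)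
  refine h1.trans (ENNReal.ofReal_le_ofReal ?_)
  have h2 := variance_stat_le hL x0 t0 hρ hM hM0 hlow hK0 hK hk hk4
  calc Var[fun ω => stat ρ x0 t0 M k (L ω); P] / (κ * (k : ℝ) ^ 7) ^ 2
      ≤ (k : ℝ) ^ 13 * (M ^ 2 * (1 + 1024 * K)) / (κ * (k : ℝ) ^ 7) ^ 2 := by gcongr
    _ = M ^ 2 * (1 + 1024 * K) / κ ^ 2 * (1 / k) := by
        field_simp

/-- The main theorem for continuous bounded `h`. -/
theorem main_singular (hL : IsDirectedLandscape L P) {h : ℝ × ℝ → ℝ} (hh : Continuous h) {H : ℝ}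
    (hH : ∀ p, |h p| ≤ H) (hne : ∃ p, h p ≠ 0) :
    ∃ A : Set (Up → ℝ), MeasurableSet A ∧
      (∀ᵐ ω ∂P, (fun q : Up => L ω q.1.1.1 q.1.1.2 q.1.2.1 q.1.2.2) ∉ A) ∧
      (∀ᵐ ω ∂P, ∃ f : Up → ℝ,
        (∀ q : Up, (f q : EReal) = hShift h (L ω) q.1.1.1 q.1.1.2 q.1.2.1 q.1.2.2) ∧ f ∈ A) := by
  obtain ⟨⟨x0, t0⟩, hp⟩ := hne
  have hH0 : 0 ≤ H := (abs_nonneg _).trans (hH (0, 0))
  -- the sign
  obtain ⟨σ, hσ, hσp⟩ : ∃ σ : ℝ, (σ = 1 ∨ σ = -1) ∧ 0 < σ * h (x0, t0) := by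
    rcases lt_or_gt_of_ne hp with h1 | h1
    · exact ⟨-1, Or.inr rfl, by linarith⟩
    · exact ⟨1, Or.inl rfl, by linarith⟩
  set c₀ := σ * h (x0, t0) / 2 with hc₀d
  have hc₀ : 0 < c₀ := by positivity
  have hcont : Continuous fun p => σ * h p := continuous_const.mul hh
  have hopen : IsOpen {p : ℝ × ℝ | c₀ < σ * h p} := isOpen_lt continuous_const hcont
  obtain ⟨δ, hδ, hball⟩ := Metric.isOpen_iff.1 hopen (x0, t0) (by
    change c₀ < σ * h (x0, t0)
    linarith)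
  set ρ := min 1 (δ / 4) with hρd
  have hρ : 0 < ρ := lt_min one_pos (by linarith)
  have hρ1 : ρ ≤ 1 := min_le_left _ _
  have hρδ : ρ ≤ δ / 4 := min_le_right _ _
  have hbox : ∀ z r, |z - x0| ≤ 2 * ρ ^ 2 → t0 ≤ r → r ≤ t0 + ρ ^ 3 → c₀ ≤ σ * h (z, r) := by
    intro z r hz h1 h2
    have hρ2 : ρ ^ 2 ≤ ρ := by nlinarith
    have hρ3 : ρ ^ 3 ≤ ρ := by nlinarith
    have hmem : (z, r) ∈ Metric.ball (x0, t0) δ := by
      rw [Metric.mem_ball, Prod.dist_eq, max_lt_iff, Real.dist_eq, Real.dist_eq]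
      refine ⟨by linarith, ?_⟩
      rw [abs_of_nonneg (by linarith)]
      linarith
    have := hball hmem
    exact le_of_lt this
  -- constants
  obtain ⟨M0, hM0, hlow⟩ : ∃ M0 : ℝ, 0 < M0 ∧ 1 / 2 < P {ω | -M0 < refVar L ω} := by
    obtain ⟨C, hC, hCq⟩ := exists_lower hL (η := 1 / 4) (by norm_num)
    refine ⟨C + 1, by linarith, ?_⟩
    have h1 : {ω | refVar L ω < -C}ᶜ ⊆ {ω | -(C + 1) < refVar L ω} := by
      intro ω hω
      simp only [Set.mem_compl_iff, Set.mem_ofPred_eq, not_lt] at hω ⊢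
      linarith
    have h2 : 3 / 4 ≤ P.real {ω | -(C + 1) < refVar L ω} := by
      refine le_trans ?_ (measureReal_mono h1)
      rw [probReal_compl_eq_one_sub (measurableSet_lt hL.measurable_refVar measurable_const)]
      linarith
    rw [← ofReal_measureReal (s := {ω | -(C + 1) < refVar L ω})]
    have h3 : (1 / 2 : ENNReal) = ENNReal.ofReal (1 / 2) := by
      rw [ENNReal.ofReal_div_of_pos two_pos]
      norm_num
    rw [h3, ENNReal.ofReal_lt_ofReal_iff (by linarith)]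
    linarith
  obtain ⟨K, hK0, hK⟩ := tail_bound hL
  set κ := c₀ * ρ ^ 2 / 4 with hκd
  have hκ : 0 < κ := by positivity
  -- the events
  set mean : ℕ → ℕ → ℝ := fun n l => P[fun ω => stat ρ x0 t0 ((n : ℝ) + 1) (2 ^ l) (L ω)]
    with hmean
  set ev : ℕ → ℕ → Set (Up → ℝ) := fun n l => evSet σ κ ρ x0 t0 ((n : ℝ) + 1) (mean n l) (2 ^ l)
    with hev
  have hk1 : ∀ l : ℕ, 1 ≤ 2 ^ l := fun l => Nat.one_le_two_pow
  have hkcast : ∀ l : ℕ, ((2 ^ l : ℕ) : ℝ) = 2 ^ l := fun l => by push_cast; rfl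
  have hktop : Tendsto (fun l : ℕ => ((2 ^ l : ℕ) : ℝ)) atTop atTop := by
    simp only [hkcast]
    exact tendsto_pow_atTop_atTop_of_one_lt one_lt_two
  have hkge1 : ∀ l : ℕ, (1 : ℝ) ≤ ((2 ^ l : ℕ) : ℝ) := fun l => by exact_mod_cast hk1 l
  -- Chebyshev
  have hcheb : ∀ n : ℕ, ∀ᶠ l in atTop,
      P {ω | κ * (((2 ^ l : ℕ) : ℝ)) ^ 7 ≤
        |stat ρ x0 t0 ((n : ℝ) + 1) (2 ^ l) (L ω) - mean n l|} ≤
      ENNReal.ofReal (((n : ℝ) + 1) ^ 2 * (1 + 1024 * K) / κ ^ 2 * (1 / 2) ^ l) := by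
    intro n
    filter_upwards [hktop.eventually_ge_atTop (16 * (1 + ((n : ℝ) + 1) / 2 + 2 * M0))]
      with l hl
    have h1 := cheb hL (M := (n : ℝ) + 1) x0 t0 hρ (by positivity) hM0 hlow hK0 hK (hk1 l)
      (hl.trans (le_self_pow₀ (hkge1 l) (by norm_num))) hκ
    refine h1.trans_eq ?_
    congr 2
    rw [hkcast, one_div_pow]
  -- the set
  set A : Set (Up → ℝ) := ⋃ n : ℕ, ⋂ a : ℕ, ⋃ l ∈ Ici a, ev n l with hA
  have hAmem : ∀ f, f ∈ A ↔ ∃ n, ∃ᶠ l in atTop, f ∈ ev n l := by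
    intro f
    simp only [hA, Set.mem_iUnion, Set.mem_iInter, Set.mem_Ici, exists_prop, frequently_atTop]
  refine ⟨A, ?_, ?_, ?_⟩
  · refine MeasurableSet.iUnion fun n => MeasurableSet.iInter fun a =>
      MeasurableSet.iUnion fun l => MeasurableSet.iUnion fun _ => ?_
    exact measurableSet_evSet _ _ _ _ _ _ _ _
  · have h1 : ∀ n : ℕ, ∀ᵐ ω ∂P, ∀ᶠ l in atTop,
        (fun q : Up => L ω q.1.1.1 q.1.1.2 q.1.2.1 q.1.2.2) ∉ ev n l := by
      intro n
      obtain ⟨l0, hl0⟩ := eventually_atTop.1 (hcheb n)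
      set B : ℕ → Set Ω := fun l => {ω | κ * (((2 ^ (l + l0) : ℕ) : ℝ)) ^ 7 ≤
        |stat ρ x0 t0 ((n : ℝ) + 1) (2 ^ (l + l0)) (L ω) - mean n (l + l0)|} with hB
      have hsum : (∑' l, P (B l)) ≠ ⊤ := by
        set C := ((n : ℝ) + 1) ^ 2 * (1 + 1024 * K) / κ ^ 2 with hC
        have hC0 : 0 ≤ C := by positivity
        have hle : ∀ l, P (B l) ≤ ENNReal.ofReal (C * (1 / 2) ^ l) := by
          intro l
          refine (hl0 (l + l0) (by omega)).trans (ENNReal.ofReal_le_ofReal ?_)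
          have : ((1 : ℝ) / 2) ^ (l + l0) ≤ (1 / 2) ^ l :=
            pow_le_pow_of_le_one (by norm_num) (by norm_num) (by omega)
          gcongr
        refine ne_top_of_le_ne_top ?_ (ENNReal.tsum_le_tsum hle)
        rw [← ENNReal.ofReal_tsum_of_nonneg (fun l => by positivity)
          ((summable_geometric_two).mul_left C)]
        exact ENNReal.ofReal_ne_top
      filter_upwards [ae_eventually_notMem hsum] with ω hω
      obtain ⟨a, ha⟩ := eventually_atTop.1 hω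
      refine eventually_atTop.2 ⟨a + l0, fun l hl hcon => ?_⟩
      have h2 := ha (l - l0) (by omega)
      refine h2 ?_
      simp only [hB, Set.mem_ofPred_eq]
      have h3 : l - l0 + l0 = l := by omega
      rw [h3]
      have h4 : κ * (((2 ^ l : ℕ) : ℝ)) ^ 7 ≤
          σ * (stat ρ x0 t0 ((n : ℝ) + 1) (2 ^ l)
            (ext0 fun q : Up => L ω q.1.1.1 q.1.1.2 q.1.2.1 q.1.2.2) - mean n l) := hcon
      rw [stat_ext0 hρ x0 t0 _ (hk1 l)] at h4
      refine h4.trans ?_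
      rcases hσ with rfl | rfl
      · rw [one_mul]
        exact le_abs_self _
      · rw [neg_one_mul]
        exact neg_le_abs _
    filter_upwards [ae_all_iff.2 h1] with ω hω
    rw [hAmem]
    push Not
    intro n
    exact hω n
  · -- the shifted landscape
    set L' : Ω → ℝ → ℝ → ℝ → ℝ → ℝ := fun ω x s y t => (hShift h (L ω) x s y t).toReal with hL'd
    have hL' : ∀ᵐ ω ∂P, ∀ x s y t, s < t →
        (L' ω x s y t : EReal) = hShift h (L ω) x s y t := by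
      filter_upwards [hL.length] with ω hω x s y t hst
      have h1 := hShift_le (h := h) hH hst (hω x s y t hst)
      have h2 := le_hShift' (h := h) hH hst (hω x s y t hst)
      refine EReal.coe_toReal ?_ ?_
      · exact ne_of_lt (lt_of_le_of_lt h1 (EReal.coe_lt_top _))
      · exact ne_of_gt (lt_of_lt_of_le (EReal.bot_lt_coe _) h2)
    have hmain : ∀ n : ℕ, P {ω | (fun q : Up => L' ω q.1.1.1 q.1.1.2 q.1.2.1 q.1.2.2) ∉ A} ≤
        ENNReal.ofReal (tailAbs L P ((n : ℝ) + 1) * (2 * (c₀ + H) / c₀)) := by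
      intro n
      set C := ((n : ℝ) + 1) ^ 2 * (1 + 1024 * K) / κ ^ 2 with hC
      set u : ℕ → ENNReal := fun l =>
        ENNReal.ofReal ((128 * K * (1 / 2) ^ l + tailAbs L P ((n : ℝ) + 1)) *
          (2 * (c₀ + H) / c₀)) + ENNReal.ofReal (C * (1 / 2) ^ l) with hu
      have hgeo : Tendsto (fun l : ℕ => ((1 : ℝ) / 2) ^ l) atTop (𝓝 0) :=
        tendsto_pow_atTop_nhds_zero_of_lt_one (by norm_num) (by norm_num)
      have hutend : Tendsto u atTop
          (𝓝 (ENNReal.ofReal (tailAbs L P ((n : ℝ) + 1) * (2 * (c₀ + H) / c₀)))) := by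
        have h1 : Tendsto (fun l : ℕ => (128 * K * (1 / 2) ^ l + tailAbs L P ((n : ℝ) + 1)) *
          (2 * (c₀ + H) / c₀)) atTop (𝓝 (tailAbs L P ((n : ℝ) + 1) * (2 * (c₀ + H) / c₀))) := by
          have := ((hgeo.const_mul (128 * K)).add_const (tailAbs L P ((n : ℝ) + 1))).mul_const
            (2 * (c₀ + H) / c₀)
          simpa using this
        have h2 : Tendsto (fun l : ℕ => C * ((1 : ℝ) / 2) ^ l) atTop (𝓝 0) := by
          simpa using hgeo.const_mul C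
        have h3 := (ENNReal.tendsto_ofReal h1).add (ENNReal.tendsto_ofReal h2)
        rw [ENNReal.ofReal_zero, add_zero] at h3
        exact h3
      have hB : ∀ᶠ l in atTop,
          P {ω | (fun q : Up => L' ω q.1.1.1 q.1.1.2 q.1.2.1 q.1.2.2) ∉ ev n l} ≤ u l := by
        filter_upwards [hcheb n, hktop.eventually_gt_atTop (2 * (n : ℝ) + 2 * (H + c₀)),
          hktop.eventually_ge_atTop (16 * M0)] with l hl1 hl2 hl3
        have h1 := deviation hL hM0 hlow hh hH hc₀ hσ hρ hρ1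
          (by linarith [(Nat.cast_nonneg n : (0 : ℝ) ≤ n)] : (1 : ℝ) ≤ (n : ℝ) + 1) hbox (hk1 l)
          (by rw [add_sub_cancel_right]; exact hl2)
          (hl3.trans (le_self_pow₀ (hkge1 l) (by norm_num))) hL' (mean n l)
        have h2 : {ω | (fun q : Up => L' ω q.1.1.1 q.1.1.2 q.1.2.1 q.1.2.2) ∉ ev n l} =
            {ω | σ * (stat ρ x0 t0 ((n : ℝ) + 1) (2 ^ l) (L' ω) - mean n l) <
              c₀ * ρ ^ 2 / 4 * (((2 ^ l : ℕ) : ℝ)) ^ 7} := by
          ext ω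
          simp only [hev, evSet, Set.mem_ofPred_eq, not_le]
          rw [stat_ext0 hρ x0 t0 _ (hk1 l)]
        rw [h2]
        refine h1.trans (add_le_add (ENNReal.ofReal_le_ofReal ?_) hl1)
        have h3 := hK ((((2 ^ l : ℕ) : ℝ)) ^ 12 / 16) (by
          have := hkge1 l
          positivity)
        have h4 : (((2 ^ l : ℕ) : ℝ)) ≤ (((2 ^ l : ℕ) : ℝ)) ^ 12 :=
          le_self_pow₀ (hkge1 l) (by norm_num)
        have h5 : 8 * tailF L P ((((2 ^ l : ℕ) : ℝ)) ^ 12 / 16) ≤ 128 * K * (1 / 2) ^ l := by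
          have h6 := tailF_nonneg (L := L) (P := P) ((((2 ^ l : ℕ) : ℝ)) ^ 12 / 16)
          have h7 : (((2 ^ l : ℕ) : ℝ)) * tailF L P ((((2 ^ l : ℕ) : ℝ)) ^ 12 / 16) ≤ 16 * K := by
            nlinarith
          rw [one_div_pow, mul_one_div, le_div_iff₀ (by positivity)]
          rw [hkcast] at h7 ⊢
          linarith
        gcongr
      have h3 := measure_eventually_le hB hutend
      refine (measure_mono ?_).trans h3
      intro ω hω
      simp only [Set.mem_ofPred_eq] at hω ⊢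
      rw [hAmem] at hω
      push Not at hω
      exact hω n
    have hzero : P {ω | (fun q : Up => L' ω q.1.1.1 q.1.1.2 q.1.2.1 q.1.2.2) ∉ A} = 0 := by
      refine le_antisymm ?_ (zero_le)
      refine ge_of_tendsto' (f := fun n : ℕ =>
        ENNReal.ofReal (tailAbs L P ((n : ℝ) + 1) * (2 * (c₀ + H) / c₀))) (x := atTop) ?_ hmain
      have h1 := (tendsto_tailAbs hL).mul_const (2 * (c₀ + H) / c₀)
      have h2 := ENNReal.tendsto_ofReal h1
      simpa using h2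
    have hae : ∀ᵐ ω ∂P, (fun q : Up => L' ω q.1.1.1 q.1.1.2 q.1.2.1 q.1.2.2) ∈ A := by
      rw [ae_iff]
      exact hzero
    filter_upwards [hae, hL'] with ω h1 h2
    exact ⟨_, fun q => h2 _ _ _ _ q.2, h1⟩

end Pool.Agent.Lib.MP_cd6101_pr
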