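import Pool.Agent.Lib.MP_cd6101_pr.Landscape

/-!
# Deterministic bounds on the `h`-shift of a landscape
-/

open Set Topology MeasureTheory ProbabilityTheory Filter

namespace Pool.Agent.Lib.MP_cd6101_pr

variable {h : ℝ × ℝ → ℝ} {ℓ : ℝ → ℝ → ℝ → ℝ → ℝ} {x s y t H c₀ w m : ℝ}

lemma continuousOn_along (hh : Continuous h) {π : ℝ → ℝ} (hπ : IsPath x s y t π) :
    ContinuousOn (fun r => h (π r, r)) (Icc s t) :=
  hh.comp_continuousOn (hπ.1.prodMk continuousOn_id)

lemma integrable_along (hh : Continuous h) (hst : s < t) {π : ℝ → ℝ} (hπ : IsPath x s y t π) :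
    IntervalIntegrable (fun r => h (π r, r)) volume s t := by
  refine ContinuousOn.intervalIntegrable ?_
  rw [uIcc_of_le hst.le]
  exact continuousOn_along hh hπ

lemma abs_integral_along (hH : ∀ p, |h p| ≤ H) (hst : s < t) (π : ℝ → ℝ) :
    |∫ r in s..t, h (π r, r)| ≤ H * (t - s) := by
  have := intervalIntegral.norm_integral_le_of_norm_le_const (a := s) (b := t) (C := H)
    (f := fun r => h (π r, r)) (fun r _ => by rw [Real.norm_eq_abs]; exact hH _)
  rwa [Real.norm_eq_abs, abs_of_pos (sub_pos.2 hst)] at this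

/-- Upper bound for the shift. -/
lemma hShift_le (hH : ∀ p, |h p| ≤ H) (hst : s < t)
    (hlen : (ℓ x s y t : EReal) = ⨆ (π : ℝ → ℝ) (_ : IsPath x s y t π), pathLength ℓ s t π) :
    hShift h ℓ x s y t ≤ ((ℓ x s y t + H * (t - s) : ℝ) : EReal) := by
  unfold hShift
  refine iSup₂_le fun π hπ => ?_
  rw [EReal.coe_add]
  refine add_le_add ?_ ?_
  · rw [hlen]
    exact le_iSup₂ (f := fun (π : ℝ → ℝ) (_ : IsPath x s y t π) => pathLength ℓ s t π) π hπ
  · exact EReal.coe_le_coe_iff.2 ((le_abs_self _).trans (abs_integral_along hH hst π))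

/-- A general lower bound: if almost optimal paths collect at least `a`, then the shift is at
least `ℓ + a`. -/
lemma le_hShift {a m : ℝ} (hm : m < ℓ x s y t)
    (hlen : (ℓ x s y t : EReal) = ⨆ (π : ℝ → ℝ) (_ : IsPath x s y t π), pathLength ℓ s t π)
    (hπ : ∀ π, IsPath x s y t π → (m : EReal) < pathLength ℓ s t π →
      a ≤ ∫ r in s..t, h (π r, r)) :
    ((ℓ x s y t + a : ℝ) : EReal) ≤ hShift h ℓ x s y t := by
  refine EReal.ge_of_forall_gt_iff_ge.1 fun z hz => ?_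
  rw [EReal.coe_lt_coe_iff] at hz
  have h1 : ((max (z - a) m : ℝ) : EReal) < ⨆ (π : ℝ → ℝ) (_ : IsPath x s y t π),
      pathLength ℓ s t π := by
    rw [← hlen, EReal.coe_lt_coe_iff]
    exact max_lt (by linarith) hm
  rw [lt_iSup_iff] at h1
  obtain ⟨π, h1⟩ := h1
  rw [lt_iSup_iff] at h1
  obtain ⟨hπ1, h1⟩ := h1
  have h2 : (m : EReal) < pathLength ℓ s t π :=
    lt_of_le_of_lt (EReal.coe_le_coe_iff.2 (le_max_right _ _)) h1
  have h3 : ((z - a : ℝ) : EReal) ≤ pathLength ℓ s t π :=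
    (EReal.coe_le_coe_iff.2 (le_max_left _ _)).trans h1.le
  have h4 : pathLength ℓ s t π + ((∫ r in s..t, h (π r, r) : ℝ) : EReal) ≤ hShift h ℓ x s y t :=
    le_iSup₂ (f := fun (π : ℝ → ℝ) (_ : IsPath x s y t π) =>
      (pathLength ℓ s t π + ((∫ r in s..t, h (π r, r) : ℝ) : EReal))) π hπ1
  refine le_trans ?_ h4
  have h5 : (z : EReal) = ((z - a : ℝ) : EReal) + ((a : ℝ) : EReal) := by
    rw [← EReal.coe_add, sub_add_cancel]
  rw [h5]
  exact add_le_add h3 (EReal.coe_le_coe_iff.2 (hπ π hπ1 h2))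

/-- Lower bound for the shift. -/
lemma le_hShift' (hH : ∀ p, |h p| ≤ H) (hst : s < t)
    (hlen : (ℓ x s y t : EReal) = ⨆ (π : ℝ → ℝ) (_ : IsPath x s y t π), pathLength ℓ s t π) :
    ((ℓ x s y t - H * (t - s) : ℝ) : EReal) ≤ hShift h ℓ x s y t := by
  have := le_hShift (h := h) (a := -(H * (t - s))) (m := ℓ x s y t - 1) (by linarith) hlen
    (fun π _ _ => by
      have := abs_integral_along (h := h) hH hst π
      exact (abs_le.1 this).1)
  simpa [sub_eq_add_neg] using this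

/-- A path which leaves the strip of half-width `w` is short. -/
lemma pathLength_le_of_exit (hw : 0 < w)
    (hbad : ∀ z, (z = x + w ∨ z = x - w) → ∀ r ∈ Ioo s t, ℓ x s z r ≤ -m ∧ ℓ z r x t ≤ -m)
    {π : ℝ → ℝ} (hπ : IsPath x s x t π) (hexit : ∃ r ∈ Icc s t, w < |π r - x|) :
    pathLength ℓ s t π ≤ ((-(2 * m) : ℝ) : EReal) := by
  obtain ⟨r, hr, hwr⟩ := hexit
  have hg : ContinuousOn (fun r => |π r - x|) (Icc s r) :=
    ((hπ.1.mono (Icc_subset_Icc_right hr.2)).sub continuousOn_const).abs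
  have h0 : |π s - x| = 0 := by rw [hπ.2.1, sub_self, abs_zero]
  obtain ⟨r', hr', hr'w⟩ : w ∈ (fun r => |π r - x|) '' Icc s r :=
    intermediate_value_Icc hr.1 hg ⟨by simp only [h0]; exact hw.le, hwr.le⟩
  simp only at hr'w
  have hs' : s < r' := by
    rcases hr'.1.lt_or_eq with h | h
    · exact h
    · rw [← h, h0] at hr'w
      exact absurd hr'w hw.ne
  have ht' : r' < t := by
    rcases (hr'.2.trans hr.2).lt_or_eq with h | h
    · exact h
    · rw [h, hπ.2.2, sub_self, abs_zero] at hr'w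
      exact absurd hr'w hw.ne
  have hz : π r' = x + w ∨ π r' = x - w := by
    rcases abs_cases (π r' - x) with ⟨h1, _⟩ | ⟨h1, _⟩
    · left; linarith
    · right; linarith
  obtain ⟨hb1, hb2⟩ := hbad _ hz r' ⟨hs', ht'⟩
  let τ : ℕ → ℝ := fun i => if i = 0 then s else if i = 1 then r' else t
  have hτ : IsPartition 2 s t τ := by
    refine ⟨fun i hi => ?_, rfl, rfl⟩
    interval_cases i
    · exact hs'
    · exact ht'
  have h1 : pathLength ℓ s t π ≤
      ((∑ i ∈ Finset.range 2, ℓ (π (τ i)) (τ i) (π (τ (i + 1))) (τ (i + 1)) : ℝ) : EReal) := by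
    unfold pathLength
    exact iInf_le_of_le 2 (iInf_le_of_le τ (iInf_le _ hτ))
  refine h1.trans (EReal.coe_le_coe_iff.2 ?_)
  have h2 : ∑ i ∈ Finset.range 2, ℓ (π (τ i)) (τ i) (π (τ (i + 1))) (τ (i + 1)) =
      ℓ (π s) s (π r') r' + ℓ (π r') r' (π t) t := by
    rw [Finset.sum_range_succ, Finset.sum_range_one]
    rfl
  rw [h2, hπ.2.1, hπ.2.2]
  linarith

/-- On a good box where `c₀ ≤ h` the shift gains at least `c₀ (t - s)`. -/
lemma le_hShift_box (hh : Continuous h) (hst : s < t) (hw : 0 < w)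
    (hlen : (ℓ x s x t : EReal) = ⨆ (π : ℝ → ℝ) (_ : IsPath x s x t π), pathLength ℓ s t π)
    (hbad : ∀ z, (z = x + w ∨ z = x - w) → ∀ r ∈ Ioo s t, ℓ x s z r ≤ -m ∧ ℓ z r x t ≤ -m)
    (hm : -(2 * m) < ℓ x s x t)
    (hbox : ∀ z r, |z - x| ≤ w → r ∈ Icc s t → c₀ ≤ h (z, r)) :
    ((ℓ x s x t + c₀ * (t - s) : ℝ) : EReal) ≤ hShift h ℓ x s x t := by
  refine le_hShift hm hlen fun π hπ hlt => ?_
  have hin : ∀ r ∈ Icc s t, |π r - x| ≤ w := by
    by_contra hcon
    push Not at hcon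
    exact absurd hlt (not_lt.2 (pathLength_le_of_exit hw hbad hπ hcon))
  have h1 : ∫ _ in s..t, c₀ = c₀ * (t - s) := by
    rw [intervalIntegral.integral_const, smul_eq_mul, mul_comm]
  rw [← h1]
  refine intervalIntegral.integral_mono_on hst.le (by simp) (integrable_along hh hst hπ) ?_
  intro r hr
  exact hbox _ _ (hin r hr) hr

/-- On a good box where `h ≤ -c₀` the shift loses at least `c₀ (t - s)`. -/
lemma hShift_le_box (hh : Continuous h) (hH : ∀ p, |h p| ≤ H) (hst : s < t) (hw : 0 < w)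
    (hlen : (ℓ x s x t : EReal) = ⨆ (π : ℝ → ℝ) (_ : IsPath x s x t π), pathLength ℓ s t π)
    (hbad : ∀ z, (z = x + w ∨ z = x - w) → ∀ r ∈ Ioo s t, ℓ x s z r ≤ -m ∧ ℓ z r x t ≤ -m)
    (hm : -(2 * m) + H * (t - s) ≤ ℓ x s x t - c₀ * (t - s))
    (hbox : ∀ z r, |z - x| ≤ w → r ∈ Icc s t → h (z, r) ≤ -c₀) :
    hShift h ℓ x s x t ≤ ((ℓ x s x t - c₀ * (t - s) : ℝ) : EReal) := by
  unfold hShift
  refine iSup₂_le fun π hπ => ?_
  by_cases hin : ∀ r ∈ Icc s t, |π r - x| ≤ w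
  · rw [sub_eq_add_neg, EReal.coe_add]
    refine add_le_add ?_ ?_
    · rw [hlen]
      exact le_iSup₂ (f := fun (π : ℝ → ℝ) (_ : IsPath x s x t π) => pathLength ℓ s t π) π hπ
    · refine EReal.coe_le_coe_iff.2 ?_
      have h1 : ∫ _ in s..t, (-c₀) = -(c₀ * (t - s)) := by
        rw [intervalIntegral.integral_const, smul_eq_mul]
        ring
      rw [← h1]
      refine intervalIntegral.integral_mono_on hst.le (integrable_along hh hst hπ) (by simp) ?_
      intro r hr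
      exact hbox _ _ (hin r hr) hr
  · push Not at hin
    have h1 := pathLength_le_of_exit hw hbad hπ hin
    calc pathLength ℓ s t π + ((∫ r in s..t, h (π r, r) : ℝ) : EReal)
        ≤ ((-(2 * m) : ℝ) : EReal) + ((H * (t - s) : ℝ) : EReal) :=
          add_le_add h1 (EReal.coe_le_coe_iff.2
            ((le_abs_self _).trans (abs_integral_along hH hst π)))
      _ = ((-(2 * m) + H * (t - s) : ℝ) : EReal) := (EReal.coe_add _ _).symm
      _ ≤ _ := EReal.coe_le_coe_iff.2 hm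

end Pool.Agent.Lib.MP_cd6101_pr
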