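import Pool.Agent.Lib.MP_cd6101_pr.Shift

/-!
# The statistic and its variance
-/

open Set Topology MeasureTheory ProbabilityTheory Filter

namespace Pool.Agent.Lib.MP_cd6101_pr

/-- The scale `ρ / k³`. -/
noncomputable def epsK (ρ : ℝ) (k : ℕ) : ℝ := ρ / k ^ 3

/-- The columns. -/
noncomputable def colX (ρ x0 : ℝ) (k i : ℕ) : ℝ := x0 + i * (k ^ 2 * epsK ρ k ^ 2)

/-- The rows. -/
noncomputable def rowT (ρ t0 : ℝ) (k j : ℕ) : ℝ := t0 + j * epsK ρ k ^ 3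

/-- The value of `g` on the box `(i, j)`. -/
noncomputable def boxVal (ρ x0 t0 : ℝ) (k : ℕ) (g : ℝ → ℝ → ℝ → ℝ → ℝ) (j i : ℕ) : ℝ :=
  g (colX ρ x0 k i) (rowT ρ t0 k j) (colX ρ x0 k i) (rowT ρ t0 k j + epsK ρ k ^ 3)

/-- The statistic. -/
noncomputable def stat (ρ x0 t0 M : ℝ) (k : ℕ) (g : ℝ → ℝ → ℝ → ℝ → ℝ) : ℝ :=
  ∑ j ∈ Finset.range (k ^ 9), ∑ i ∈ Finset.range (k ^ 4),
    trunc M ((epsK ρ k)⁻¹ * boxVal ρ x0 t0 k g j i)

lemma epsK_pos {ρ : ℝ} (hρ : 0 < ρ) {k : ℕ} (hk : 1 ≤ k) : 0 < epsK ρ k := by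
  unfold epsK
  have : (0 : ℝ) < k := by exact_mod_cast hk
  positivity

variable {Ω : Type*} {mΩ : MeasurableSpace Ω} {P : Measure Ω} [IsProbabilityMeasure P]
  {L : Ω → ℝ → ℝ → ℝ → ℝ → ℝ}

lemma rowT_succ (ρ t0 : ℝ) (k j : ℕ) : rowT ρ t0 k (j + 1) = rowT ρ t0 k j + epsK ρ k ^ 3 := by
  unfold rowT
  push_cast
  ring

lemma rowT_mono {ρ : ℝ} (hρ : 0 < ρ) (t0 : ℝ) {k : ℕ} (hk : 1 ≤ k) {j j' : ℕ} (h : j ≤ j') :
    rowT ρ t0 k j ≤ rowT ρ t0 k j' := by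
  unfold rowT
  have := epsK_pos hρ hk
  have h2 : (j : ℝ) ≤ j' := by exact_mod_cast h
  gcongr

lemma measurable_boxVal (hL : IsDirectedLandscape L P) {ρ : ℝ} (hρ : 0 < ρ) (x0 t0 : ℝ) {k : ℕ}
    (hk : 1 ≤ k) (j i : ℕ) : Measurable fun ω => boxVal ρ x0 t0 k (L ω) j i := by
  have := epsK_pos hρ hk
  exact hL.measurable _ _ _ _ (by
    have : 0 < epsK ρ k ^ 3 := by positivity
    linarith)

lemma measurable_boxVal' (L : Ω → ℝ → ℝ → ℝ → ℝ → ℝ) {ρ : ℝ} (hρ : 0 < ρ) (x0 t0 : ℝ) {k : ℕ}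
    (hk : 1 ≤ k) (j i : ℕ) :
    Measurable[timeSigma L (rowT ρ t0 k j) (rowT ρ t0 k (j + 1))]
      fun ω => boxVal ρ x0 t0 k (L ω) j i := by
  have := epsK_pos hρ hk
  have h3 : 0 < epsK ρ k ^ 3 := by positivity
  exact measurable_timeSigma L le_rfl (by linarith) (rowT_succ ρ t0 k j).ge

/-- Covariance of two boxes of the same strip. -/
lemma cov_boxes (hL : IsDirectedLandscape L P) {M M0 K ρ : ℝ} (x0 t0 : ℝ) (hρ : 0 < ρ)
    (hM : 0 < M) (hM0 : 0 < M0) (hlow : 1 / 2 < P {ω | -M0 < refVar L ω})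
    (hK : ∀ c, 0 < c → c * tailF L P c ≤ K) {k : ℕ} (hk : 1 ≤ k)
    (hk4 : 16 * (1 + M / 2 + 2 * M0) ≤ (k : ℝ) ^ 4) (j : ℕ) {i i' : ℕ} (hii : i < i') :
    cov[fun ω => trunc M ((epsK ρ k)⁻¹ * boxVal ρ x0 t0 k (L ω) j i),
      fun ω => trunc M ((epsK ρ k)⁻¹ * boxVal ρ x0 t0 k (L ω) j i'); P] ≤
      M ^ 2 * (1024 * K) / (k : ℝ) ^ 4 := by
  have hε := epsK_pos hρ hk
  have hk0 : (0 : ℝ) < k := by exact_mod_cast hk
  set ε := epsK ρ k with hεd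
  set u : ℝ := x0 / ε ^ 2 + i * (k : ℝ) ^ 2 with hu
  set u' : ℝ := x0 / ε ^ 2 + i' * (k : ℝ) ^ 2 with hu'
  have hcol : ∀ n : ℕ, colX ρ x0 k n = ε ^ 2 * (x0 / ε ^ 2 + n * (k : ℝ) ^ 2) := by
    intro n
    unfold colX
    rw [← hεd]
    field_simp
  have hdiff : (k : ℝ) ^ 2 ≤ u' - u := by
    have h1 : (i : ℝ) + 1 ≤ i' := by exact_mod_cast hii
    have h2 : u' - u = (i' - i : ℝ) * (k : ℝ) ^ 2 := by rw [hu, hu']; ring
    rw [h2]
    have h3 : (0 : ℝ) ≤ (k : ℝ) ^ 2 := by positivity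
    nlinarith
  have hk2 : (0 : ℝ) < (k : ℝ) ^ 2 := by positivity
  have hd2 : (k : ℝ) ^ 4 ≤ (u' - u) ^ 2 := by
    have : (k : ℝ) ^ 4 = ((k : ℝ) ^ 2) ^ 2 := by ring
    rw [this]
    exact pow_le_pow_left₀ hk2.le hdiff 2
  have hlt : u < u' := by linarith
  have hc : 0 ≤ ((u' - u) / 2) ^ 2 / 2 - 1 - M / 2 - 2 * M0 := by nlinarith
  have h := hL.cov_strip hM hM0 hlow (rowT ρ t0 k j) hε hlt hc
  have e1 : ∀ n : ℕ, (fun ω => trunc M (stripSheet L (rowT ρ t0 k j) ε ω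
      (x0 / ε ^ 2 + n * (k : ℝ) ^ 2) (x0 / ε ^ 2 + n * (k : ℝ) ^ 2))) =
      fun ω => trunc M (ε⁻¹ * boxVal ρ x0 t0 k (L ω) j n) := by
    intro n
    ext ω
    unfold stripSheet boxVal
    rw [hcol n]
  rw [e1 i, e1 i'] at h
  refine (le_abs_self _).trans (h.trans ?_)
  set c := (((u' - u) / 2) ^ 2 / 2 - 1 - M / 2 - 2 * M0) / 2 with hcd
  have hcge : (k : ℝ) ^ 4 / 32 ≤ c := by
    rw [hcd]
    nlinarith
  have hk4' : (0 : ℝ) < (k : ℝ) ^ 4 := by positivity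
  have hc0 : 0 < (k : ℝ) ^ 4 / 32 := by positivity
  have h1 : tailF L P c ≤ tailF L P ((k : ℝ) ^ 4 / 32) := tailF_anti hcge
  have h2 := hK _ hc0
  have h3 : tailF L P ((k : ℝ) ^ 4 / 32) ≤ 32 * K / (k : ℝ) ^ 4 := by
    rw [le_div_iff₀ hk4']
    linarith
  calc 32 * M ^ 2 * tailF L P c ≤ 32 * M ^ 2 * (32 * K / (k : ℝ) ^ 4) := by
        gcongr
        exact h1.trans h3
    _ = M ^ 2 * (1024 * K) / (k : ℝ) ^ 4 := by ring

/-- Variance bound. -/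
lemma variance_stat_le (hL : IsDirectedLandscape L P) {M M0 K ρ : ℝ} (x0 t0 : ℝ) (hρ : 0 < ρ)
    (hM : 0 < M) (hM0 : 0 < M0) (hlow : 1 / 2 < P {ω | -M0 < refVar L ω}) (hK0 : 0 < K)
    (hK : ∀ c, 0 < c → c * tailF L P c ≤ K) {k : ℕ} (hk : 1 ≤ k)
    (hk4 : 16 * (1 + M / 2 + 2 * M0) ≤ (k : ℝ) ^ 4) :
    Var[fun ω => stat ρ x0 t0 M k (L ω); P] ≤ (k : ℝ) ^ 13 * (M ^ 2 * (1 + 1024 * K)) := by
  have hk0 : (0 : ℝ) < k := by exact_mod_cast hk
  set X : ℕ → ℕ → Ω → ℝ := fun j i ω => trunc M ((epsK ρ k)⁻¹ * boxVal ρ x0 t0 k (L ω) j i)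
    with hX
  have hXm : ∀ j i, Measurable (X j i) := fun j i =>
    (measurable_trunc M).comp ((measurable_boxVal hL hρ x0 t0 hk j i).const_mul _)
  have hXb : ∀ j i ω, |X j i ω| ≤ M := fun j i ω => abs_trunc_le hM.le _
  have hXL : ∀ j i, MemLp (X j i) 2 P := fun j i =>
    MemLp.of_bound (hXm j i).aestronglyMeasurable M (ae_of_all _ fun ω => hXb j i ω)
  set S : ℕ → Ω → ℝ := fun j ω => ∑ i ∈ Finset.range (k ^ 4), X j i ω with hS
  have hSL : ∀ j, MemLp (S j) 2 P := fun j => memLp_finsetSum _ fun i _ => hXL j i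
  have hSm : ∀ j, Measurable[timeSigma L (rowT ρ t0 k j) (rowT ρ t0 k (j + 1))] (S j) := by
    intro j
    refine Finset.measurable_fun_sum _ fun i _ => ?_
    exact (measurable_trunc M).comp ((measurable_boxVal' L hρ x0 t0 hk j i).const_mul _)
  have hvarX : ∀ j i, cov[X j i, X j i; P] ≤ M ^ 2 := by
    intro j i
    rw [covariance_self (hXm j i).aemeasurable]
    refine (variance_le_expectation_sq (hXm j i).aestronglyMeasurable).trans ?_
    have : ∀ ω, (X j i ^ 2) ω ≤ M ^ 2 := fun ω => sq_le_sq' (abs_le.1 (hXb j i ω)).1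
      (abs_le.1 (hXb j i ω)).2
    calc ∫ ω, (X j i ^ 2) ω ∂P ≤ ∫ _, M ^ 2 ∂P :=
          integral_mono_of_nonneg (ae_of_all _ fun ω => sq_nonneg _) (integrable_const _)
            (ae_of_all _ this)
      _ = M ^ 2 := by simp
  have hcovX : ∀ j i i', i ≠ i' → cov[X j i, X j i'; P] ≤ M ^ 2 * (1024 * K) / (k : ℝ) ^ 4 := by
    intro j i i' hne
    rcases lt_or_gt_of_ne hne with h | h
    · exact cov_boxes hL x0 t0 hρ hM hM0 hlow hK hk hk4 j h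
    · rw [covariance_comm]
      exact cov_boxes hL x0 t0 hρ hM hM0 hlow hK hk hk4 j h
  have hvarS : ∀ j, Var[S j; P] ≤ (k : ℝ) ^ 4 * (M ^ 2 * (1 + 1024 * K)) := by
    intro j
    rw [hS]
    simp only
    rw [variance_fun_sum' (fun i _ => hXL j i)]
    have hterm : ∀ i i' : ℕ, cov[X j i, X j i'; P] ≤
        (if i = i' then M ^ 2 else 0) + M ^ 2 * (1024 * K) / (k : ℝ) ^ 4 := by
      intro i i'
      have hpos : 0 ≤ M ^ 2 * (1024 * K) / (k : ℝ) ^ 4 := by positivity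
      by_cases h : i = i'
      · subst h
        simp only [if_true]
        linarith [hvarX j i]
      · simp only [if_neg h, zero_add]
        exact hcovX j i i' h
    calc ∑ i ∈ Finset.range (k ^ 4), ∑ i' ∈ Finset.range (k ^ 4), cov[X j i, X j i'; P]
        ≤ ∑ i ∈ Finset.range (k ^ 4), ∑ i' ∈ Finset.range (k ^ 4),
          ((if i = i' then M ^ 2 else 0) + M ^ 2 * (1024 * K) / (k : ℝ) ^ 4) :=
          Finset.sum_le_sum fun i _ => Finset.sum_le_sum fun i' _ => hterm i i'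
      _ ≤ ∑ i ∈ Finset.range (k ^ 4), (M ^ 2 + M ^ 2 * (1024 * K)) := by
          refine Finset.sum_le_sum fun i hi => ?_
          rw [Finset.sum_add_distrib, Finset.sum_ite_eq, if_pos hi, Finset.sum_const,
            Finset.card_range, nsmul_eq_mul]
          push_cast
          have hk4' : ((k : ℝ) ^ 4) ≠ 0 := by positivity
          rw [mul_div_cancel₀ _ hk4']
      _ = (k : ℝ) ^ 4 * (M ^ 2 * (1 + 1024 * K)) := by
          rw [Finset.sum_const, Finset.card_range, nsmul_eq_mul]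
          push_cast
          ring
  have hindep : Set.Pairwise (↑(Finset.range (k ^ 9)) : Set ℕ) fun i j => IndepFun (S i) (S j) P := by
    have key : ∀ i j : ℕ, i < j → IndepFun (S i) (S j) P := by
      intro i j hij
      have h1 := hL.indep_pair (a := rowT ρ t0 k i) (b := rowT ρ t0 k (i + 1))
        (c := rowT ρ t0 k j) (d := rowT ρ t0 k (j + 1)) (rowT_mono hρ t0 hk hij)
      rw [IndepFun_iff_Indep]
      exact indep_of_indep_of_le_left (indep_of_indep_of_le_right h1 (hSm j).comap_le)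
        (hSm i).comap_le
    intro i _ j _ hij
    rcases lt_or_gt_of_ne hij with h | h
    · exact key i j h
    · exact (key j i h).symm
  have hstat : (fun ω => stat ρ x0 t0 M k (L ω)) = ∑ j ∈ Finset.range (k ^ 9), S j := by
    ext ω
    rw [Finset.sum_apply]
    rfl
  rw [hstat, IndepFun.variance_sum (fun j _ => hSL j) hindep]
  calc ∑ j ∈ Finset.range (k ^ 9), Var[S j; P]
      ≤ ∑ j ∈ Finset.range (k ^ 9), (k : ℝ) ^ 4 * (M ^ 2 * (1 + 1024 * K)) :=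
        Finset.sum_le_sum fun j _ => hvarS j
    _ = (k : ℝ) ^ 13 * (M ^ 2 * (1 + 1024 * K)) := by
        rw [Finset.sum_const, Finset.card_range, nsmul_eq_mul]
        push_cast
        ring

end Pool.Agent.Lib.MP_cd6101_pr
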